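import Pool.Agent.MP_09d684_lc.H42.Calc

/-! Automation of definability proofs; natural numbers, subsets and functions of the model. -/

set_option linter.unusedSectionVars false

namespace Pool.Agent.MP_09d684_lc.H42

open Set

universe u v w

variable {M : Set ZFSet.{0}} [hM : IsZF M]

open Classical in
noncomputable instance : Code Prop := ⟨fun p => if p then {∅} else ∅⟩

theorem enc_true {p : Prop} (h : p) : enc p = ({∅} : ZFSet.{0}) := if_pos h

theorem enc_false {p : Prop} (h : ¬ p) : enc p = (∅ : ZFSet.{0}) := if_neg h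

theorem single_ne_empty : ({∅} : ZFSet.{0}) ≠ ∅ := fun h =>
  ZFSet.notMem_empty ∅ ((ZFSet.ext_iff.1 h ∅).1 (ZFSet.mem_singleton.2 rfl))

instance : Cd M Prop where
  inj := fun p q h => by
    by_cases hp : p <;> by_cases hq : q
    · simp [hp, hq]
    · rw [enc_true hp, enc_false hq] at h; exact absurd h single_ne_empty
    · rw [enc_false hp, enc_true hq] at h; exact absurd h.symm single_ne_empty
    · simp [hp, hq]
  mem := fun p => by
    by_cases hp : p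
    · rw [enc_true hp]; exact single_mem empty_mem
    · rw [enc_false hp]; exact empty_mem
  rng := ((PD.const 0 ⟨_, single_mem empty_mem⟩).or (PD.const 0 ⟨_, empty_mem⟩)).congr fun w => by
    constructor
    · rintro (h | h)
      exacts [⟨True, by rw [h, enc_true trivial]⟩, ⟨False, by rw [h, enc_false id]⟩]
    · rintro ⟨p, h⟩
      by_cases hp : p
      · exact Or.inl (Subtype.ext (h.symm.trans (enc_true hp)))
      · exact Or.inr (Subtype.ext (h.symm.trans (enc_false hp)))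

section

variable {Γ : Type*} {α : Type*} {β : Type*} {γ : Type*} [Code Γ] [Code α] [Code β] [Code γ]
  [Cd M Γ] [Cd M α] [Cd M β] [Cd M γ]

theorem Df.tm {Q : Γ → Prop} (h : Df M Q) : Tm M Q := by
  refine Tm.ofRel (Q := fun x p => (p = True ∧ Q x) ∨ (p = False ∧ ¬ Q x))
    (((Df.eq Tm.snd' (Tm.const _)).and (h.comp Tm.fst')).or
      ((Df.eq Tm.snd' (Tm.const _)).and (h.comp Tm.fst').not)) fun x p => ?_
  by_cases h : Q x <;> simp [h]

theorem Tm.df {Q : Γ → Prop} (h : Tm M Q) : Df M Q :=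
  (Df.eq h (Tm.const True)).congr fun _ => by simp

theorem Tm.congr {f h : Γ → α} (hf : Tm M f) (e : ∀ x, f x = h x) : Tm M h :=
  funext e ▸ hf

theorem Tm.congr' {Q R : Γ → Prop} (hf : Tm M Q) (e : ∀ x, Q x ↔ R x) : Tm M R :=
  hf.congr fun x => propext (e x)

attribute [fun_prop] Tm

@[fun_prop] theorem tm_id : Tm M (fun x : Γ => x) := Tm.id

@[fun_prop] theorem tm_const (c : α) : Tm M (fun _ : Γ => c) := Tm.const c

@[fun_prop] theorem tm_comp {h : α → β} {f : Γ → α} (hh : Tm M h) (hf : Tm M f) :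
    Tm M (fun x => h (f x)) := hh.comp hf

@[fun_prop] theorem tm_fst {f : Γ → α × β} (hf : Tm M f) : Tm M (fun x => (f x).1) := hf.fst

@[fun_prop] theorem tm_snd {f : Γ → α × β} (hf : Tm M f) : Tm M (fun x => (f x).2) := hf.snd

@[fun_prop] theorem tm_pair {f : Γ → α} {h : Γ → β} (hf : Tm M f) (hh : Tm M h) :
    Tm M (fun x => (f x, h x)) := hf.pair hh

@[fun_prop] theorem tm_ι {f : Γ → α} (hf : Tm M f) : Tm M (fun x => ι M (f x)) := hf.ι

@[fun_prop] theorem tm_pr {f h : Γ → M} (hf : Tm M f) (hh : Tm M h) :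
    Tm M (fun x => pr (f x) (h x)) := hf.pr hh

variable {Q R : Γ → Prop}

@[fun_prop] theorem tm_not (h : Tm M Q) : Tm M (fun x => ¬ Q x) := h.df.not.tm

@[fun_prop] theorem tm_and (h₁ : Tm M Q) (h₂ : Tm M R) : Tm M (fun x => Q x ∧ R x) :=
  (h₁.df.and h₂.df).tm

@[fun_prop] theorem tm_or (h₁ : Tm M Q) (h₂ : Tm M R) : Tm M (fun x => Q x ∨ R x) :=
  (h₁.df.or h₂.df).tm

@[fun_prop] theorem tm_imp (h₁ : Tm M Q) (h₂ : Tm M R) : Tm M (fun x => Q x → R x) :=
  (h₁.df.imp h₂.df).tm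

@[fun_prop] theorem tm_iff (h₁ : Tm M Q) (h₂ : Tm M R) : Tm M (fun x => Q x ↔ R x) :=
  (h₁.df.iff h₂.df).tm

@[fun_prop] theorem tm_ex {Q : Γ → α → Prop} (h : Tm M (fun z : Γ × α => Q z.1 z.2)) :
    Tm M (fun x => ∃ y, Q x y) := (Df.ex h.df).tm

@[fun_prop] theorem tm_all {Q : Γ → α → Prop} (h : Tm M (fun z : Γ × α => Q z.1 z.2)) :
    Tm M (fun x => ∀ y, Q x y) := (Df.all h.df).tm

@[fun_prop] theorem tm_eq {f h : Γ → α} (hf : Tm M f) (hh : Tm M h) :
    Tm M (fun x => f x = h x) := (Df.eq hf hh).tm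

@[fun_prop] theorem tm_ne {f h : Γ → α} (hf : Tm M f) (hh : Tm M h) :
    Tm M (fun x => f x ≠ h x) := (Df.eq hf hh).not.tm

/-- Membership between elements of the model. -/
def E (a b : M) : Prop := a.1 ∈ b.1

@[fun_prop] theorem tm_E {f h : Γ → M} (hf : Tm M f) (hh : Tm M h) :
    Tm M (fun x => E (f x) (h x)) := (Df.mem hf hh).tm

@[fun_prop] theorem tm_ite {c : Γ → Prop} {d : ∀ x, Decidable (c x)} {f h : Γ → α} (hc : Tm M c)
    (hf : Tm M f) (hh : Tm M h) : Tm M (fun x => @ite _ (c x) (d x) (f x) (h x)) :=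
  @Tm.ite _ _ _ _ _ _ _ _ _ d _ _ hc.df hf hh

theorem tm_of_rel {f : Γ → α} {Q : Γ → α → Prop} (h : Tm M (fun z : Γ × α => Q z.1 z.2))
    (e : ∀ x y, Q x y ↔ y = f x) : Tm M f := Tm.ofRel h.df e

theorem tm_sep {Q : M → Prop} (h : Tm M Q) (a : M) : ∃ b : M, ∀ x, E x b ↔ E x a ∧ Q x :=
  h.df.sep a

theorem tm_image [Bd M Γ] (hQ : Tm M Q) {f : Γ → M} (hf : Tm M f) :
    ∃ S : M, ∀ y, E y S ↔ ∃ x, Q x ∧ f x = y := exists_image hQ.df hf

theorem rng_of_tm {δ : Type*} [Code δ] {S : M → Prop} (h : Tm M S)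
    (e : ∀ x : M, S x ↔ ∃ a : δ, enc a = x.1) : D1 M (fun x => ∃ a : δ, enc a = x.1) :=
  (h.congr' e).df.toD1

end

/-! ### Natural numbers -/

theorem enc_nat (n : ℕ) : enc n = Ordinal.toZFSet n := rfl

theorem enc_nat_succ (n : ℕ) : enc (n + 1) = insert (enc n) (enc n) := by
  simp only [enc_nat, Nat.cast_add_one, Ordinal.toZFSet_add_one]

theorem mem_omega {x : ZFSet.{0}} : x ∈ Ordinal.toZFSet Ordinal.omega0 ↔ ∃ n : ℕ, enc n = x := by
  rw [Ordinal.mem_toZFSet_iff]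
  constructor
  · rintro ⟨a, ha, rfl⟩
    obtain ⟨n, rfl⟩ := Ordinal.lt_omega0.1 ha
    exact ⟨n, rfl⟩
  · rintro ⟨n, rfl⟩
    exact ⟨n, Ordinal.natCast_lt_omega0 n, rfl⟩

theorem omega_mem : Ordinal.toZFSet Ordinal.omega0 ∈ M := by
  obtain ⟨w, hw, h₀, h₁⟩ := hM.inf
  let o : M := ⟨∅, empty_mem⟩
  let Ind : M → Prop := fun v => E o v ∧ ∀ y, E y v → ∃ s, E s v ∧ ∀ z, E z s ↔ z = y ∨ E z y
  have hI : ∀ v : M, Ind v ↔ ∅ ∈ v.1 ∧ ∀ y ∈ v.1, insert y y ∈ v.1 := fun v => by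
    refine and_congr Iff.rfl ⟨fun h y hy => ?_, fun h y hy => ⟨⟨_, insert_mem y.2 y.2⟩, h _ hy,
      fun z => by simp [E, Subtype.ext_iff]⟩⟩
    obtain ⟨s, hs, e⟩ := h ⟨y, tr v.2 hy⟩ hy
    have : s = ⟨_, insert_mem (tr v.2 hy) (tr v.2 hy)⟩ := ext_M fun z => (e z).trans (by
      simp [E, Subtype.ext_iff])
    subst this
    exact hs
  obtain ⟨b, hb⟩ := tm_sep (Q := fun x => ∀ v, Ind v → E x v) (by simp only [Ind]; fun_prop)
    ⟨w, hw⟩
  have hn : ∀ v : M, Ind v → ∀ n : ℕ, enc n ∈ v.1 := fun v hv n => by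
    rw [hI] at hv
    induction n with
    | zero => simpa [enc_nat] using hv.1
    | succ n ih => rw [enc_nat_succ]; exact hv.2 _ ih
  have hw' : Ind ⟨w, hw⟩ := (hI _).2 ⟨h₀, h₁⟩
  convert b.2
  ext x
  rw [mem_omega]
  constructor
  · rintro ⟨n, rfl⟩
    exact (hb ⟨_, tr hw (hn _ hw' n)⟩).2 ⟨hn _ hw' n, fun v hv => hn v hv n⟩
  · induction x using ZFSet.inductionOn with | _ x ih
    intro hx
    by_contra hc
    obtain ⟨c, hc'⟩ := tm_sep (Q := fun y => y ≠ ⟨x, tr b.2 hx⟩) (by fun_prop) b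
    have : Ind c := by
      rw [hI]
      refine ⟨(hc' o).2 ⟨(hb o).2 ⟨h₀, fun v hv => hv.1⟩, fun e => hc ⟨0, ?_⟩⟩, fun y hy => ?_⟩
      · simpa [enc_nat] using congrArg Subtype.val e
      · obtain ⟨h₂, -⟩ := (hc' ⟨y, tr c.2 hy⟩).1 hy
        obtain ⟨h₃, h₄⟩ := (hb _).1 h₂
        refine (hc' ⟨_, insert_mem (tr c.2 hy) (tr c.2 hy)⟩).2 ⟨(hb _).2 ⟨h₁ _ h₃,
          fun v hv => ((hI v).1 hv).2 _ (h₄ v hv)⟩, fun e => hc ?_⟩
        have e' : insert y y = x := congrArg Subtype.val e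
        obtain ⟨n, rfl⟩ := ih y (e' ▸ ZFSet.mem_insert _ _) h₂
        exact ⟨n + 1, (enc_nat_succ n).trans e'⟩
    exact ((hc' _).1 (((hb ⟨x, tr b.2 hx⟩).1 hx).2 c this)).2 rfl

instance : Cd M ℕ where
  inj := fun _ _ h => Nat.cast_injective (Ordinal.toZFSet_injective h)
  mem := fun n => tr omega_mem (mem_omega.2 ⟨n, rfl⟩)
  rng := PD.congr (D1.memc ⟨_, omega_mem⟩) fun _ => mem_omega

instance : Bd M ℕ := ⟨⟨⟨_, omega_mem⟩, fun n => mem_omega.2 ⟨n, rfl⟩⟩⟩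

noncomputable instance : Code Bool := ⟨fun b => enc b.toNat⟩

/-- Coded types with a definable order. -/
class TmLT (M : Set ZFSet.{0}) [IsZF M] (K : Type u) [Code K] [Cd M K] [LT K] : Prop where
  lt : Tm M (fun z : K × K => z.1 < z.2)

instance : TmLT M ℕ :=
  ⟨(tm_E (tm_ι (tm_fst tm_id)) (tm_ι (tm_snd tm_id))).congr' fun z => by
    simp [E, ι_val, enc_nat]⟩

section

variable {Γ : Type*} {α : Type*} {β : Type*} {γ : Type*} [Code Γ] [Code α] [Code β] [Code γ]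
  [Cd M Γ] [Cd M α] [Cd M β] [Cd M γ]
variable {K : Type*} [Code K] [Cd M K] [LinearOrder K] [TmLT M K]

@[fun_prop] theorem tm_lt {f h : Γ → K} (hf : Tm M f) (hh : Tm M h) :
    Tm M (fun x => f x < h x) := (TmLT.lt (M := M) (K := K)).comp (hf.pair hh)

@[fun_prop] theorem tm_le {f h : Γ → K} (hf : Tm M f) (hh : Tm M h) :
    Tm M (fun x => f x ≤ h x) := (tm_not (tm_lt hh hf)).congr' fun _ => not_lt

@[fun_prop] theorem tm_max {f h : Γ → K} (hf : Tm M f) (hh : Tm M h) :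
    Tm M (fun x => max (f x) (h x)) := by
  simp only [max_def]
  fun_prop

@[fun_prop] theorem tm_nat_lt {f h : Γ → ℕ} (hf : Tm M f) (hh : Tm M h) :
    Tm M (fun x => f x < h x) := tm_lt hf hh

@[fun_prop] theorem tm_nat_le {f h : Γ → ℕ} (hf : Tm M f) (hh : Tm M h) :
    Tm M (fun x => f x ≤ h x) := tm_le hf hh

theorem tm_succ' : Tm M (fun n : ℕ => n + 1) :=
  tm_of_rel (Q := fun n m => n < m ∧ ∀ k, n < k → m ≤ k) (by fun_prop) fun n m =>
    ⟨fun ⟨h₁, h₂⟩ => le_antisymm (h₂ _ (Nat.lt_succ_self n)) h₁, fun h => h ▸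
      ⟨Nat.lt_succ_self n, fun _ hk => hk⟩⟩

@[fun_prop] theorem tm_succ {f : Γ → ℕ} (hf : Tm M f) : Tm M (fun x => Nat.succ (f x)) :=
  tm_succ'.comp hf

theorem exists_finset {S : Set M} (h : S.Finite) : ∃ s : M, ∀ x, E x s ↔ x ∈ S := by
  induction S, h using Set.Finite.induction_on with
  | empty => exact ⟨⟨∅, empty_mem⟩, fun x => by simp [E]⟩
  | @insert a S _ _ ih =>
    obtain ⟨s, hs⟩ := ih
    refine ⟨⟨_, insert_mem a.2 s.2⟩, fun x => ?_⟩
    simp only [Set.mem_insert_iff, ← hs]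
    simp [E, Subtype.ext_iff]

theorem tm_iter' {F : Γ → α → α} {a : Γ → α} (hF : Tm M (fun z : Γ × α => F z.1 z.2))
    (ha : Tm M a) : Tm M (fun z : Γ × ℕ => (F z.1)^[z.2] (a z.1)) := by
  refine tm_of_rel (Q := fun z y => ∃ s : M, E (ι M (z.2, y)) s ∧
    (∀ y' : α, E (ι M ((0 : ℕ), y')) s → y' = a z.1) ∧
    ∀ (k : ℕ) (y' : α), E (ι M (k.succ, y')) s →
      ∃ y'' : α, E (ι M (k, y'')) s ∧ y' = F z.1 y'') (by fun_prop) ?_
  rintro ⟨p, n⟩ y
  constructor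
  · rintro ⟨s, h, h₀, h₁⟩
    dsimp only at h h₀ h₁ ⊢
    induction n generalizing y with
    | zero => exact h₀ y h
    | succ n ih =>
      obtain ⟨y', h₂, rfl⟩ := h₁ n y h
      rw [Function.iterate_succ_apply', ih y' h₂]
  · rintro rfl
    obtain ⟨s, hs⟩ := exists_finset
      ((Set.finite_le_nat n).image fun k => ι M (k, (F p)^[k] (a p)))
    have e : ∀ k (y : α), E (ι M (k, y)) s ↔ k ≤ n ∧ y = (F p)^[k] (a p) := by
      intro k y
      rw [hs]
      constructor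
      · rintro ⟨j, hj, e⟩
        obtain ⟨rfl, rfl⟩ := Prod.ext_iff.1 (ι_inj.1 e)
        exact ⟨hj, rfl⟩
      · rintro ⟨hk, rfl⟩
        exact ⟨k, hk, rfl⟩
    refine ⟨s, (e _ _).2 ⟨le_rfl, rfl⟩, fun y h => ((e _ _).1 h).2, fun k y h => ?_⟩
    obtain ⟨h₁, rfl⟩ := (e _ _).1 h
    exact ⟨_, (e _ _).2 ⟨Nat.le_of_succ_le h₁, rfl⟩, Function.iterate_succ_apply' _ _ _⟩

@[fun_prop] theorem tm_iter {F : Γ → α → α} {a : Γ → α} {n : Γ → ℕ}
    (hF : Tm M (fun z : Γ × α => F z.1 z.2)) (hn : Tm M n) (ha : Tm M a) :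
    Tm M (fun x => (F x)^[n x] (a x)) :=
  (tm_iter' hF ha).comp (Tm.id.pair hn)

@[fun_prop] theorem tm_add {f h : Γ → ℕ} (hf : Tm M f) (hh : Tm M h) :
    Tm M (fun x => f x + h x) := by
  have : Tm M (fun x => Nat.succ^[h x] (f x)) := by fun_prop
  simpa only [Nat.succ_iterate] using this

@[fun_prop] theorem tm_mul {f h : Γ → ℕ} (hf : Tm M f) (hh : Tm M h) :
    Tm M (fun x => f x * h x) := by
  have : Tm M (fun x => (fun k => k + f x)^[h x] 0) := by fun_prop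
  have e : ∀ a n : ℕ, (fun k => k + a)^[n] 0 = a * n := fun a n => by
    induction n with
    | zero => rfl
    | succ n ih => rw [Function.iterate_succ_apply', ih, Nat.mul_succ]
  simpa only [e] using this

@[fun_prop] theorem tm_sub {f h : Γ → ℕ} (hf : Tm M f) (hh : Tm M h) :
    Tm M (fun x => f x - h x) :=
  tm_of_rel (Q := fun x m => m + h x = f x ∨ (m = 0 ∧ f x < h x)) (by fun_prop) fun x m => by
    omega

@[fun_prop] theorem tm_div2 {f : Γ → ℕ} (hf : Tm M f) : Tm M (fun x => f x / 2) :=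
  tm_of_rel (Q := fun x m => 2 * m = f x ∨ 2 * m + 1 = f x) (by fun_prop) fun x m => by
    omega

@[fun_prop] theorem tm_mod2 {f : Γ → ℕ} (hf : Tm M f) : Tm M (fun x => f x % 2) :=
  tm_of_rel (Q := fun x m => m + 2 * (f x / 2) = f x) (by fun_prop) fun x m => by
    omega

@[fun_prop] theorem tm_natPair {f h : Γ → ℕ} (hf : Tm M f) (hh : Tm M h) :
    Tm M (fun x => Nat.pair (f x) (h x)) := by
  unfold Nat.pair
  fun_prop

@[fun_prop] theorem tm_unpair {f : Γ → ℕ} (hf : Tm M f) : Tm M (fun x => Nat.unpair (f x)) :=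
  tm_of_rel (Q := fun x (z : ℕ × ℕ) => Nat.pair z.1 z.2 = f x) (by fun_prop) fun x z =>
    ⟨fun h => by rw [← h, Nat.unpair_pair], fun h => by rw [h, Nat.pair_unpair]⟩

instance : Cd M Bool where
  inj := fun a b h => by
    have : a.toNat = b.toNat := Cd.inj M h
    revert this
    cases a <;> cases b <;> simp
  mem := fun b => Cd.mem b.toNat
  rng := rng_of_tm (S := fun x => ∃ n : ℕ, n < 2 ∧ ι M n = x) (by fun_prop) fun x => by
    constructor
    · rintro ⟨n, hn, rfl⟩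
      interval_cases n
      exacts [⟨false, rfl⟩, ⟨true, rfl⟩]
    · rintro ⟨b, h⟩
      exact ⟨b.toNat, Bool.toNat_lt b, Subtype.ext h⟩

instance : Bd M Bool := ⟨(Bd.bd (M := M) (α := ℕ)).imp fun _ h b => h b.toNat⟩

open Classical in
@[fun_prop] theorem tm_decide {Q : Γ → Prop} {d : ∀ x, Decidable (Q x)} (h : Tm M Q) :
    Tm M (fun x => @decide (Q x) (d x)) :=
  (show Tm M (fun x => if Q x then true else false) by fun_prop).congr fun x => by
    by_cases hx : Q x <;> simp [hx]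

end

end Pool.Agent.MP_09d684_lc.H42
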