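import Pool.Agent.MP_09d684_lc.H42.Main

namespace Pool.Agent.Results.MP_09d684_lc.BelowTheta

open Pool.Agent.MP_09d684_lc.H42

/-- Over a transitive model `M` of `ZF + AD_ℝ`, forcing with `P(ω × ω) / Fin ⊗ Fin` preserves
every strong partition cardinal below `Θ`. -/
theorem result (M : Set ZFSet.{0}) (hM : IsZF M) (hAD : ADR M) (κ : Ordinal.{0})
    (hκ : StrongPartition M κ) (hΘ : BelowTheta M κ) (G : Set ZFSet.{0}) (hG : IsGeneric M G) :
    StrongPartition (Ext M G) κ :=
  haveI : Fact (ADR M) := ⟨hAD⟩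
  preserve hκ hΘ hG

end Pool.Agent.Results.MP_09d684_lc.BelowTheta
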