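import Pool.Agent.MP_09d684_lc.H42.Defs

/-! Definability calculus over a transitive model of ZF (design after the library of
`MP_c6cf52_lc`). -/

set_option linter.unusedSectionVars false

namespace Pool.Agent.MP_09d684_lc.H42

open FirstOrder Set

universe u v w

variable {M : Set ZFSet.{0}}

/-! ### Closure properties of the model -/

section Closure

variable [hM : IsZF M]

theorem tr {a x : ZFSet.{0}} (ha : a ∈ M) (hx : x ∈ a) : x ∈ M := IsZF.trans a ha x hx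

theorem upair_mem {a b : ZFSet.{0}} (ha : a ∈ M) (hb : b ∈ M) : ({a, b} : ZFSet.{0}) ∈ M := by
  obtain ⟨c, hc, h⟩ := IsZF.pair a ha b hb
  convert hc
  ext x
  rw [ZFSet.mem_pair]
  constructor
  · intro hx
    refine (h x ?_).2 hx
    rcases hx with rfl | rfl <;> assumption
  · exact fun hx => (h x (tr hc hx)).1 hx

theorem single_mem {a : ZFSet.{0}} (ha : a ∈ M) : ({a} : ZFSet.{0}) ∈ M := by
  simpa using upair_mem ha ha

theorem pair_mem {a b : ZFSet.{0}} (ha : a ∈ M) (hb : b ∈ M) : ZFSet.pair a b ∈ M :=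
  upair_mem (single_mem ha) (upair_mem ha hb)

theorem sUnion_mem {a : ZFSet.{0}} (ha : a ∈ M) : ZFSet.sUnion a ∈ M := by
  obtain ⟨c, hc, h⟩ := IsZF.union a ha
  convert hc
  ext x
  rw [ZFSet.mem_sUnion]
  constructor
  · rintro ⟨y, hy, hx⟩
    exact (h x (tr (tr ha hy) hx)).2 ⟨y, tr ha hy, hx, hy⟩
  · intro hx
    obtain ⟨y, -, h₁, h₂⟩ := (h x (tr hc hx)).1 hx
    exact ⟨y, h₂, h₁⟩

theorem union_mem {a b : ZFSet.{0}} (ha : a ∈ M) (hb : b ∈ M) : a ∪ b ∈ M :=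
  sUnion_mem (upair_mem ha hb)

theorem insert_mem {a b : ZFSet.{0}} (ha : a ∈ M) (hb : b ∈ M) : insert a b ∈ M := by
  convert union_mem (single_mem ha) hb
  ext x
  simp

theorem exists_power {a : ZFSet.{0}} (ha : a ∈ M) : ∃ c ∈ M, ∀ x ∈ M, x ⊆ a → x ∈ c := by
  obtain ⟨c, hc, h⟩ := IsZF.power a ha
  exact ⟨c, hc, fun x hx hs => (h x hx).2 fun y _ hy => hs hy⟩

theorem empty_mem : (∅ : ZFSet.{0}) ∈ M := by
  obtain ⟨w, hw, h, -⟩ := hM.inf
  exact tr hw h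

theorem mem_of_pair_mem {a b : ZFSet.{0}} (h : ZFSet.pair a b ∈ M) : a ∈ M ∧ b ∈ M :=
  ⟨tr (tr h (ZFSet.mem_insert _ _)) (ZFSet.mem_singleton.2 rfl),
    tr (tr h (ZFSet.mem_pair.2 (Or.inr rfl))) (ZFSet.mem_pair.2 (Or.inr rfl))⟩

/-- Kuratowski pair inside the model. -/
def pr (a b : M) : M := ⟨ZFSet.pair a.1 b.1, pair_mem a.2 b.2⟩

theorem pr_inj {a b c d : M} : pr a b = pr c d ↔ a = c ∧ b = d := by
  simp only [pr, Subtype.ext_iff, ZFSet.pair_inj]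

theorem ext_M {a b : M} (h : ∀ x : M, x.1 ∈ a.1 ↔ x.1 ∈ b.1) : a = b :=
  Subtype.ext (ZFSet.ext fun x =>
    ⟨fun hx => (h ⟨x, tr a.2 hx⟩).1 hx, fun hx => (h ⟨x, tr b.2 hx⟩).2 hx⟩)

end Closure

/-! ### Definable relations on the model -/

/-- Definable with parameters over the model. -/
def PD (M : Set ZFSet.{0}) (Ψ : (ℕ → M) → Prop) : Prop :=
  @Set.Definable M Set.univ Language.graph (memStr M) ℕ {w | Ψ w}

namespace PD

variable {Φ Ψ : (ℕ → M) → Prop} {Θ : (ℕ → M) → M → Prop}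

theorem congr (h : PD M Φ) (e : ∀ w, Φ w ↔ Ψ w) : PD M Ψ := by
  have : Φ = Ψ := funext fun w => propext (e w)
  exact this ▸ h

theorem rename (h : PD M Φ) (f : ℕ → ℕ) : PD M (fun w => Φ (fun k => w (f k))) := by
  let := memStr M
  exact Set.Definable.preimage_comp f h

theorem not (h : PD M Φ) : PD M (fun w => ¬ Φ w) := by
  let := memStr M
  exact Set.Definable.compl h

theorem and (h₁ : PD M Φ) (h₂ : PD M Ψ) : PD M (fun w => Φ w ∧ Ψ w) := by
  let := memStr M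
  exact Set.Definable.inter h₁ h₂

theorem or (h₁ : PD M Φ) (h₂ : PD M Ψ) : PD M (fun w => Φ w ∨ Ψ w) :=
  (h₁.not.and h₂.not).not.congr fun _ => by tauto

theorem imp (h₁ : PD M Φ) (h₂ : PD M Ψ) : PD M (fun w => Φ w → Ψ w) :=
  (h₁.and h₂.not).not.congr fun _ => by tauto

theorem iff (h₁ : PD M Φ) (h₂ : PD M Ψ) : PD M (fun w => Φ w ↔ Ψ w) :=
  ((h₁.imp h₂).and (h₂.imp h₁)).congr fun _ => by tauto

theorem ex (h : PD M (fun w => Θ (fun k => w (k + 1)) (w 0))) :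
    PD M (fun w => ∃ x, Θ w x) := by
  let := memStr M
  have h₁ := Set.Definable.exists_of_finite (Set.Definable.preimage_comp
    (fun k : ℕ => (Nat.casesOn k (Sum.inr ()) Sum.inl : ℕ ⊕ Unit)) h)
  refine (PD.congr (Φ := fun v => ∃ u : Unit → M, Θ v (u ())) h₁ fun w => ?_)
  exact ⟨fun ⟨u, h⟩ => ⟨u (), h⟩, fun ⟨x, h⟩ => ⟨fun _ => x, h⟩⟩

theorem all (h : PD M (fun w => Θ (fun k => w (k + 1)) (w 0))) :
    PD M (fun w => ∀ x, Θ w x) :=
  (ex (Θ := fun w x => ¬ Θ w x) h.not).not.congr fun _ => by simp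

theorem mem (i j : ℕ) : PD M (fun w => (w i).1 ∈ (w j).1) := by
  let := memStr M
  refine Set.Definable.mono ?_ (Set.empty_subset _)
  rw [Set.empty_definable_iff]
  refine ⟨Language.adj.formula₂ (Language.Term.var i) (Language.Term.var j), ?_⟩
  ext w
  simp only [Set.mem_ofPred_eq]
  rw [Language.Formula.realize_rel₂]
  rfl

theorem eq (i j : ℕ) : PD M (fun w => w i = w j) := by
  let := memStr M
  exact ⟨(Language.Term.var i).equal (Language.Term.var j), by ext; simp⟩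

theorem const (i : ℕ) (c : M) : PD M (fun w => w i = c) := by
  let := memStr M
  exact Set.Definable.preimage_comp (fun _ : Fin 1 => i)
    (Set.Definable.singleton_of_mem Language.graph (a := c) (Set.mem_univ _))

variable [IsZF M]

theorem pr (i j k : ℕ) : PD M (fun w => w i = pr (w j) (w k)) := by
  have : PD M (fun w => ∀ z : M, z.1 ∈ (w i).1 ↔ (∀ x : M, x.1 ∈ z.1 ↔ x = w j) ∨
      ∀ x : M, x.1 ∈ z.1 ↔ x = w j ∨ x = w k) :=
    all ((mem _ _).iff ((all ((mem _ _).iff (eq _ _))).or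
      (all ((mem _ _).iff ((eq _ _).or (eq _ _))))))
  refine this.congr fun w => ?_
  have e₁ : ∀ z : M, (∀ x : M, x.1 ∈ z.1 ↔ x = w j) ↔ z.1 = {(w j).1} := fun z =>
    ⟨fun h => congrArg Subtype.val (ext_M (a := z) (b := ⟨_, single_mem (w j).2⟩) fun x => by
      simp [h, Subtype.ext_iff]), fun h x => by simp [h, Subtype.ext_iff]⟩
  have e₂ : ∀ z : M, (∀ x : M, x.1 ∈ z.1 ↔ x = w j ∨ x = w k) ↔ z.1 = {(w j).1, (w k).1} :=
    fun z => ⟨fun h => congrArg Subtype.val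
      (ext_M (a := z) (b := ⟨_, upair_mem (w j).2 (w k).2⟩) fun x => by
        simp [h, Subtype.ext_iff]), fun h x => by simp [h, Subtype.ext_iff]⟩
  simp only [e₁, e₂]
  constructor
  · exact fun h => ext_M fun x => by simp [h, H42.pr, ZFSet.pair]
  · intro h z
    simp [h, H42.pr, ZFSet.pair]

end PD

/-- Definable subclasses of the model. -/
def D1 (M : Set ZFSet.{0}) (S : M → Prop) : Prop := PD M (fun w => S (w 0))

theorem D1.at {S : M → Prop} (h : D1 M S) (i : ℕ) : PD M (fun w => S (w i)) :=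
  PD.rename h (fun _ => i)

variable [hM : IsZF M]

theorem D1.sep {S : M → Prop} (h : D1 M S) (a : M) :
    ∃ b : M, ∀ x : M, x.1 ∈ b.1 ↔ x.1 ∈ a.1 ∧ S x := by
  let := memStr M
  exact hM.sep {x | S x} (Set.Definable.preimage_comp (fun _ : ℕ => (0 : Fin 1)) h) a

theorem D1.repl {S : M → Prop} (h : D1 M S) (a : M)
    (hu : ∀ x : M, x.1 ∈ a.1 → ∃! y, S (pr x y)) :
    ∃ b : M, ∀ y : M, y.1 ∈ b.1 ↔ ∃ x : M, x.1 ∈ a.1 ∧ S (pr x y) := by
  let := memStr M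
  have h' : PD M (fun w => S (pr (w 0) (w 1))) :=
    (PD.ex (Θ := fun w q => q = pr (w 0) (w 1) ∧ S q) ((PD.pr _ _ _).and (h.at _))).congr
      fun w => by simp
  exact hM.repl {z | S (pr z.1 z.2)}
    (Set.Definable.preimage_comp (fun k : ℕ => if k = 0 then (0 : Fin 2) else 1) h') a hu

theorem D1.memc (c : M) : D1 M (fun x => x.1 ∈ c.1) :=
  (PD.ex (Θ := fun w y => y = c ∧ (w 0).1 ∈ y.1) ((PD.const _ _).and (PD.mem _ _))).congr
    fun w => by simp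

/-! ### Coded types -/

/-- Types all of whose codes lie in the model and form a definable class. -/
class Cd (M : Set ZFSet.{0}) (α : Type u) [Code α] : Prop where
  inj : Function.Injective (enc : α → ZFSet.{0})
  mem : ∀ a : α, enc a ∈ M
  rng : D1 M (fun x => ∃ a : α, enc a = x.1)

/-- Coded types whose codes lie in a set of the model. -/
class Bd (M : Set ZFSet.{0}) (α : Type u) [Code α] : Prop where
  bd : ∃ A : M, ∀ a : α, enc a ∈ A.1

/-- The code as an element of the model. -/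
def ι (M : Set ZFSet.{0}) {α : Type u} [Code α] [Cd M α] (a : α) : M := ⟨enc a, Cd.mem a⟩

theorem ι_val {α : Type u} [Code α] [Cd M α] (a : α) : (ι M a).1 = enc a := rfl

theorem ι_inj {α : Type u} [Code α] [Cd M α] {a b : α} : ι M a = ι M b ↔ a = b :=
  ⟨fun h => Cd.inj M (congrArg Subtype.val h), fun h => h ▸ rfl⟩

theorem rng' (α : Type u) [Code α] [Cd M α] : D1 M (fun x => ∃ a : α, ι M a = x) :=
  PD.congr (Cd.rng (M := M) (α := α)) fun _ => by simp only [Subtype.ext_iff, ι_val]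

instance : Cd M M where
  inj := Subtype.val_injective
  mem := fun a => a.2
  rng := (PD.eq 0 0).congr fun w => ⟨fun _ => ⟨w 0, rfl⟩, fun _ => rfl⟩

@[simp] theorem ι_M (x : M) [Cd M M] : ι M x = x := rfl

instance {α : Type v} {β : Type w} [Code α] [Code β] [Cd M α] [Cd M β] : Cd M (α × β) where
  inj := fun a b h => Prod.ext (Cd.inj M (ZFSet.pair_inj.1 h).1) (Cd.inj M (ZFSet.pair_inj.1 h).2)
  mem := fun z => pair_mem (Cd.mem z.1) (Cd.mem z.2)
  rng := by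
    have : PD M (fun w => ∃ x y, w 0 = pr x y ∧ (∃ a : α, ι M a = x) ∧ ∃ b : β, ι M b = y) :=
      PD.ex (PD.ex ((PD.pr _ _ _).and (((rng' α).at _).and ((rng' β).at _))))
    refine this.congr fun w => ⟨?_, ?_⟩
    · rintro ⟨_, _, h, ⟨a, rfl⟩, b, rfl⟩
      exact ⟨(a, b), congrArg Subtype.val h.symm⟩
    · rintro ⟨⟨a, b⟩, h⟩
      exact ⟨ι M a, ι M b, Subtype.ext h.symm, ⟨a, rfl⟩, b, rfl⟩

theorem ι_prod {α : Type v} {β : Type w} [Code α] [Code β] [Cd M α] [Cd M β] (z : α × β) :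
    ι M z = pr (ι M z.1) (ι M z.2) := rfl

theorem exists_pr_bound (A B : M) :
    ∃ C : M, ∀ a b, a ∈ A.1 → b ∈ B.1 → ZFSet.pair a b ∈ C.1 := by
  obtain ⟨Q, hQ, h₁⟩ := exists_power (union_mem A.2 B.2)
  obtain ⟨R, hR, h₂⟩ := exists_power hQ
  refine ⟨⟨R, hR⟩, fun a b ha hb => h₂ _ (pair_mem (tr A.2 ha) (tr B.2 hb)) fun z hz => ?_⟩
  rcases ZFSet.mem_pair.1 hz with rfl | rfl
  · exact h₁ _ (single_mem (tr A.2 ha)) fun y hy => by simp_all
  · refine h₁ _ (upair_mem (tr A.2 ha) (tr B.2 hb)) fun y hy => ?_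
    rcases ZFSet.mem_pair.1 hy with rfl | rfl <;> simp [*]

instance {α : Type v} {β : Type w} [Code α] [Code β] [Bd M α] [Bd M β] : Bd M (α × β) where
  bd := by
    obtain ⟨A, hA⟩ := Bd.bd (M := M) (α := α)
    obtain ⟨B, hB⟩ := Bd.bd (M := M) (α := β)
    obtain ⟨C, hC⟩ := exists_pr_bound A B
    exact ⟨C, fun z => hC _ _ (hA _) (hB _)⟩

/-- Definable predicates on a coded type. -/
def Df (M : Set ZFSet.{0}) {α : Type v} [Code α] [Cd M α] (Q : α → Prop) : Prop :=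
  D1 M (fun x => ∃ a, ι M a = x ∧ Q a)

/-- Definable functions between coded types. -/
def Tm (M : Set ZFSet.{0}) [IsZF M] {α : Type v} {β : Type w} [Code α] [Code β] [Cd M α] [Cd M β]
    (f : α → β) : Prop :=
  Df M (fun z : α × β => z.2 = f z.1)

section Rules

variable {Γ : Type*} {α : Type*} {β : Type*} [Code Γ] [Code α] [Code β] [Cd M Γ] [Cd M α] [Cd M β]
variable {Q R : Γ → Prop}

theorem Df.congr (h : Df M Q) (e : ∀ x, Q x ↔ R x) : Df M R :=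
  PD.congr h fun _ => by simp only [e]

theorem Df.ofD1 {S : M → Prop} (h : D1 M S) : Df M (fun x : Γ => S (ι M x)) :=
  (PD.and (rng' Γ) h).congr fun w => by
    constructor
    · rintro ⟨⟨a, e⟩, h⟩
      exact ⟨a, e, by show S (ι M a); rw [e]; exact h⟩
    · rintro ⟨a, e, h⟩
      exact ⟨⟨a, e⟩, by show S (w 0); rw [← show ι M a = w 0 from e]; exact h⟩

theorem Df.not (h : Df M Q) : Df M (fun x => ¬ Q x) :=
  (Df.ofD1 (S := fun y => ¬ ∃ a, ι M a = y ∧ Q a) (PD.not h)).congr fun x => by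
    simp [ι_inj]

theorem Df.and (h₁ : Df M Q) (h₂ : Df M R) : Df M (fun x => Q x ∧ R x) :=
  (Df.ofD1 (S := fun y => (∃ a, ι M a = y ∧ Q a) ∧ ∃ a, ι M a = y ∧ R a) (PD.and h₁ h₂)).congr
    fun x => by simp [ι_inj]

theorem Df.or (h₁ : Df M Q) (h₂ : Df M R) : Df M (fun x => Q x ∨ R x) :=
  (h₁.not.and h₂.not).not.congr fun _ => by tauto

theorem Df.imp (h₁ : Df M Q) (h₂ : Df M R) : Df M (fun x => Q x → R x) :=
  (h₁.and h₂.not).not.congr fun _ => by tauto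

theorem Df.iff (h₁ : Df M Q) (h₂ : Df M R) : Df M (fun x => Q x ↔ R x) :=
  ((h₁.imp h₂).and (h₂.imp h₁)).congr fun _ => by tauto

theorem Df.ex {Q : Γ → α → Prop} (h : Df M (fun z : Γ × α => Q z.1 z.2)) :
    Df M (fun x => ∃ y, Q x y) := by
  have : D1 M (fun x => ∃ y q, q = pr x y ∧ ∃ a : Γ × α, ι M a = q ∧ Q a.1 a.2) :=
    PD.ex (PD.ex ((PD.pr _ _ _).and (D1.at h _)))
  refine (Df.ofD1 this).congr fun x => ⟨?_, ?_⟩
  · rintro ⟨y, _, rfl, ⟨a, b⟩, e, h⟩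
    obtain rfl := ι_inj.1 (pr_inj.1 ((ι_prod _).symm.trans e)).1
    exact ⟨b, h⟩
  · rintro ⟨y, h⟩
    exact ⟨ι M y, _, rfl, (x, y), rfl, h⟩

theorem Df.all {Q : Γ → α → Prop} (h : Df M (fun z : Γ × α => Q z.1 z.2)) :
    Df M (fun x => ∀ y, Q x y) :=
  (Df.ex (Q := fun x y => ¬ Q x y) h.not).not.congr fun _ => by simp

theorem Df.ofPD {S : M → M → Prop} (h : PD M (fun w => S (w 0) (w 1))) :
    Df M (fun z : α × β => S (ι M z.1) (ι M z.2)) := by
  have : D1 M (fun q => ∃ x y, q = pr x y ∧ S x y) :=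
    PD.ex (PD.ex ((PD.pr _ _ _).and (h.rename (fun k => if k = 0 then 1 else 0))))
  refine (Df.ofD1 this).congr fun z => ⟨?_, fun h => ⟨_, _, rfl, h⟩⟩
  rintro ⟨x, y, e, h⟩
  obtain ⟨rfl, rfl⟩ := pr_inj.1 ((ι_prod _).symm.trans e)
  exact h

theorem Df.comp {Q : α → Prop} {f : Γ → α} (h : Df M Q) (hf : Tm M f) :
    Df M (fun x => Q (f x)) := by
  have h' : Df M (fun z : Γ × α => Q z.2) :=
    (Df.ofPD (S := fun _ y => ∃ a, ι M a = y ∧ Q a) (D1.at h 1)).congr fun z => by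
      simp [ι_inj]
  exact (Df.ex (Q := fun x y => y = f x ∧ Q y) (Df.and hf h')).congr fun x => by simp

theorem Tm.ofPD {f : α → β} {S : M → M → Prop} (h : PD M (fun w => S (w 0) (w 1)))
    (e : ∀ a b, S (ι M a) (ι M b) ↔ b = f a) : Tm M f :=
  (Df.ofPD h).congr fun z => e z.1 z.2

theorem Tm.id : Tm M (fun x : Γ => x) :=
  Tm.ofPD (S := fun x y => y = x) (PD.eq _ _) fun _ _ => ι_inj

theorem Tm.const (c : α) : Tm M (fun _ : Γ => c) :=
  Tm.ofPD (S := fun _ y => y = ι M c) (PD.const _ _) fun _ _ => ι_inj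

theorem Tm.fst' : Tm M (fun z : α × β => z.1) :=
  Tm.ofPD (S := fun x y => ∃ t, x = pr y t) (PD.ex (PD.pr _ _ _)) fun a b => by
    simp [ι_prod, pr_inj, ι_inj, eq_comm]

theorem Tm.snd' : Tm M (fun z : α × β => z.2) :=
  Tm.ofPD (S := fun x y => ∃ t, x = pr t y) (PD.ex (PD.pr _ _ _)) fun a b => by
    simp [ι_prod, pr_inj, ι_inj, eq_comm]

theorem Tm.rel {f : α → β} (hf : Tm M f) (i j : ℕ) :
    PD M (fun w => ∃ a, ι M a = w i ∧ ι M (f a) = w j) := by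
  have : PD M (fun w => ∃ q, q = pr (w i) (w j) ∧ ∃ z : α × β, ι M z = q ∧ z.2 = f z.1) :=
    PD.ex ((PD.pr _ _ _).and (D1.at (S := fun x => ∃ z : α × β, ι M z = x ∧ z.2 = f z.1) hf _))
  refine this.congr fun w => ⟨?_, ?_⟩
  · rintro ⟨_, rfl, ⟨a, b⟩, e, h⟩
    obtain rfl : b = f a := h
    exact ⟨a, pr_inj.1 e⟩
  · rintro ⟨a, e₁, e₂⟩
    exact ⟨_, rfl, (a, f a), by rw [← e₁, ← e₂]; rfl, rfl⟩

theorem Tm.comp {h : α → β} {f : Γ → α} (hh : Tm M h) (hf : Tm M f) :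
    Tm M (fun x => h (f x)) :=
  Tm.ofPD (S := fun x y => ∃ t, (∃ a, ι M a = x ∧ ι M (f a) = t) ∧
      ∃ a, ι M a = t ∧ ι M (h a) = y)
    (PD.ex ((hf.rel _ _).and (hh.rel _ _))) fun a b => by
      simp [ι_inj, eq_comm]

theorem Tm.pair {f : Γ → α} {h : Γ → β} (hf : Tm M f) (hh : Tm M h) :
    Tm M (fun x => (f x, h x)) :=
  Tm.ofPD (S := fun x y => ∃ s t, y = pr s t ∧ (∃ a, ι M a = x ∧ ι M (f a) = s) ∧
      ∃ a, ι M a = x ∧ ι M (h a) = t)
    (PD.ex (PD.ex ((PD.pr _ _ _).and ((hf.rel _ _).and (hh.rel _ _))))) fun a b => by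
      simp [ι_inj, ι_prod, pr_inj, Prod.ext_iff]

theorem Tm.fst {f : Γ → α × β} (hf : Tm M f) : Tm M (fun x => (f x).1) := Tm.fst'.comp hf

theorem Tm.snd {f : Γ → α × β} (hf : Tm M f) : Tm M (fun x => (f x).2) := Tm.snd'.comp hf

theorem Tm.ι' : Tm M (fun x : Γ => ι M x) :=
  Tm.ofPD (S := fun x y => y = x) (PD.eq _ _) fun _ _ => Iff.rfl

theorem Tm.ι {f : Γ → α} (hf : Tm M f) : Tm M (fun x => ι M (f x)) := Tm.ι'.comp hf

/-- A map that does not change codes is definable. -/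
theorem Tm.of_enc {f : α → β} (e : ∀ a, enc (f a) = enc a) : Tm M f :=
  Tm.ofPD (S := fun x y => y = x) (PD.eq _ _) fun a b => by
    rw [← ι_inj (M := M) (a := b)]
    simp only [Subtype.ext_iff, ι_val, e]

theorem Df.comp₂ {Q : α → β → Prop} {f : Γ → α} {h : Γ → β}
    (H : Df M (fun z : α × β => Q z.1 z.2)) (hf : Tm M f) (hh : Tm M h) :
    Df M (fun x => Q (f x) (h x)) := H.comp (hf.pair hh)

theorem Df.eq {f h : Γ → α} (hf : Tm M f) (hh : Tm M h) : Df M (fun x => f x = h x) :=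
  Df.comp₂ (Q := fun a b => a = b)
    ((Df.ofPD (S := fun x y => x = y) (PD.eq _ _)).congr fun _ => ι_inj) hf hh

theorem Df.mem {f h : Γ → M} (hf : Tm M f) (hh : Tm M h) : Df M (fun x => (f x).1 ∈ (h x).1) :=
  Df.comp₂ (Q := fun a b : M => a.1 ∈ b.1)
    (Df.ofPD (α := M) (β := M) (S := fun a b => a.1 ∈ b.1) (PD.mem _ _)) hf hh

theorem Tm.pr {f h : Γ → M} (hf : Tm M f) (hh : Tm M h) : Tm M (fun x => pr (f x) (h x)) :=
  (hf.pair hh).ι

theorem Df.true : Df M (fun _ : Γ => True) := (Df.eq Tm.id Tm.id).congr fun _ => by simp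

theorem Tm.ofRel {f : Γ → α} {Q : Γ → α → Prop} (h : Df M (fun z : Γ × α => Q z.1 z.2))
    (e : ∀ x y, Q x y ↔ y = f x) : Tm M f := h.congr fun z => e z.1 z.2

theorem Tm.ite {c : Γ → Prop} [DecidablePred c] {f h : Γ → α} (hc : Df M c) (hf : Tm M f)
    (hh : Tm M h) : Tm M (fun x => if c x then f x else h x) := by
  refine Tm.ofRel (Q := fun x y => (c x ∧ y = f x) ∨ (¬ c x ∧ y = h x))
    (((hc.comp Tm.fst').and hf).or ((hc.comp Tm.fst').not.and hh)) fun x y => ?_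
  by_cases h : c x <;> simp [h]

theorem Df.toD1 {Q : M → Prop} (h : Df M Q) : D1 M Q :=
  PD.congr h fun _ => by simp

theorem Df.sep {Q : M → Prop} (h : Df M Q) (a : M) :
    ∃ b : M, ∀ x : M, x.1 ∈ b.1 ↔ x.1 ∈ a.1 ∧ Q x := h.toD1.sep a

/-- Replacement for coded types. -/
theorem exists_image [Bd M Γ] (hQ : Df M Q) {f : Γ → M} (hf : Tm M f) :
    ∃ S : M, ∀ y : M, y.1 ∈ S.1 ↔ ∃ x, Q x ∧ f x = y := by
  obtain ⟨A, hA⟩ := Bd.bd (M := M) (α := Γ)
  obtain ⟨B, hB⟩ := D1.sep hQ A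
  have h₁ : Df M (fun z : M => ∃ x : Γ, z = pr (ι M x) (f x)) :=
    Df.ex (Df.eq Tm.fst' (Tm.pr Tm.snd'.ι (hf.comp Tm.snd')))
  obtain ⟨S, hS⟩ := h₁.toD1.repl B fun x hx => by
    obtain ⟨-, a, rfl, -⟩ := (hB x).1 hx
    refine ⟨f a, ⟨a, rfl⟩, ?_⟩
    rintro y ⟨b, e⟩
    obtain ⟨e₁, rfl⟩ := pr_inj.1 e
    rw [ι_inj.1 e₁]
  refine ⟨S, fun y => (hS y).trans ⟨?_, ?_⟩⟩
  · rintro ⟨x, hx, b, e⟩
    obtain ⟨-, a, rfl, ha⟩ := (hB x).1 hx
    obtain ⟨e₁, rfl⟩ := pr_inj.1 e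
    exact ⟨a, ha, by rw [ι_inj.1 e₁]⟩
  · rintro ⟨x, hx, rfl⟩
    exact ⟨ι M x, (hB _).2 ⟨hA x, x, rfl, hx⟩, x, rfl⟩

end Rules

end Pool.Agent.MP_09d684_lc.H42
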