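import Pool.Agent.MP_09d684_lc.H42.Force

/-! Under determinacy, if the reals map onto a well-order then they map onto its power set
(Friedman's game argument). -/

set_option linter.unusedSectionVars false

namespace Pool.Agent.MP_09d684_lc.H42

open Set Function

universe u v w

variable {M : Set ZFSet.{0}} [hM : IsZF M]
variable {K : Type u} [LinearOrder K] [Code K] [Small.{0} K]

/-- The real `x` codes an initial segment of `A`. -/
def GoodI (d : Rl M → K × Rl M × Bool) (S : K → Prop) (R : K × Rl M × K → Prop)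
    (A : In M (Set K)) (x : Rl M) : Prop :=
  S (d x).1 ∧ ∀ γ, γ < (d x).1 → (γ ∈ A ↔ R ((d x).1, (d x).2.1, γ))

/-- The winning condition for II in the coding game. -/
def CW (d : Rl M → K × Rl M × Bool) (S : K → Prop) (R : K × Rl M × K → Prop)
    (A : In M (Set K)) (x y : Rl M) : Prop :=
  GoodI d S R A x → GoodI d S R A y ∧ ((d y).1 ∈ A ↔ (d y).2.2 = true) ∧ (d x).1 ≤ (d y).1

/-- `t` is a winning strategy in the coding game for `A`. -/
def Wn (d : Rl M → K × Rl M × Bool) (S : K → Prop) (R : K × Rl M × K → Prop)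
    (A : In M (Set K)) (t : In M (List ℕ → ℕ) × Bool) : Prop :=
  (t.2 = true ∧ ∀ x y : Rl M, (∀ n, x n = t.1 (pre y n)) → ¬ CW d S R A x y) ∨
    (t.2 = false ∧ ∀ x y : Rl M, (∀ n, y n = t.1 (pre x (n + 1))) → CW d S R A x y)

variable [WellFoundedLT K] [Cd M K] [Bd M K] [TmLT M K] {d : Rl M → K × Rl M × Bool}

theorem tm_CW (hd : Tm M d) {Γ : Type*} [Code Γ] [Cd M Γ] {S : Γ → K → Prop}
    {R : Γ → K × Rl M × K → Prop} {A : Γ → In M (Set K)} {x y : Γ → Rl M}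
    (hS : Tm M (fun z : Γ × K => S z.1 z.2))
    (hR : Tm M (fun z : Γ × K × Rl M × K => R z.1 z.2)) (hA : Tm M A) (hx : Tm M x)
    (hy : Tm M y) : Tm M (fun a => CW d (S a) (R a) (A a) (x a) (y a)) := by
  unfold CW GoodI; fun_prop

theorem tm_Wn (hd : Tm M d) {Γ : Type*} [Code Γ] [Cd M Γ] {S : Γ → K → Prop}
    {R : Γ → K × Rl M × K → Prop} {A : Γ → In M (Set K)} {t : Γ → In M (List ℕ → ℕ) × Bool}
    (hS : Tm M (fun z : Γ × K => S z.1 z.2))
    (hR : Tm M (fun z : Γ × K × Rl M × K => R z.1 z.2)) (hA : Tm M A) (ht : Tm M t) :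
    Tm M (fun a => Wn d (S a) (R a) (A a) (t a)) := by
  unfold Wn CW GoodI; fun_prop

theorem Wn.unique (hd : Surjective d) {S : K → Prop} {R : K × Rl M × K → Prop}
    (hS : ∀ β γ, S β → γ < β → S γ)
    (hR : ∀ β, S β → ∀ A : In M (Set K), ∃ u, ∀ γ, γ < β → (γ ∈ A ↔ R (β, u, γ)))
    {A B : In M (Set K)} {t : In M (List ℕ → ℕ) × Bool} (hA : Wn d S R A t) (hB : Wn d S R B t)
    (β : K) (hβ : S β) : β ∈ A ↔ β ∈ B := by
  classical
  rcases hA with ⟨h₁, hA⟩ | ⟨h₁, hA⟩ <;> rcases hB with ⟨h₂, hB⟩ | ⟨h₂, hB⟩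
  · obtain ⟨u, hu⟩ := hR β hβ A
    obtain ⟨y, hy⟩ := hd (β, u, decide (β ∈ A))
    have k₁ := hA (mkF (fun n => t.1 (pre y n)) (by fun_prop)) y fun _ => rfl
    have k₂ := hB (mkF (fun n => t.1 (pre y n)) (by fun_prop)) y fun _ => rfl
    rw [CW, Classical.not_imp] at k₁ k₂
    have k₃ := lt_of_not_ge fun h => k₁.2 ⟨by rw [GoodI, hy]; exact ⟨hβ, hu⟩, by simp [hy], h⟩
    rw [hy] at k₃
    exact (k₁.1.2 β k₃).trans (k₂.1.2 β k₃).symm
  · simp [h₁] at h₂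
  · simp [h₁] at h₂
  · induction β using (wellFounded_lt (α := K)).induction with | _ β ih
    obtain ⟨u, hu⟩ := hR β hβ A
    obtain ⟨x, hx⟩ := hd (β, u, true)
    obtain ⟨k₁, k₂, k₃⟩ := hA x (mkF (fun n => t.1 (pre x (n + 1))) (by fun_prop)) (fun _ => rfl)
      (by rw [GoodI, hx]; exact ⟨hβ, hu⟩)
    obtain ⟨k₄, k₅, -⟩ := hB x (mkF (fun n => t.1 (pre x (n + 1))) (by fun_prop)) (fun _ => rfl)
      (by rw [GoodI, hx]; exact ⟨hβ, fun γ h => (ih γ h (hS β γ hβ h)).symm.trans (hu γ h)⟩)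
    rw [hx] at k₃
    rcases k₃.eq_or_lt with k₃ | k₃
    · dsimp only at k₃
      rw [← k₃] at k₂ k₅
      exact k₂.trans k₅.symm
    · exact (k₁.2 β k₃).trans (k₄.2 β k₃).symm

variable [hA : Fact (ADR M)]

theorem coding_step (hd : Tm M d) (hd' : Surjective d) {c : Rl M → In M (List ℕ → ℕ) × Bool}
    (hc : Surjective c) {S : K → Prop} {R : K × Rl M × K → Prop} (hS' : Tm M S) (hR' : Tm M R)
    (hS : ∀ β γ, S β → γ < β → S γ)
    (hR : ∀ β, S β → ∀ A : In M (Set K), ∃ u, ∀ γ, γ < β → (γ ∈ A ↔ R (β, u, γ)))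
    (A : In M (Set K)) : ∃ s, ∀ γ, S γ → (γ ∈ A ↔ ∃ B, Wn d S R B (c s) ∧ γ ∈ B) := by
  have : ∃ t, Wn d S R A t := by
    obtain ⟨σ, h⟩ | ⟨σ, h⟩ := det (M := M) (W := CW d S R A)
      (tm_CW hd (by fun_prop) (by fun_prop) (by fun_prop) (by fun_prop) (by fun_prop))
    exacts [⟨(σ, true), Or.inl ⟨rfl, h⟩⟩, ⟨(σ, false), Or.inr ⟨rfl, h⟩⟩]
  obtain ⟨t, ht⟩ := this
  obtain ⟨s, rfl⟩ := hc t
  exact ⟨s, fun γ h => ⟨fun h' => ⟨A, ht, h'⟩,
    fun ⟨B, h₁, h₂⟩ => (ht.unique hd' hS hR h₁ γ h).2 h₂⟩⟩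

theorem RC.power [RC M K] : RC M (In M (Set K)) := by
  obtain ⟨f, hf, hf'⟩ := RC.ex (M := M) (X := K)
  obtain ⟨e, he, he'⟩ := RC.ex (M := M) (X := Rl M × Rl M × Bool)
  have := RI.fn (M := M) (X := List ℕ) (Y := ℕ)
  obtain ⟨c, hc, hc'⟩ := RC.ex (M := M) (X := In M (List ℕ → ℕ) × Bool)
  have hd : Tm M (fun x => (f (e x).1, (e x).2)) := by fun_prop
  have hd' : Surjective (fun x => (f (e x).1, (e x).2)) := (hf'.prodMap surjective_id).comp he'
  generalize (fun x => (f (e x).1, (e x).2)) = d at hd hd'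
  obtain ⟨F, hF, h⟩ := exists_rec (α := K × Rl M × K) (β := Prop)
    (InvImage.wf Prod.fst wellFounded_lt) (by simp only [InvImage]; fun_prop)
    (Φ := fun z R s => s = ∃ B, Wn d (· < z.1) (fun y => R y True) B (c z.2.1) ∧ z.2.2 ∈ B)
    (tm_eq (by fun_prop) (tm_ex (tm_and
      (tm_Wn hd (by fun_prop) (by fun_prop) (by fun_prop) (by fun_prop)) (by fun_prop))))
    fun _ _ => ⟨_, rfl, fun _ h => h⟩
  have h₁ : ∀ β (A : In M (Set K)), ∃ u, ∀ γ, γ < β → (γ ∈ A ↔ F (β, u, γ)) := fun β => by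
    induction β using (wellFounded_lt (α := K)).induction with | _ β ih
    intro A
    refine (coding_step hd hd' hc' (S := (· < β)) (R := fun y => y.1 < β ∧ F y = True)
      (by fun_prop) (by fun_prop) (fun _ _ h₁ h₂ => h₂.trans h₁)
      (fun α hα B => (ih α hα B).imp fun u hu γ hγ => by simp [hu γ hγ, hα]) A).imp
        fun s hs γ hγ => ?_
    rw [h (β, s, γ)]
    exact hs γ hγ
  refine ⟨⟨fun s => mkS (fun γ => ∃ B, Wn d (fun _ => True) F B (c s) ∧ γ ∈ B)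
    (tm_ex (tm_and (tm_Wn hd (by fun_prop) (by fun_prop) (by fun_prop) (by fun_prop))
      (by fun_prop))),
    tm_mkS (tm_ex (tm_and (tm_Wn hd (by fun_prop) (by fun_prop) (by fun_prop) (by fun_prop))
      (by fun_prop))), fun A => ?_⟩⟩
  exact (coding_step hd hd' hc' (S := fun _ => True) (by fun_prop) hF (fun _ _ _ _ => trivial)
    (fun β _ => h₁ β) A).imp fun s hs => In.ext_set fun γ => (hs γ trivial).symm

end Pool.Agent.MP_09d684_lc.H42
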