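import Mathlib

namespace Pool.Agent.MP_09d684_lc.H42

open FirstOrder Set

universe u v

/-- Standard set-theoretic codes of mathematical objects. -/
class Code (α : Type u) where
  enc : α → ZFSet.{0}

export Code (enc)

/-- A set codes itself. -/
instance : Code ZFSet.{0} := ⟨id⟩

/-- Ordinals are coded by von Neumann ordinals. -/
noncomputable instance : Code Ordinal.{0} := ⟨Ordinal.toZFSet⟩

/-- Natural numbers are coded by finite von Neumann ordinals. -/
noncomputable instance : Code ℕ := ⟨fun n => Ordinal.toZFSet n⟩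

/-- Elements of a subtype keep their code. -/
instance {α : Type u} [Code α] {p : α → Prop} : Code (Subtype p) := ⟨fun x => enc x.1⟩

/-- Pairs are coded by Kuratowski pairs. -/
instance {α : Type u} {β : Type v} [Code α] [Code β] : Code (α × β) :=
  ⟨fun z => ZFSet.pair (enc z.1) (enc z.2)⟩

/-- A subset is coded by the set of codes of its elements. -/
noncomputable instance {α : Type u} [Code α] [Small.{0} α] : Code (Set α) :=
  ⟨fun S => ZFSet.range fun x : S => enc x.1⟩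

/-- A function is coded by its graph. -/
noncomputable instance {α : Type u} {β : Type v} [Code α] [Code β] [Small.{0} α] :
    Code (α → β) :=
  ⟨fun f => ZFSet.range fun a => ZFSet.pair (enc a) (enc (f a))⟩

/-- A finite sequence is coded by its graph, a function with domain its length. -/
noncomputable instance {α : Type u} [Code α] : Code (List α) :=
  ⟨fun l => ZFSet.range fun i : Fin l.length => ZFSet.pair (enc (i : ℕ)) (enc (l.get i))⟩

/-- The objects of type `α` whose code belongs to the class `N`. -/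
structure In (N : Set ZFSet.{0}) (α : Type u) [Code α] where
  val : α
  mem : enc val ∈ N

instance {N : Set ZFSet.{0}} {α : Type u} [Code α] : Code (In N α) := ⟨fun x => enc x.val⟩

instance {N : Set ZFSet.{0}} {α : Type u} [Code α] [Small.{0} α] : Small.{0} (In N α) :=
  small_of_injective (f := In.val) fun ⟨_, _⟩ ⟨_, _⟩ h => by cases h; rfl

/-- The class `M` as a structure for the language with one binary relation, read as `∈`. -/
@[reducible] def memStr (M : Set ZFSet.{0}) : Language.graph.Structure M where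
  funMap := fun f => Empty.elim f
  RelMap := fun r x => match r with | .adj => (x 0).1 ∈ (x 1).1

/-- `M` is a transitive model of ZF. Extensionality and foundation hold in every transitive
class; separation and replacement are stated for all relations that are first-order definable
over `(M, ∈)` with parameters. -/
class IsZF (M : Set ZFSet.{0}) : Prop where
  trans : ∀ a ∈ M, ∀ x ∈ a, x ∈ M
  pair : ∀ a ∈ M, ∀ b ∈ M, ∃ c ∈ M, ∀ x ∈ M, x ∈ c ↔ x = a ∨ x = b
  union : ∀ a ∈ M, ∃ c ∈ M, ∀ x ∈ M, x ∈ c ↔ ∃ y ∈ M, x ∈ y ∧ y ∈ a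
  power : ∀ a ∈ M, ∃ c ∈ M, ∀ x ∈ M, x ∈ c ↔ ∀ y ∈ M, y ∈ x → y ∈ a
  inf : ∃ w ∈ M, ∅ ∈ w ∧ ∀ x ∈ w, insert x x ∈ w
  sep : ∀ S : Set M, @Set.Definable₁ M Set.univ Language.graph (memStr M) S →
    ∀ a : M, ∃ b : M, ∀ x : M, x.1 ∈ b.1 ↔ x.1 ∈ a.1 ∧ x ∈ S
  repl : ∀ R : Set (M × M), @Set.Definable₂ M Set.univ Language.graph (memStr M) R →
    ∀ a : M, (∀ x : M, x.1 ∈ a.1 → ∃! y, (x, y) ∈ R) →
      ∃ b : M, ∀ y : M, y.1 ∈ b.1 ↔ ∃ x : M, x.1 ∈ a.1 ∧ (x, y) ∈ R

/-- The first `n` terms of a sequence. -/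
def pre {α : Type u} (x : ℕ → α) (n : ℕ) : List α := (List.range n).map x

/-- `M` satisfies `AD_ℝ`: every game of length `ω` in `M` whose moves are reals of `M`
(elements of Baire space) is determined in `M`. Player I makes the even moves and wins
the play `x` iff `x ∈ A`. -/
def ADR (M : Set ZFSet.{0}) : Prop :=
  ∀ A : In M (Set (ℕ → In M (ℕ → ℕ))), ∃ σ : In M (List (In M (ℕ → ℕ)) → In M (ℕ → ℕ)),
    (∀ x : In M (ℕ → In M (ℕ → ℕ)),
      (∀ n, x.val (2 * n) = σ.val (pre x.val (2 * n))) → x.val ∈ A.val) ∨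
    (∀ x : In M (ℕ → In M (ℕ → ℕ)),
      (∀ n, x.val (2 * n + 1) = σ.val (pre x.val (2 * n + 1))) → x.val ∉ A.val)

/-- `κ < Θ` in `M`: some function in `M` maps the reals of `M` onto `κ`. -/
def BelowTheta (M : Set ZFSet.{0}) (κ : Ordinal.{0}) : Prop :=
  ∃ f : In M (In M (ℕ → ℕ) → Iio κ), Function.Surjective f.val

/-- `[κ]^κ` computed in `N`: the subsets of `κ` in `N` of order type `κ`. -/
def Big (N : Set ZFSet.{0}) (κ : Ordinal.{0}) : Type 1 :=
  {X : In N (Set (Iio κ)) // Nonempty (Iio κ ≃o X.val)}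

noncomputable instance {N : Set ZFSet.{0}} {κ : Ordinal.{0}} : Code (Big N κ) :=
  ⟨fun X => enc X.1⟩

instance {N : Set ZFSet.{0}} {κ : Ordinal.{0}} : Small.{0} (Big N κ) :=
  small_subtype _ _

/-- `κ → (κ)^κ_μ` holds in `N`. -/
def Arrow (N : Set ZFSet.{0}) (κ μ : Ordinal.{0}) : Prop :=
  ∀ c : In N (Big N κ → Iio μ), ∃ K : Big N κ, ∃ i, ∀ X : Big N κ,
    X.1.val ⊆ K.1.val → c.val X = i

/-- `κ` is a strong partition cardinal in `N`: an uncountable cardinal of `N` (an ordinal of `N`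
above `ω` with no injection in `N` into a smaller ordinal) with `κ → (κ)^κ_μ` in `N` for
all `2 ≤ μ < κ`. -/
def StrongPartition (N : Set ZFSet.{0}) (κ : Ordinal.{0}) : Prop :=
  enc κ ∈ N ∧ Ordinal.omega0 < κ ∧
    (∀ α < κ, ∀ f : In N (Iio κ → Iio α), ¬ Function.Injective f.val) ∧
    ∀ μ, 2 ≤ μ → μ < κ → Arrow N κ μ

/-- The ideal `Fin ⊗ Fin`: all but finitely many fibers are finite. -/
def Fin2 (A : Set (ℕ × ℕ)) : Prop := {n | {j | (n, j) ∈ A}.Infinite}.Finite

/-- The class in `M` of `A` modulo `Fin ⊗ Fin`, as a set. -/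
noncomputable def cls (M : Set ZFSet.{0}) (A : In M (Set (ℕ × ℕ))) : ZFSet.{0} :=
  enc {B : In M (Set (ℕ × ℕ)) | Fin2 (A.val \ B.val) ∧ Fin2 (B.val \ A.val)}

/-- The conditions: the nonzero elements of `P(ω × ω) / Fin ⊗ Fin` computed in `M`. -/
def Cond (M : Set ZFSet.{0}) : Set ZFSet.{0} := {p | ∃ A, ¬ Fin2 A.val ∧ p = cls M A}

/-- The order of the forcing: `[A] ≤ [B]` iff `A \ B ∈ Fin ⊗ Fin`. -/
def CLe (M : Set ZFSet.{0}) (p q : ZFSet.{0}) : Prop :=
  ∃ A B, p = cls M A ∧ q = cls M B ∧ Fin2 (A.val \ B.val)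

/-- `G` is a filter on the conditions that meets every dense set belonging to `M`. -/
structure IsGeneric (M G : Set ZFSet.{0}) : Prop where
  sub : G ⊆ Cond M
  ne : G.Nonempty
  up : ∀ p ∈ G, ∀ q ∈ Cond M, CLe M p q → q ∈ G
  dir : ∀ p ∈ G, ∀ q ∈ G, ∃ r ∈ G, CLe M r p ∧ CLe M r q
  meets : ∀ D ∈ M, (∀ p ∈ Cond M, ∃ q ∈ Cond M, q ∈ D ∧ CLe M q p) → ∃ q ∈ G, q ∈ D

theorem rank_lt_of_pair_mem {σ p τ : ZFSet.{0}} (h : ZFSet.pair σ p ∈ τ) : σ.rank < τ.rank :=
  ((ZFSet.rank_lt_of_mem (ZFSet.mem_singleton.2 rfl)).trans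
    (ZFSet.rank_lt_of_mem (ZFSet.mem_insert _ _))).trans (ZFSet.rank_lt_of_mem h)

instance (G : Set ZFSet.{0}) (τ : ZFSet.{0}) :
    Small.{0} {σ : ZFSet.{0} // ∃ p ∈ G, ZFSet.pair σ p ∈ τ} :=
  small_of_injective (β := ZFSet.sUnion (ZFSet.sUnion τ))
    (f := fun σ => ⟨σ.1, by
      obtain ⟨p, -, h⟩ := σ.2
      exact ZFSet.mem_sUnion_of_mem (ZFSet.mem_singleton.2 rfl)
        (ZFSet.mem_sUnion_of_mem (ZFSet.mem_insert _ _) h)⟩)
    fun _ _ h => Subtype.ext (Subtype.mk.inj h)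

/-- The value of a name: `val G τ = {val G σ : ∃ p ∈ G, (σ, p) ∈ τ}`. -/
noncomputable def val (G : Set ZFSet.{0}) : ZFSet.{0} → ZFSet.{0} :=
  (InvImage.wf ZFSet.rank Ordinal.lt_wf).fix fun τ ih =>
    ZFSet.range fun σ : {σ : ZFSet.{0} // ∃ p ∈ G, ZFSet.pair σ p ∈ τ} =>
      ih σ.1 (σ.2.elim fun _ h => rank_lt_of_pair_mem h.2)

/-- The generic extension `M[G]`. -/
def Ext (M G : Set ZFSet.{0}) : Set ZFSet.{0} := val G '' M

end Pool.Agent.MP_09d684_lc.H42
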