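import Pool.Agent.MP_09d684_lc.H42.Sets

/-! Real-coded types, uniformization, dependent choice and determinacy of games with
real-coded moves inside a model of `AD_ℝ`. -/

set_option linter.unusedSectionVars false

namespace Pool.Agent.MP_09d684_lc.H42

open Set Function

universe u v w

variable {M : Set ZFSet.{0}} [hM : IsZF M]

/-- The reals of the model. -/
abbrev Rl (M : Set ZFSet.{0}) := In M (ℕ → ℕ)

/-- Types that are countable in the model. -/
class Ct (M : Set ZFSet.{0}) [IsZF M] (X : Type u) [Code X] [Cd M X] : Prop where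
  ex : ∃ e : ℕ → X, Tm M e ∧ Surjective e

/-- Types that inject into the reals in the model. -/
class RI (M : Set ZFSet.{0}) [IsZF M] (X : Type u) [Code X] [Cd M X] : Prop where
  ex : ∃ g : X → Rl M, Tm M g ∧ Injective g

/-- Types that are images of the reals in the model. -/
class RC (M : Set ZFSet.{0}) [IsZF M] (X : Type u) [Code X] [Cd M X] : Prop where
  ex : ∃ f : Rl M → X, Tm M f ∧ Surjective f

section Classes

variable {X : Type u} {Y : Type v} [Code X] [Code Y] [Cd M X] [Cd M Y]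

instance : Ct M ℕ := ⟨⟨fun n => n, by fun_prop, surjective_id⟩⟩

instance : Ct M Bool := ⟨⟨fun n => decide (n = 0), by fun_prop, fun b => by
  cases b
  exacts [⟨1, rfl⟩, ⟨0, rfl⟩]⟩⟩

instance [Ct M X] [Ct M Y] : Ct M (X × Y) := by
  obtain ⟨e, he, h⟩ := Ct.ex (M := M) (X := X)
  obtain ⟨e', he', h'⟩ := Ct.ex (M := M) (X := Y)
  refine ⟨⟨fun n => (e n.unpair.1, e' n.unpair.2), by fun_prop, fun ⟨a, b⟩ => ?_⟩⟩
  obtain ⟨i, rfl⟩ := h a
  obtain ⟨j, rfl⟩ := h' b
  exact ⟨Nat.pair i j, by simp⟩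

instance [Ct M X] : Ct M (List X) := by
  obtain ⟨e, he, h⟩ := Ct.ex (M := M) (X := X)
  let d : ℕ → ℕ → X := fun m i => e ((fun k => k.unpair.2)^[i] m).unpair.1
  refine ⟨⟨fun n => pre (d n.unpair.2) n.unpair.1, by simp only [d]; fun_prop, fun l => ?_⟩⟩
  suffices ∃ m, pre (d m) l.length = l by
    obtain ⟨m, hm⟩ := this
    exact ⟨Nat.pair l.length m, by simpa using hm⟩
  induction l with
  | nil => exact ⟨0, rfl⟩
  | cons a l ih =>
    obtain ⟨m, hm⟩ := ih
    obtain ⟨i, rfl⟩ := h a
    refine ⟨Nat.pair i m, ?_⟩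
    rw [← hm]
    simp [pre, List.range_succ_eq_map, d, Function.comp_def]

theorem RI.of_inj [RI M Y] {f : X → Y} (hf : Tm M f) (h : Injective f) : RI M X := by
  obtain ⟨g, hg, h'⟩ := RI.ex (M := M) (X := Y)
  exact ⟨⟨fun x => g (f x), by fun_prop, h'.comp h⟩⟩

instance : RI M (Rl M) := ⟨⟨fun x => x, by fun_prop, injective_id⟩⟩

instance : RI M ℕ := RI.of_inj (f := fun n => (mkF (fun _ => n) (by fun_prop) : Rl M))
  (by fun_prop) fun _ _ h => congrArg (fun x : Rl M => x 0) h

instance [RI M X] : RI M (In M (ℕ → X)) := by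
  obtain ⟨g, hg, h⟩ := RI.ex (M := M) (X := X)
  refine ⟨⟨fun x => mkF (fun k => g (x k.unpair.1) k.unpair.2) (by fun_prop), by fun_prop,
    fun x y e => In.ext_fun fun n => h (In.ext_fun fun k => ?_)⟩⟩
  simpa using congrArg (fun x : Rl M => x (Nat.pair n k)) e

instance [RI M X] [RI M Y] : RI M (X × Y) := by
  obtain ⟨g, hg, h⟩ := RI.ex (M := M) (X := X)
  obtain ⟨g', hg', h'⟩ := RI.ex (M := M) (X := Y)
  refine RI.of_inj (Y := In M (ℕ → Rl M))
    (f := fun z => mkF (fun k => if k = 0 then g z.1 else g' z.2) (by fun_prop)) (by fun_prop)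
    fun x y e => Prod.ext (h ?_) (h' ?_)
  · simpa using congrArg (fun x : In M (ℕ → Rl M) => x 0) e
  · simpa using congrArg (fun x : In M (ℕ → Rl M) => x 1) e

instance : RI M Bool := RI.of_inj (f := fun b => if b = true then 1 else 0) (by fun_prop)
  fun a b => by cases a <;> cases b <;> simp

instance [RI M X] : RI M (List X) := by
  obtain ⟨g, hg, h⟩ := RI.ex (M := M) (X := X)
  let d : Rl M := Classical.arbitrary _
  refine RI.of_inj (Y := ℕ × In M (ℕ → Rl M))
    (f := fun l => (l.length, mkF (fun k => (l.map g).getD k d) (by fun_prop))) (by fun_prop)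
    fun x y e => List.map_injective_iff.2 h ?_
  obtain ⟨e₁, e₂⟩ := Prod.ext_iff.1 e
  rw [← pre_getD (x.map g) d, ← pre_getD (y.map g) d, List.length_map, List.length_map,
    show x.length = y.length from e₁]
  exact pre_congr fun k _ => congrArg (fun x : In M (ℕ → Rl M) => x k) e₂

instance [Small.{0} X] [Ct M X] : RI M (In M (Set X)) := by
  classical
  obtain ⟨e, he, h⟩ := Ct.ex (M := M) (X := X)
  refine ⟨⟨fun S => mkF (fun k => if e k ∈ S then 1 else 0) (by fun_prop), by fun_prop,
    fun S T e' => In.ext_set fun a => ?_⟩⟩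
  obtain ⟨k, rfl⟩ := h a
  have := congrArg (fun x : Rl M => x k) e'
  by_cases h₁ : e k ∈ S <;> by_cases h₂ : e k ∈ T <;> simp [h₁, h₂] at this ⊢

theorem RI.fn [Small.{0} X] [Ct M X] [RI M Y] : RI M (In M (X → Y)) := by
  obtain ⟨e, he, h⟩ := Ct.ex (M := M) (X := X)
  refine RI.of_inj (Y := In M (ℕ → Y)) (f := fun F => mkF (fun k => F (e k)) (by fun_prop))
    (by fun_prop) fun F F' e' => In.ext_fun fun a => ?_
  obtain ⟨k, rfl⟩ := h a
  exact congrArg (fun x : In M (ℕ → Y) => x k) e'

theorem exists_retract (M : Set ZFSet.{0}) [IsZF M] (X : Type u) [Code X] [Cd M X] [RI M X]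
    [Nonempty X] : ∃ (g : X → Rl M) (f : Rl M → X), Tm M g ∧ Tm M f ∧ ∀ x, f (g x) = x := by
  obtain ⟨g, hg, h⟩ := RI.ex (M := M) (X := X)
  refine ⟨g, invFun g, hg, ?_, leftInverse_invFun h⟩
  refine tm_of_rel (Q := fun r a => g a = r ∨ (¬ (∃ b, g b = r) ∧
    a = Classical.choice inferInstance)) (by fun_prop) fun r a => ?_
  by_cases hr : ∃ b, g b = r
  · obtain ⟨b, rfl⟩ := hr
    simp [h.eq_iff, leftInverse_invFun h b]
  · have h' : ¬ g a = r := fun e => hr ⟨a, e⟩
    simp only [h', hr, false_or, not_false_iff, true_and, invFun_neg hr]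

instance [RI M X] [Nonempty X] : RC M X := by
  obtain ⟨g, f, -, hf, h⟩ := exists_retract M X
  exact ⟨⟨f, hf, fun x => ⟨g x, h x⟩⟩⟩

end Classes

section Plays

variable {X : Type u}

/-- The first `n` moves of the run in which every move is given by `s`. -/
def hist (s : List X → X) (n : ℕ) : List X := (fun l => l ++ [s l])^[n] []

theorem hist_succ (s : List X → X) (n : ℕ) : hist s (n + 1) = hist s n ++ [s (hist s n)] :=
  iterate_succ_apply' _ _ _

theorem pre_hist (s : List X → X) (n : ℕ) : pre (fun k => s (hist s k)) n = hist s n := by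
  induction n with
  | zero => rfl
  | succ n ih => rw [pre_succ, ih, hist_succ]

theorem length_hist (s : List X → X) (n : ℕ) : (hist s n).length = n := by
  rw [← pre_hist, length_pre]

theorem hist_congr {s s' : List X → X} {n : ℕ} (h : ∀ l, l.length < n → s l = s' l) :
    hist s n = hist s' n := by
  induction n with
  | zero => rfl
  | succ n ih =>
    rw [hist_succ, hist_succ, ← ih fun l hl => h l (by omega), h _ (by simp [length_hist])]

/-- Moves of the given parity follow `s`, the others are read from `c`. -/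
def comb (i : ℕ) (s : List X → X) (c : ℕ → X) (l : List X) : X :=
  if l.length % 2 = i then s l else c (l.length / 2)

variable {Γ : Type*} [Code Γ] [Cd M Γ] [Code X] [Cd M X]

@[fun_prop] theorem tm_hist {s : Γ → List X → X} {n : Γ → ℕ}
    (hs : Tm M (fun z : Γ × List X => s z.1 z.2)) (hn : Tm M n) :
    Tm M (fun x => hist (s x) (n x)) := by
  unfold hist
  fun_prop

@[fun_prop] theorem tm_comb {i : ℕ} {s : Γ → List X → X} {c : Γ → ℕ → X} {l : Γ → List X}
    (hs : Tm M (fun z : Γ × List X => s z.1 z.2)) (hc : Tm M (fun z : Γ × ℕ => c z.1 z.2))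
    (hl : Tm M l) : Tm M (fun x => comb i (s x) (c x) (l x)) := by
  unfold comb
  fun_prop

end Plays

theorem enc_val_image {α : Type u} [Code α] [Small.{0} α] (S : Set (In M α)) :
    enc (In.val '' S) = enc S := ZFSet.ext fun x => by
  simp only [mem_enc_set, exists_mem_image, enc_In]

variable [hA : Fact (ADR M)]

theorem det_real {W : In M (ℕ → Rl M) → Prop} (hW : Tm M W) : ∃ s : In M (List (Rl M) → Rl M),
    (∀ c : ℕ → Rl M, ∀ h : Tm M (fun k => comb 0 s c (hist (comb 0 s c) k)), W (mkF _ h)) ∨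
    (∀ c : ℕ → Rl M, ∀ h : Tm M (fun k => comb 1 s c (hist (comb 1 s c) k)), ¬ W (mkF _ h)) := by
  obtain ⟨s, hs⟩ := hA.out ⟨In.val '' {x | W x}, by rw [enc_val_image]; exact enc_set_mem hW⟩
  refine ⟨s, hs.imp (fun hs c h => ?_) fun hs c h hw => hs (mkF _ h) (fun n => ?_) ⟨_, hw, rfl⟩⟩
  · obtain ⟨x, hx, e⟩ := hs (mkF _ h) fun n => by
      show comb 0 s c _ = s (pre (fun k => comb 0 s c (hist (comb 0 s c) k)) _)
      rw [pre_hist, comb, if_pos (by simp [length_hist])]
    exact In.ext e ▸ hx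
  · show comb 1 s c _ = s (pre (fun k => comb 1 s c (hist (comb 1 s c) k)) _)
    rw [pre_hist, comb, if_pos (by simp [length_hist])]

variable {X : Type u} {Y : Type v} [Code X] [Code Y] [Cd M X] [Cd M Y]

/-- Determinacy of games whose moves are coded by reals. -/
theorem det [Small.{0} X] [Small.{0} Y] [Bd M X] [Bd M Y] [RI M X] [RI M Y] [Nonempty X]
    [Nonempty Y] {W : In M (ℕ → X) → In M (ℕ → Y) → Prop}
    (hW : Tm M (fun z : In M (ℕ → X) × In M (ℕ → Y) => W z.1 z.2)) :
    (∃ σ : In M (List Y → X), ∀ (a : In M (ℕ → X)) (b : In M (ℕ → Y)),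
      (∀ n, a n = σ (pre b n)) → ¬ W a b) ∨
    (∃ τ : In M (List X → Y), ∀ (a : In M (ℕ → X)) (b : In M (ℕ → Y)),
      (∀ n, b n = τ (pre a (n + 1))) → W a b) := by
  obtain ⟨g, f, hg, hf, e⟩ := exists_retract M X
  obtain ⟨g', f', hg', hf', e'⟩ := exists_retract M Y
  obtain ⟨s, hs | hs⟩ := det_real (M := M) (W := fun x =>
    ¬ W (mkF (fun n => f (x (2 * n))) (by fun_prop))
      (mkF (fun n => f' (x (2 * n + 1))) (by fun_prop))) (by fun_prop)
  · let d : Y := Classical.arbitrary Y
    refine Or.inl ⟨mkF (fun l => f (s (hist (comb 0 s fun k => g' (l.getD k d)) (2 * l.length))))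
      (by fun_prop), fun a b hab => ?_⟩
    convert hs (fun k => g' (b k)) (by fun_prop) using 2
    · refine In.ext_fun fun n => ?_
      simp only [hab, mkF_ap, length_pre]
      rw [comb, if_pos (by simp [length_hist])]
      congr 2
      refine hist_congr fun l hl => ?_
      simp only [comb, getD_pre (show l.length / 2 < n by omega)]
    · refine In.ext_fun fun n => ?_
      simp only [mkF_ap]
      rw [comb, if_neg (by simp [length_hist]), e', length_hist]
      congr 1
      omega
  · let d : X := Classical.arbitrary X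
    refine Or.inr ⟨mkF (fun l => f' (s (hist (comb 1 s fun k => g (l.getD k d))
      (2 * l.length - 1)))) (by fun_prop), fun a b hab => ?_⟩
    convert not_not.1 (hs (fun k => g (a k)) (by fun_prop)) using 1
    · refine In.ext_fun fun n => ?_
      simp only [mkF_ap]
      rw [comb, if_neg (by simp [length_hist]), e, length_hist]
      congr 1
      omega
    · refine In.ext_fun fun n => ?_
      simp only [hab, mkF_ap, length_pre]
      rw [comb, if_pos (by simp [length_hist]), show 2 * (n + 1) - 1 = 2 * n + 1 by omega]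
      congr 2
      refine hist_congr fun l hl => ?_
      simp only [comb, getD_pre (show l.length / 2 < n + 1 by omega)]

/-- Uniformization. -/
theorem unif [RI M X] [RC M Y] {Q : X → Y → Prop} (hQ : Tm M (fun z : X × Y => Q z.1 z.2))
    (tot : ∀ x, ∃ y, Q x y) : ∃ F : X → Y, Tm M F ∧ ∀ x, Q x (F x) := by
  obtain ⟨g, hg, h⟩ := RI.ex (M := M) (X := X)
  obtain ⟨f, hf, h'⟩ := RC.ex (M := M) (X := Y)
  obtain ⟨σ, hσ⟩ | ⟨τ, hτ⟩ := det (M := M) (X := Rl M) (Y := Rl M)
    (W := fun a b => ∀ x, g x = a 0 → Q x (f (b 0))) (by fun_prop)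
  · exfalso
    have : ∃ r, ∀ x, g x = σ [] → Q x (f r) := by
      by_cases hx : ∃ x, g x = σ []
      · obtain ⟨x, hx⟩ := hx
        obtain ⟨y, hy⟩ := tot x
        obtain ⟨r, rfl⟩ := h' y
        exact ⟨r, fun x' hx' => h (hx.trans hx'.symm) ▸ hy⟩
      · exact ⟨σ [], fun x hx' => absurd ⟨x, hx'⟩ hx⟩
    obtain ⟨r, hr⟩ := this
    exact hσ (mkF (fun n => σ (pre (fun _ => r) n)) (by fun_prop))
      (mkF (M := M) (fun _ => r) (by fun_prop)) (fun _ => rfl) hr
  · exact ⟨fun x => f (τ [g x]), by fun_prop, fun x =>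
      hτ (mkF (fun _ => g x) (by fun_prop))
        (mkF (fun n => τ (pre (fun _ => g x) (n + 1))) (by fun_prop)) (fun _ => rfl) x rfl⟩

/-- Dependent choice for real-coded types. -/
theorem dc [RI M X] {I : X → Prop} {R : X → X → Prop} (hI : Tm M I)
    (hR : Tm M (fun z : X × X => R z.1 z.2)) (step : ∀ x, I x → ∃ y, I y ∧ R x y) {x₀ : X}
    (h₀ : I x₀) : ∃ s : ℕ → X, Tm M s ∧ s 0 = x₀ ∧ ∀ n, I (s n) ∧ R (s n) (s (n + 1)) := by
  have : Nonempty X := ⟨x₀⟩
  obtain ⟨F, hF, h⟩ := unif (M := M) (Q := fun x y => I x → I y ∧ R x y) (by fun_prop) fun x => by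
    by_cases hx : I x
    · exact (step x hx).imp fun _ h _ => h
    · exact ⟨x, fun h => absurd h hx⟩
  have hI' : ∀ n, I (F^[n] x₀) := fun n => by
    induction n with
    | zero => exact h₀
    | succ n ih => rw [iterate_succ_apply']; exact (h _ ih).1
  exact ⟨fun n => F^[n] x₀, by fun_prop, rfl, fun n =>
    ⟨hI' n, by simp only [iterate_succ_apply']; exact (h _ (hI' n)).2⟩⟩

end Pool.Agent.MP_09d684_lc.H42
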