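import Pool.Agent.MP_09d684_lc.H42.Kas

/-! Distributivity for the order of inclusion modulo finitely many columns, and boundedness
on cones. -/

set_option linter.unusedSectionVars false

namespace Pool.Agent.MP_09d684_lc.H42

open Set Function

universe u v w

variable {M : Set ZFSet.{0}} [hM : IsZF M]

theorem chain_limit {α : Type u} {c : ℕ → List α} (d : α) (h₁ : ∀ k, c k <+: c (k + 1))
    (h₂ : ∀ k, k < (c k).length) (k : ℕ) :
    c k = pre (fun t => (c t).getD t d) (c k).length := by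
  have h₃ : ∀ {j k}, j ≤ k → c j <+: c k := fun {j k} h => by
    induction h with
    | refl => exact List.prefix_rfl
    | step _ ih => exact ih.trans (h₁ _)
  have h₄ : ∀ {j k t}, j ≤ k → t < (c j).length → (c j).getD t d = (c k).getD t d :=
    fun {j k t} h ht => by
      obtain ⟨r, hr⟩ := h₃ h
      simp [← hr, List.getD_eq_getElem?_getD, List.getElem?_append_left ht]
  conv_lhs => rw [← pre_getD (c k) d]
  exact pre_congr fun t ht => (h₄ (le_max_left k t) ht).trans (h₄ (le_max_right k t) (h₂ t)).symm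

/-- The picks of `y` selected by `z`. -/
noncomputable def sel (y : In M (ℕ → Pick)) (z : In M (ℕ → Bool)) : Rs M :=
  mkS (fun e => ∃ t, y t = e ∧ z t = true) (by fun_prop)

@[fun_prop] theorem tm_sel {Γ : Type*} [Code Γ] [Cd M Γ] {y : Γ → In M (ℕ → Pick)}
    {z : Γ → In M (ℕ → Bool)} (hy : Tm M y) (hz : Tm M z) : Tm M (fun x => sel (y x) (z x)) := by
  unfold sel; fun_prop

/-- The set of picks of a point of the model. -/
noncomputable def pts (y : In M (ℕ → Pick)) : Rs M := rg y (by fun_prop)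

@[fun_prop] theorem tm_pts {Γ : Type*} [Code Γ] [Cd M Γ] {y : Γ → In M (ℕ → Pick)}
    (hy : Tm M y) : Tm M (fun x => pts (y x)) := by
  unfold pts; fun_prop

theorem IsPt.pts_subset {H : Rs M} {y : In M (ℕ → Pick)} (h : IsPt [] H y) : pts y ⊆ H :=
  h.rg_subset _

theorem IsPt.pos_pts {H : Rs M} {y : In M (ℕ → Pick)} (h : IsPt [] H y) : Pos (pts y) :=
  (h.rg _).comp.1

/-- Picks revealed to be selected by `f` along the stem `s`. -/
def Rev (f : In M (List Pick → Bool)) (s : List Pick) (e : Pick) : Prop :=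
  ∃ s', s' ++ [e] <+: s ∧ f (s' ++ [e]) = true

@[fun_prop] theorem tm_Rev {Γ : Type*} [Code Γ] [Cd M Γ] {f : In M (List Pick → Bool)}
    {s : Γ → List Pick} {e : Γ → Pick} (hs : Tm M s) (he : Tm M e) :
    Tm M (fun x => Rev f (s x) (e x)) := by
  unfold Rev; fun_prop

/-- The set selected by `f` along the point `y`. -/
noncomputable def selF (f : In M (List Pick → Bool)) (y : In M (ℕ → Pick)) : Rs M :=
  sel y (mkF (fun t => f (pre y (t + 1))) (by fun_prop))

section Rev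

variable {f : In M (List Pick → Bool)} {y : In M (ℕ → Pick)} {s s' : List Pick} {e : Pick}

theorem Rev.mono (h : Rev f s e) (hs : s <+: s') : Rev f s' e :=
  h.imp fun _ h => ⟨h.1.trans hs, h.2⟩

theorem Rev.mem {n : ℕ} (h : Rev f (pre y n) e) : e ∈ selF f y := by
  obtain ⟨u, h₁, h₂⟩ := h
  have := eq_pre_of_isPrefix h₁
  rw [List.length_append, List.length_singleton] at this
  refine ⟨u.length, ?_, by rw [mkF_ap, ← this, h₂]⟩
  rw [pre_succ] at this
  exact (List.singleton_injective (List.append_inj' this rfl).2).symm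

theorem exists_rev (h : e ∈ selF f y) : ∃ n, Rev f (pre y n) e := by
  obtain ⟨t, rfl, h⟩ := h
  exact ⟨t + 1, pre y t, by rw [pre_succ], by rw [← pre_succ]; exact h⟩

theorem exists_rev_all (s : List Pick) :
    ∃ n, ∀ k, n ≤ k → ∀ e ∈ s, e ∈ selF f y → Rev f (pre y k) e := by
  induction s with
  | nil => exact ⟨0, by simp⟩
  | cons a s ih =>
    obtain ⟨n, hn⟩ := ih
    by_cases ha : a ∈ selF f y
    · obtain ⟨m, hm⟩ := exists_rev ha
      refine ⟨max n m, fun k hk e he => ?_⟩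
      rcases List.mem_cons.1 he with rfl | he
      · exact fun _ => hm.mono (pre_isPrefix _ (by omega))
      · exact hn k (by omega) e he
    · refine ⟨n, fun k hk e he => ?_⟩
      rcases List.mem_cons.1 he with rfl | he
      · exact fun h => absurd h ha
      · exact hn k hk e he

end Rev

variable [hA : Fact (ADR M)]

theorem exists_ext {H B : Rs M} (hH : Nice H) (hB : B ⊆ H) (hp : Pos B) (hn : Nice B)
    {s : List Pick} (hs : Ch [] (· ∈ H) s) {m : ℕ} (h : ∀ e ∈ s, m ≤ e.1 → e ∈ B) :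
    ∃ z : In M (ℕ → Pick), IsPt [] H z ∧ pre z s.length = s ∧ ∀ t, m ≤ (z t).1 → z t ∈ B := by
  let D : Rs M := mkS (fun e => e ∈ H ∧ (m ≤ e.1 → e ∈ B)) (by fun_prop)
  have hD : B ⊆ D := fun e he => ⟨hB he, fun _ => he⟩
  have hc : Comp s D := ⟨hp.mono hD, fun e he => by
    by_cases hm : m ≤ e.1
    · exact (hn e (h e he hm)).mono hD
    · exact fun k => (hH e (hs.of_mem he) k).imp fun j hj => ⟨hj.1, hj.2, fun h => absurd h hm⟩⟩
  obtain ⟨x, hx, hpt⟩ := hc.exists_pt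
  have h₁ : ∀ n, Ch [] (· ∈ D) (s ++ pre x n) := fun n => by
    induction n with
    | zero => simpa using hs.self.mono fun e he => ⟨hs.of_mem he, h e he⟩
    | succ n ih => rw [pre_succ, ← List.append_assoc]; exact ch_concat.2 ⟨ih, hpt n⟩
  have h₂ := chain_limit (c := fun k => s ++ pre x (k + 1)) (0, 0)
    (fun k => by rw [pre_succ x (k + 1), ← List.append_assoc]; exact List.prefix_append _ _)
    (fun k => by simp; omega)
  let z : In M (ℕ → Pick) := mkF (fun t => (s ++ pre x (t + 1)).getD t (0, 0)) (by fun_prop)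
  have h₃ : IsPt [] D z := isPt_of_ch fun n => (h₁ (n + 1)).of_isPrefix (by
    rw [h₂ n]
    exact pre_isPrefix _ (by simp; omega))
  refine ⟨z, h₃.mono fun _ h => h.1, (eq_pre_of_isPrefix (n := (s ++ pre x (0 + 1)).length) ?_).symm,
    fun t => (h₃ t).1.2⟩
  exact ⟨_, h₂ 0⟩

section Levels

variable {H : Rs M} {f : In M (List Pick → Bool)}

theorem levels_full (hp : Pos H) (hH : Nice H)
    (hf : ∀ y : In M (ℕ → Pick), IsPt [] H y → Pos (selF f y) ∧ Nice (selF f y)) (N : ℕ) :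
    ∀ (s : ℕ → List Pick) (m : ℕ → ℕ), (∀ i ≤ N, Ch [] (· ∈ H) (s i)) →
      (∀ i < N, ∀ e ∈ s i, m i ≤ e.1 → Rev f (s (i + 1)) e) →
      ∃ z : ℕ → In M (ℕ → Pick), ∀ i ≤ N, IsPt [] H (z i) ∧ pre (z i) (s i).length = s i ∧
        (i < N → ∀ t, m i ≤ (z i t).1 → z i t ∈ selF f (z (i + 1))) := by
  induction N with
  | zero =>
    intro s m h₁ _
    obtain ⟨z, k₁, k₂, -⟩ := exists_ext hH (In.subset_refl _) hp hH (h₁ 0 le_rfl) (m := 0)
      fun e he _ => (h₁ 0 le_rfl).of_mem he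
    refine ⟨fun _ => z, fun i hi => ?_⟩
    obtain rfl := Nat.le_zero.1 hi
    exact ⟨k₁, k₂, by simp⟩
  | succ N ih =>
    intro s m h₁ h₂
    obtain ⟨z, hz⟩ := ih (fun i => s (i + 1)) (fun i => m (i + 1))
      (fun i hi => h₁ _ (by omega)) fun i hi => h₂ _ (by omega)
    obtain ⟨k₁, k₂, -⟩ := hz 0 (by omega)
    obtain ⟨z₀, k₃, k₄, k₅⟩ := exists_ext (B := selF f (z 0)) hH
      (by rintro _ ⟨t, rfl, -⟩; exact (k₁ t).1) (hf _ k₁).1 (hf _ k₁).2 (h₁ 0 (by omega))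
      (m := m 0) fun e he hm => Rev.mem (k₂.symm ▸ h₂ 0 (by omega) e he hm)
    refine ⟨fun i => Nat.casesOn i z₀ z, fun i hi => ?_⟩
    cases i with
    | zero => exact ⟨k₃, k₄, fun _ => k₅⟩
    | succ i => exact ⟨(hz i (by omega)).1, (hz i (by omega)).2.1,
        fun h => (hz i (by omega)).2.2 (by omega)⟩

theorem levels_step (hp : Pos H) (hH : Nice H)
    (hf : ∀ y : In M (ℕ → Pick), IsPt [] H y → Pos (selF f y) ∧ Nice (selF f y)) (N : ℕ)
    (s : ℕ → List Pick) (m : ℕ → ℕ) (h₁ : ∀ i ≤ N, Ch [] (· ∈ H) (s i))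
    (h₂ : ∀ i < N, ∀ e ∈ s i, m i ≤ e.1 → Rev f (s (i + 1)) e) :
    ∃ s' : ℕ → List Pick, ∀ i ≤ N, s i <+: s' i ∧ N + 1 ≤ (s' i).length ∧
      Ch [] (· ∈ H) (s' i) ∧ (i < N → ∀ e ∈ s' i, m i ≤ e.1 → Rev f (s' (i + 1)) e) := by
  obtain ⟨z, hz⟩ := levels_full hp hH hf N s m h₁ h₂
  choose g hg using fun i k => exists_rev_all (f := f) (y := z (i + 1)) (pre (z i) k)
  let l : ℕ → ℕ := fun i => Nat.rec (max (N + 1) (s 0).length)
    (fun i k => max (g i k) (max (N + 1) (s (i + 1)).length)) i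
  have hl : ∀ i, max (N + 1) (s i).length ≤ l i := fun i => by
    cases i with
    | zero => exact le_rfl
    | succ i => exact le_max_right _ _
  refine ⟨fun i => pre (z i) (l i), fun i hi => ⟨?_, ?_, (hz i hi).1.ch _, fun h e he hm => ?_⟩⟩
  · rw [← (hz i hi).2.1]
    exact pre_isPrefix _ ((le_max_right _ _).trans (hl i))
  · simpa using (le_max_left _ _).trans (hl i)
  · refine hg i (l i) _ (le_max_left _ _) e he ?_
    obtain ⟨t, -, rfl⟩ := mem_pre.1 he
    exact (hz i hi).2.2 h t hm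

theorem levels (hp : Pos H) (hH : Nice H)
    (hf : ∀ y : In M (ℕ → Pick), IsPt [] H y → Pos (selF f y) ∧ Nice (selF f y)) :
    ∃ z : ℕ → In M (ℕ → Pick), ∀ i, IsPt [] H (z i) ∧
      ∃ m, ∀ e, e ∈ pts (z i) → m ≤ e.1 → e ∈ selF f (z (i + 1)) := by
  obtain ⟨st, hst, h₀, h₁⟩ := dc (M := M) (X := List (List Pick × ℕ))
    (I := fun l => 0 < l.length ∧ ∀ i, i < l.length → Ch [] (· ∈ H) (l.getD i ([], 0)).1 ∧
      (i + 1 < l.length → ∀ e, e ∈ (l.getD i ([], 0)).1 → (l.getD i ([], 0)).2 ≤ e.1 →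
        Rev f (l.getD (i + 1) ([], 0)).1 e))
    (R := fun l l' => l'.length = l.length + 1 ∧ ∀ i, i < l.length →
      (l.getD i ([], 0)).1 <+: (l'.getD i ([], 0)).1 ∧ l.length ≤ (l'.getD i ([], 0)).1.length ∧
        (i + 1 < l.length → (l'.getD i ([], 0)).2 = (l.getD i ([], 0)).2))
    (by fun_prop) (by fun_prop)
    (by
      rintro l ⟨h₁, h₂⟩
      obtain ⟨N, hN⟩ : ∃ N, l.length = N + 1 := ⟨l.length - 1, by omega⟩
      rw [hN] at h₂ ⊢
      obtain ⟨s, hs⟩ := levels_step hp hH hf N (fun i => (l.getD i ([], 0)).1)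
        (fun i => (l.getD i ([], 0)).2) (fun i hi => (h₂ i (by omega)).1)
        fun i hi => (h₂ i (by omega)).2 (by omega)
      obtain ⟨b, hb⟩ := exists_above (s N)
      refine ⟨pre (fun i => if i ≤ N then (s i, if i = N then b else (l.getD i ([], 0)).2)
        else ([], 0)) (N + 2), ⟨by simp, fun i hi => ⟨?_, fun hi' e => ?_⟩⟩, by simp,
        fun i hi => ?_⟩
      · rw [length_pre] at hi
        rw [getD_pre hi]
        split_ifs with h
        exacts [(hs i h).2.2.1, (hs i h).2.2.1, ch_nil]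
      · rw [length_pre] at hi hi'
        rw [getD_pre hi, getD_pre hi', if_pos (by omega)]
        by_cases h : i = N
        · subst h
          simp only [if_true]
          exact fun he hm => absurd (hb e he).1 (by omega)
        · rw [if_neg h, if_pos (by omega)]
          exact (hs i (by omega)).2.2.2 (by omega) e
      · rw [getD_pre (by omega), if_pos (by omega)]
        exact ⟨(hs i (by omega)).1, (hs i (by omega)).2.1, fun h => if_neg (by omega)⟩)
    (x₀ := [([], 0)]) ⟨by simp, fun i hi => by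
      obtain rfl : i = 0 := by simpa using hi
      simp⟩
  have hl : ∀ k, (st k).length = k + 1 := fun k => by
    induction k with
    | zero => simp [h₀]
    | succ k ih => rw [(h₁ k).2.1, ih]
  have e := fun i => chain_limit (c := fun k => ((st (i + k + 1)).getD i ([], 0)).1) (0, 0)
    (fun k => ((h₁ (i + k + 1)).2.2 i (by rw [hl]; omega)).1)
    (fun k => by
      have := ((h₁ (i + k)).2.2 i (by rw [hl]; omega)).2.1
      rw [hl] at this
      omega)
  have e' : ∀ i k, k < ((st (i + k + 1)).getD i ([], 0)).1.length := fun i k => by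
    have := ((h₁ (i + k)).2.2 i (by rw [hl]; omega)).2.1
    rw [hl] at this
    omega
  have hm : ∀ i k, ((st (i + k + 1)).getD i ([], 0)).2 = ((st (i + 1)).getD i ([], 0)).2 :=
    fun i k => by
      induction k with
      | zero => rfl
      | succ k ih => exact (((h₁ (i + k + 1)).2.2 i (by rw [hl]; omega)).2.2
          (by rw [hl]; omega)).trans ih
  refine ⟨fun i => mkF (fun t => ((st (i + t + 1)).getD i ([], 0)).1.getD t (0, 0)) (by fun_prop),
    fun i => ⟨isPt_of_ch fun n => ?_, ((st (i + 1)).getD i ([], 0)).2, ?_⟩⟩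
  · refine ((h₁ (i + n + 1)).1.2 i (by rw [hl]; omega)).1.of_isPrefix ?_
    rw [e i n]
    exact pre_isPrefix _ (e' i n).le
  · rintro _ ⟨t, rfl⟩ h
    have h₂ := ((h₁ (i + t + 1)).1.2 i (by rw [hl]; omega)).2 (by rw [hl]; omega) _
      (by rw [e i t]; exact mem_pre.2 ⟨t, e' i t, rfl⟩) (hm i t ▸ h)
    have h₃ := h₂.mono ((h₁ (i + t + 1)).2.2 (i + 1) (by rw [hl]; omega)).1
    rw [show i + t + 1 + 1 = i + 1 + t + 1 by omega, e (i + 1) t] at h₃
    exact Rev.mem (y := mkF _ _) h₃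

end Levels

variable {K : Type u} [LinearOrder K] [WellFoundedLT K] [Nonempty K] [Code K] [Cd M K] [TmLT M K]

/-- Distributivity for well-ordered families of sets that are dense and open for inclusion
modulo finitely many columns. -/
theorem distrib {D : K → Rs M → Prop} (hD : Tm M (fun z : K × Rs M => D z.1 z.2)) {p : Rs M}
    (hp : Pos p)
    (opn : ∀ α q q' m, D α q → Pos q' → (∀ e, e ∈ q' → m ≤ e.1 → e ∈ q) → D α q')
    (dns : ∀ α q, q ⊆ p → Pos q → ∃ q', q' ⊆ q ∧ Pos q' ∧ D α q') :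
    ∃ q, q ⊆ p ∧ Pos q ∧ ∀ α, D α q := by
  by_contra hc
  have hc : ∀ q, q ⊆ p → Pos q → ∃ α, ¬ D α q := fun q h₁ h₂ =>
    not_forall.1 fun h => hc ⟨q, h₁, h₂, h⟩
  let φ : Rs M → K := fun q => mn fun α => ¬ D α q
  have mono : ∀ q q' m, q' ⊆ p → Pos q' → (∀ e, e ∈ q' → m ≤ e.1 → e ∈ q) → φ q ≤ φ q' :=
    fun q q' m h₁ h₂ h₃ => mn_le fun h => mn_spec (hc q' h₁ h₂) (opn _ _ _ m h h₂ h₃)
  obtain ⟨H, h₁, h₂, h₃, h₄ | ⟨f, h₄⟩⟩ := kastanas (M := M)
    (Q := fun y z => Pos (sel y z) ∧ Nice (sel y z) ∧ φ (pts y) < φ (sel y z)) hp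
    (by simp only [φ]; fun_prop)
  · obtain ⟨y, hy, hpt⟩ := (comp_nil.2 h₂).exists_pt
    have hpt : IsPt [] H (mkF y hy) := hpt
    have hsub := In.subset_trans hpt.pts_subset h₁
    obtain ⟨q, k₁, k₂, k₃⟩ := dns (φ (pts (mkF y hy))) _ hsub hpt.pos_pts
    classical
    let z : In M (ℕ → Bool) := mkF (fun t => decide (y t ∈ q ∧ ColInf q (y t).1)) (by fun_prop)
    have e : ∀ e, e ∈ sel (mkF y hy) z ↔ e ∈ q ∧ ColInf q e.1 := fun e =>
      ⟨by rintro ⟨t, rfl, h⟩; simpa [z] using h, fun h => by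
        obtain ⟨t, rfl⟩ := k₁ h.1
        exact ⟨t, rfl, by simpa [z] using h⟩⟩
    have k₄ : ∀ n, ColInf q n → ColInf (sel (mkF y hy) z) n := fun n hn m =>
      (hn m).imp fun j hj => ⟨hj.1, (e _).2 ⟨hj.2, hn⟩⟩
    have k₅ : Pos (sel (mkF y hy) z) := fun m => (k₂ m).imp fun n hn => ⟨hn.1, k₄ n hn.2⟩
    have k₆ : sel (mkF y hy) z ⊆ p := fun a ha => hsub (k₁ ((e a).1 ha).1)
    refine h₄ _ z hpt ⟨k₅, fun a ha => k₄ _ ((e a).1 ha).2, lt_of_le_of_ne
      (mono _ _ 0 k₆ k₅ fun a ha _ => k₁ ((e a).1 ha).1) fun h => ?_⟩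
    rw [h] at k₃
    exact mn_spec (hc _ k₆ k₅) (opn _ _ _ 0 k₃ k₅ fun a ha _ => ((e a).1 ha).1)
  · obtain ⟨z, hz⟩ := levels (f := f) h₂ h₃ fun y hy => ⟨(h₄ y hy).1, (h₄ y hy).2.1⟩
    obtain ⟨_, ⟨i, rfl⟩, hi⟩ := wellFounded_lt.has_min (range fun i => φ (pts (z i)))
      (range_nonempty _)
    obtain ⟨k₁, m, k₂⟩ := hz i
    exact hi _ ⟨i + 1, rfl⟩ ((h₄ _ (hz (i + 1)).1).2.2.trans_le
      (mono _ _ m (In.subset_trans k₁.pts_subset h₁) k₁.pos_pts k₂))

/-- The columns of `q` from `m` on. -/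
noncomputable def tl (q : Rs M) (m : ℕ) : Rs M := mkS (fun e => e ∈ q ∧ m ≤ e.1) (by fun_prop)

@[fun_prop] theorem tm_tl {Γ : Type*} [Code Γ] [Cd M Γ] {q : Γ → Rs M} {m : Γ → ℕ}
    (hq : Tm M q) (hm : Tm M m) : Tm M (fun x => tl (q x) (m x)) := by
  unfold tl; fun_prop

theorem Pos.tl {q : Rs M} (h : Pos q) (m : ℕ) : Pos (tl q m) := fun k => by
  obtain ⟨n, h₁, h₂⟩ := h (max k m)
  exact ⟨n, by omega, fun j => (h₂ j).imp fun _ h => ⟨h.1, h.2, by dsimp only; omega⟩⟩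

theorem tl_subset {q q' : Rs M} {m : ℕ} (h : ∀ e, e ∈ q' → m ≤ e.1 → e ∈ q) (k : ℕ) :
    tl q' (max k m) ⊆ tl q k :=
  fun e he => ⟨h e he.1 ((le_max_right _ _).trans he.2), (le_max_left _ _).trans he.2⟩

theorem Pos.exists_pt {q : Rs M} (h : Pos q) : ∃ y : In M (ℕ → Pick), IsPt [] q y := by
  obtain ⟨y, hy, hpt⟩ := (comp_nil.2 h).exists_pt
  exact ⟨mkF y hy, hpt⟩

/-- Every function from points to a well-order of uncountable cofinality is bounded on a cone. -/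
theorem bdd_cone (cof : ∀ h : ℕ → K, Tm M h → ∃ β, ∀ n, h n ≤ β) {g : In M (ℕ → Pick) → K}
    (hg : Tm M g) {A : Rs M} (hp : Pos A) :
    ∃ H, H ⊆ A ∧ Pos H ∧ ∃ β, ∀ y : In M (ℕ → Pick), IsPt [] H y → g y ≤ β := by
  by_contra hc
  obtain ⟨q, -, h₂, h₃⟩ := distrib (M := M)
    (D := fun β q => ∃ m, ∀ y : In M (ℕ → Pick), IsPt [] (tl q m) y → ¬ g y ≤ β) (by fun_prop) hp
    (fun β q q' m ⟨k, h⟩ _ h' => ⟨max k m, fun y hy => h y (hy.mono (tl_subset h' k))⟩)
    (fun β q h₁ h₂ => by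
      obtain ⟨H, k₁, k₂, k₃ | k₃⟩ := ramsey (X := fun y => g y ≤ β) h₂ (by fun_prop)
      · exact ⟨H, k₁, k₂, 0, fun y hy => k₃ y (hy.mono fun _ h => h.1)⟩
      · exact absurd ⟨H, In.subset_trans k₁ h₁, k₂, β, k₃⟩ hc)
  obtain ⟨β, hβ⟩ := cof (fun m => mn fun α => ∃ y : In M (ℕ → Pick), IsPt [] (tl q m) y ∧ g y = α)
    (by fun_prop)
  obtain ⟨m, hm⟩ := h₃ β
  obtain ⟨y, hy⟩ := (h₂.tl m).exists_pt
  obtain ⟨y, hy, e⟩ := mn_spec
    (P := fun α => ∃ y : In M (ℕ → Pick), IsPt [] (tl q m) y ∧ g y = α) ⟨_, y, hy, rfl⟩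
  exact hm y hy (e ▸ hβ m)

end Pool.Agent.MP_09d684_lc.H42
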