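import Pool.Agent.MP_09d684_lc.H42.Ord

/-! The generic extension: ground model elements of values of names. -/

set_option linter.unusedSectionVars false

namespace Pool.Agent.MP_09d684_lc.H42

open Set Function

universe u v w

theorem mem_val {G : Set ZFSet.{0}} {τ x : ZFSet.{0}} :
    x ∈ val G τ ↔ ∃ σ p, p ∈ G ∧ ZFSet.pair σ p ∈ τ ∧ val G σ = x := by
  rw [val, WellFounded.fix_eq, ZFSet.mem_range]
  exact ⟨fun ⟨⟨σ, p, h₁, h₂⟩, h⟩ => ⟨σ, p, h₁, h₂, h⟩,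
    fun ⟨σ, p, h₁, h₂, h⟩ => ⟨⟨σ, p, h₁, h₂⟩, h⟩⟩

theorem nat_finite_iff {S : Set ℕ} : S.Finite ↔ ∃ m, ∀ n, m ≤ n → n ∉ S := by
  rw [← Set.not_infinite, Set.infinite_iff_exists_gt]
  simp only [not_forall, not_exists, not_and, not_lt]
  exact ⟨fun ⟨m, h⟩ => ⟨m + 1, fun n hn hs => by have := h n hs; omega⟩,
    fun ⟨m, h⟩ => ⟨m, fun n hn => le_of_not_ge fun h' => h n h' hn⟩⟩

variable {M : Set ZFSet.{0}} [hM : IsZF M]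

theorem fin2_diff {A B : Rs M} : Fin2 (A.val \ B.val) ↔ Le A B := by
  simp only [Fin2, nat_finite_iff, mem_ofPred_eq, Set.not_infinite, Set.mem_sdiff, not_and, not_not]
  rfl

theorem not_fin2 {A : Rs M} : ¬ Fin2 A.val ↔ Pos A := by
  simp only [Fin2, nat_finite_iff, mem_ofPred_eq, Set.not_infinite, not_exists, not_forall,
    not_not, exists_prop]
  rfl

/-- The class of `A` as an element of the model. -/
noncomputable def cl (A : Rs M) : M := ι M (mkS (M := M) (fun B => Le A B ∧ Le B A) (by fun_prop))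

@[fun_prop] theorem tm_cl {Γ : Type*} [Code Γ] [Cd M Γ] {A : Γ → Rs M} (hA : Tm M A) :
    Tm M (fun x => cl (A x)) := by
  unfold cl; fun_prop

theorem cls_eq (A : Rs M) : cls M A = (cl A).1 := by
  simp only [cls, fin2_diff]
  rfl

theorem cl_inj {A B : Rs M} (h : (cl A).1 = (cl B).1) : Le A B ∧ Le B A := by
  have h := ι_inj.1 (show cl A = cl B from Subtype.ext h)
  have : B ∈ mkS (fun B => Le A B ∧ Le B A) (by fun_prop : Tm M _) := h ▸ ⟨Le.rfl, Le.rfl⟩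
  exact this

theorem cle_iff {A B : Rs M} : CLe M (cl A).1 (cl B).1 ↔ Le A B := by
  simp only [CLe, cls_eq, fin2_diff]
  exact ⟨fun ⟨A', B', h₁, h₂, h⟩ => ((cl_inj h₁).1.trans h).trans (cl_inj h₂).2,
    fun h => ⟨A, B, rfl, rfl, h⟩⟩

theorem mem_cond {p : ZFSet.{0}} : p ∈ Cond M ↔ ∃ A : Rs M, Pos A ∧ p = (cl A).1 := by
  simp only [Cond, cls_eq, not_fin2, mem_ofPred_eq]

theorem Le.pos {A B : Rs M} (h : Le A B) (hA : Pos A) : Pos B := by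
  obtain ⟨s, h₁, -, h₂⟩ := h.exists_inter hA
  exact h₁.mono h₂

/-- Elements of a set of the model, as a type. -/
def Elt (T : M) : Type 1 := {x : M // E x T}

instance (T : M) : Code (Elt T) := ⟨fun x => x.1.1⟩

instance (T : M) : Cd M (Elt T) where
  inj := fun _ _ h => Subtype.ext (Subtype.ext h)
  mem := fun a => a.1.2
  rng := PD.congr (D1.memc T) fun w => ⟨fun h => ⟨⟨w 0, h⟩, rfl⟩,
    fun ⟨a, e⟩ => show (w 0).1 ∈ T.1 by rw [← e]; exact a.2⟩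

instance (T : M) : Bd M (Elt T) := ⟨⟨T, fun a => a.2⟩⟩

theorem exists_trans (a : M) : ∃ T : M, E a T ∧ ∀ x y, E x T → E y x → E y T := by
  let U : M → M := fun a => ⟨_, sUnion_mem a.2⟩
  have hU : ∀ a x, E x (U a) ↔ ∃ y, E y a ∧ E x y := fun a x =>
    ZFSet.mem_sUnion.trans ⟨fun ⟨y, h₁, h₂⟩ => ⟨⟨y, tr a.2 h₁⟩, h₁, h₂⟩,
      fun ⟨y, h₁, h₂⟩ => ⟨y.1, h₁, h₂⟩⟩
  have hU' : Tm M U := tm_of_rel (Q := fun a b => ∀ x, E x b ↔ ∃ y, E y a ∧ E x y) (by fun_prop)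
    fun a b => ⟨fun h => ext_M fun x => (h x).trans (hU a x).symm, fun h => h ▸ hU a⟩
  obtain ⟨S, hS⟩ := tm_image (Q := fun _ : ℕ => True)
    (f := fun n => U^[n] ⟨_, single_mem a.2⟩) (by fun_prop) (by fun_prop)
  refine ⟨U S, (hU _ _).2 ⟨_, (hS _).2 ⟨0, trivial, rfl⟩, ZFSet.mem_singleton.2 rfl⟩,
    fun x y hx hy => ?_⟩
  obtain ⟨z, h₁, h₂⟩ := (hU _ _).1 hx
  obtain ⟨n, -, rfl⟩ := (hS _).1 h₁
  refine (hU _ _).2 ⟨_, (hS _).2 ⟨n + 1, trivial, rfl⟩, ?_⟩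
  rw [iterate_succ_apply']
  exact (hU _ _).2 ⟨x, h₂, hy⟩

theorem elt_wf (T : M) : WellFounded fun a b : Elt T => E (ι M a) (ι M b) :=
  InvImage.wf (fun a : Elt T => a.1.1) ZFSet.mem_wf

variable {G : Set ZFSet.{0}} (hG : IsGeneric M G)
include hG

theorem IsGeneric.exists_cl {p : ZFSet.{0}} (hp : p ∈ G) : ∃ A : Rs M, p = (cl A).1 :=
  (mem_cond.1 (hG.sub hp)).imp fun _ h => h.2

theorem IsGeneric.pos {A : Rs M} (h : (cl A).1 ∈ G) : Pos A := by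
  obtain ⟨B, h₁, h₂⟩ := mem_cond.1 (hG.sub h)
  exact (cl_inj h₂).2.pos h₁

theorem IsGeneric.up' {A B : Rs M} (h : (cl A).1 ∈ G) (h' : Le A B) : (cl B).1 ∈ G :=
  hG.up _ h _ (mem_cond.2 ⟨B, h'.pos (hG.pos h), rfl⟩) (cle_iff.2 h')

theorem IsGeneric.dir' {A B : Rs M} (h : (cl A).1 ∈ G) (h' : (cl B).1 ∈ G) :
    ∃ C : Rs M, (cl C).1 ∈ G ∧ Le C A ∧ Le C B := by
  obtain ⟨r, h₁, h₂, h₃⟩ := hG.dir _ h _ h'
  obtain ⟨C, rfl⟩ := hG.exists_cl h₁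
  exact ⟨C, h₁, cle_iff.1 h₂, cle_iff.1 h₃⟩

theorem IsGeneric.meets' {D : Rs M → Prop} (hD : Tm M D)
    (h : ∀ p, Pos p → ∃ q, Pos q ∧ Le q p ∧ D q) : ∃ q : Rs M, (cl q).1 ∈ G ∧ D q := by
  obtain ⟨S, hS⟩ := tm_image hD (f := cl) (by fun_prop)
  obtain ⟨q, h₁, h₂⟩ := hG.meets S.1 S.2 fun p hp => by
    obtain ⟨A, hA, rfl⟩ := mem_cond.1 hp
    obtain ⟨q, h₁, h₂, h₃⟩ := h A hA
    exact ⟨_, mem_cond.2 ⟨q, h₁, rfl⟩, (hS _).2 ⟨q, h₃, rfl⟩, cle_iff.2 h₂⟩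
  obtain ⟨A, h₃, h₄⟩ := (hS ⟨q, tr S.2 h₂⟩).1 h₂
  exact ⟨A, h₄ ▸ h₁, h₃⟩

theorem IsGeneric.meets_below {D : Rs M → Prop} (hD : Tm M D) {q : Rs M} (hq : (cl q).1 ∈ G)
    (h : Dn D q) : ∃ r : Rs M, (cl r).1 ∈ G ∧ D r := by
  obtain ⟨r, h₁, h₂ | h₂⟩ := hG.meets' (D := fun r => D r ∨ ∀ s, Pos s → Le s r → ¬ Le s q)
    (by fun_prop) fun p hp => by
      by_cases h' : ∃ s, Pos s ∧ Le s p ∧ Le s q
      · obtain ⟨s, k₁, k₂, k₃⟩ := h'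
        obtain ⟨r, k₄, k₅, k₆⟩ := h s k₁ k₃
        exact ⟨r, k₄, k₅.trans k₂, Or.inl k₆⟩
      · exact ⟨p, hp, Le.rfl, Or.inr fun s k₁ k₂ k₃ => h' ⟨s, k₁, k₂, k₃⟩⟩
  · exact ⟨r, h₁, h₂⟩
  · obtain ⟨s, k₁, k₂, k₃⟩ := hG.dir' h₁ hq
    exact absurd k₃ (h₂ s (hG.pos k₁) k₂)

theorem IsGeneric.subset_ext : M ⊆ Ext M G := by
  intro a ha
  obtain ⟨T, h₁, hT⟩ := exists_trans (⟨a, ha⟩ : M)
  obtain ⟨p, hp⟩ := hG.ne
  obtain ⟨A, rfl⟩ := hG.exists_cl hp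
  obtain ⟨F, hF, h⟩ := exists_rec (β := M) (elt_wf T) (by fun_prop)
    (Φ := fun _ R s => (∀ y, E y s ↔ ∃ b t, R b t ∧ pr t (cl A) = y) ∨
      ((¬ ∃ s, ∀ y, E y s ↔ ∃ b t, R b t ∧ pr t (cl A) = y) ∧ s = cl A)) (by fun_prop)
    fun _ R => by
      by_cases h : ∃ s, ∀ y, E y s ↔ ∃ b t, R b t ∧ pr t (cl A) = y
      · obtain ⟨s, hs⟩ := h
        exact ⟨s, Or.inl hs, fun s' h => h.elim (fun h => ext_M fun y => (h y).trans (hs y).symm)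
          fun h => absurd ⟨s, hs⟩ h.1⟩
      · exact ⟨_, Or.inr ⟨h, rfl⟩, fun s h' => h'.elim (fun h' => absurd ⟨s, h'⟩ h) And.right⟩
  have h₂ : ∀ x y, E y (F x) ↔ ∃ b, E (ι M b) (ι M x) ∧ pr (F b) (cl A) = y := fun x => by
    simpa only [and_assoc, exists_and_left, exists_eq_left'] using
      (h x).resolve_right fun h => h.1 (by
        simpa only [and_assoc, exists_and_left, exists_eq_left'] using
          tm_image (Q := fun b => E (ι M b) (ι M x)) (f := fun b => pr (F b) (cl A))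
            (by fun_prop) (by fun_prop))
  have h₃ : ∀ x, val G (F x).1 = x.1.1 := fun x => by
    induction x using (elt_wf T).induction with | _ x ih
    refine ZFSet.ext fun y => mem_val.trans ⟨?_, fun hy => ?_⟩
    · rintro ⟨σ, p, -, k₁, rfl⟩
      obtain ⟨b, k₂, k₃⟩ := (h₂ x ⟨_, tr (F x).2 k₁⟩).1 k₁
      rw [← (ZFSet.pair_inj.1 (congrArg Subtype.val k₃)).1, ih b k₂]
      exact k₂
    · let b : Elt T := ⟨⟨y, tr x.1.2 hy⟩, hT _ _ x.2 hy⟩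
      exact ⟨_, _, hp, (h₂ x _).2 ⟨b, hy, rfl⟩, ih b hy⟩
  exact ⟨_, (F ⟨_, h₁⟩).2, h₃ _⟩

theorem IsGeneric.truth_eq {T : M} (hT : ∀ x y, E x T → E y x → E y T) :
    ∃ F : Elt T × Elt T × Rs M → Prop, Tm M F ∧ (∀ a σ q q', F (a, σ, q) → Le q' q → F (a, σ, q')) ∧
      ∀ a σ : Elt T, val G σ.1.1 = a.1.1 ↔ ∃ q, (cl q).1 ∈ G ∧ F (a, σ, q) := by
  obtain ⟨F, hF, h⟩ := exists_rec (α := Elt T × Elt T × Rs M) (β := Prop)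
    (InvImage.wf Prod.fst (elt_wf T)) (by simp only [InvImage]; fun_prop)
    (Φ := fun z R s => s = ((∀ (ρ : Elt T) p, E (pr (ι M ρ) (cl p)) (ι M z.2.1) → ∀ r, Pos r →
        Le r z.2.2 → Le r p → ∃ r', Pos r' ∧ Le r' r ∧ ∃ b, R (b, ρ, r') True) ∧
      ∀ b : Elt T, E (ι M b) (ι M z.1) → Dn (fun r => ∃ (ρ : Elt T) (p : Rs M),
        E (pr (ι M ρ) (cl p)) (ι M z.2.1) ∧ Le r p ∧ R (b, ρ, r) True) z.2.2))
    (by fun_prop) fun _ _ => ⟨_, rfl, fun _ h => h⟩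
  have h' : ∀ a σ q, F (a, σ, q) ↔ (∀ (ρ : Elt T) p, E (pr (ι M ρ) (cl p)) (ι M σ) → ∀ r, Pos r →
        Le r q → Le r p → ∃ r', Pos r' ∧ Le r' r ∧ ∃ b, E (ι M b) (ι M a) ∧ F (b, ρ, r')) ∧
      ∀ b : Elt T, E (ι M b) (ι M a) → Dn (fun r => ∃ (ρ : Elt T) (p : Rs M),
        E (pr (ι M ρ) (cl p)) (ι M σ) ∧ Le r p ∧ F (b, ρ, r)) q := fun a σ q => by
    rw [h (a, σ, q)]
    simp only [InvImage, eq_iff_iff, iff_true]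
    exact and_congr_right fun _ => forall_congr' fun b => imp_congr_right fun hb => by
      simp only [hb, true_and]
  have mono : ∀ a σ q q', F (a, σ, q) → Le q' q → F (a, σ, q') := fun a σ q q' h₁ h₂ => by
    rw [h'] at h₁ ⊢
    exact ⟨fun ρ p k r k₁ k₂ => h₁.1 ρ p k r k₁ (k₂.trans h₂),
      fun b hb r k₁ k₂ => h₁.2 b hb r k₁ (k₂.trans h₂)⟩
  refine ⟨F, hF, mono, fun a => ?_⟩
  induction a using (elt_wf T).induction with | _ a ih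
  intro σ
  have mv : ∀ x, x ∈ val G σ.1.1 ↔ ∃ (ρ : Elt T) (p : Rs M), (cl p).1 ∈ G ∧
      E (pr (ι M ρ) (cl p)) (ι M σ) ∧ val G ρ.1.1 = x := fun x => by
    refine mem_val.trans ⟨?_, fun ⟨ρ, p, h⟩ => ⟨_, _, h⟩⟩
    rintro ⟨ρ, p, h₁, h₂, h₃⟩
    obtain ⟨p, rfl⟩ := hG.exists_cl h₁
    have h₄ := tr σ.1.2 h₂
    have h₅ := (mem_of_pair_mem h₄).1
    exact ⟨⟨⟨ρ, h₅⟩, hT ⟨_, single_mem h₅⟩ _ (hT ⟨_, h₄⟩ _ (hT _ _ σ.2 h₂) (ZFSet.mem_insert _ _))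
      (ZFSet.mem_singleton.2 rfl)⟩, p, h₁, h₂, h₃⟩
  have el : ∀ x, x ∈ a.1.1 → ∃ b : Elt T, b.1.1 = x := fun x hx =>
    ⟨⟨⟨x, tr a.1.2 hx⟩, hT _ _ a.2 hx⟩, rfl⟩
  constructor
  · intro e
    obtain ⟨q, h₁, h₂ | ⟨ρ, p, h₂, h₃, h₄⟩ | ⟨b, h₂, h₃⟩⟩ := hG.meets'
      (D := fun q => F (a, σ, q) ∨
        (∃ (ρ : Elt T) (p : Rs M), E (pr (ι M ρ) (cl p)) (ι M σ) ∧ Le q p ∧
          ¬ ∃ r', Pos r' ∧ Le r' q ∧ ∃ b, E (ι M b) (ι M a) ∧ F (b, ρ, r')) ∨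
        ∃ b : Elt T, E (ι M b) (ι M a) ∧ ¬ ∃ r, Pos r ∧ Le r q ∧ ∃ (ρ : Elt T) (p : Rs M),
          E (pr (ι M ρ) (cl p)) (ι M σ) ∧ Le r p ∧ F (b, ρ, r)) (by fun_prop) fun q hq => by
        by_cases h₁ : F (a, σ, q)
        · exact ⟨q, hq, Le.rfl, Or.inl h₁⟩
        · rw [h', not_and_or] at h₁
          rcases h₁ with h₁ | h₁
          · simp only [not_forall] at h₁
            obtain ⟨ρ, p, k₁, r, k₂, k₃, k₄, k₅⟩ := h₁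
            exact ⟨r, k₂, k₃, Or.inr (Or.inl ⟨ρ, p, k₁, k₄, k₅⟩)⟩
          · simp only [Dn, not_forall] at h₁
            obtain ⟨b, k₁, r, k₂, k₃, k₄⟩ := h₁
            exact ⟨r, k₂, k₃, Or.inr (Or.inr ⟨b, k₁, k₄⟩)⟩
    · exact ⟨q, h₁, h₂⟩
    · have k₁ : val G ρ.1.1 ∈ a.1.1 := e ▸ (mv _).2 ⟨ρ, p, hG.up' h₁ h₃, h₂, rfl⟩
      obtain ⟨b, hb⟩ := el _ k₁
      have hb' : E (ι M b) (ι M a) := show b.1.1 ∈ a.1.1 from hb ▸ k₁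
      obtain ⟨r, k₂, k₃⟩ := (ih b hb' ρ).1 hb.symm
      obtain ⟨s, k₄, k₅, k₆⟩ := hG.dir' k₂ h₁
      exact absurd ⟨s, hG.pos k₄, k₆, b, hb', mono _ _ _ _ k₃ k₅⟩ h₄
    · obtain ⟨ρ, p, k₁, k₂, k₃⟩ := (mv b.1.1).1 (e ▸ h₂)
      obtain ⟨r, k₄, k₅⟩ := (ih b h₂ ρ).1 k₃
      obtain ⟨s, k₆, k₇, k₈⟩ := hG.dir' k₄ h₁
      obtain ⟨t, l₁, l₂, l₃⟩ := hG.dir' k₆ k₁
      exact absurd ⟨t, hG.pos l₁, l₂.trans k₈, ρ, p, k₂, l₃, mono _ _ _ _ k₅ (l₂.trans k₇)⟩ h₃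
  · rintro ⟨q, h₁, h₂⟩
    rw [h'] at h₂
    refine ZFSet.ext fun x => ⟨fun hx => ?_, fun hx => ?_⟩
    · obtain ⟨ρ, p, k₁, k₂, rfl⟩ := (mv x).1 hx
      obtain ⟨s, k₃, k₄, k₅⟩ := hG.dir' h₁ k₁
      obtain ⟨r, k₆, b, k₇, k₈⟩ := hG.meets_below
        (D := fun r => ∃ b, E (ι M b) (ι M a) ∧ F (b, ρ, r)) (by fun_prop) k₃
        fun r l₁ l₂ => h₂.1 ρ p k₂ r l₁ (l₂.trans k₄) (l₂.trans k₅)
      rw [(ih b k₇ ρ).2 ⟨r, k₆, k₈⟩]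
      exact k₇
    · obtain ⟨b, rfl⟩ := el x hx
      obtain ⟨r, k₁, ρ, p, k₂, k₃, k₄⟩ := hG.meets_below (by fun_prop) h₁ (h₂.2 b hx)
      exact (mv _).2 ⟨ρ, p, hG.up' k₁ k₃, k₂, (ih b hx ρ).2 ⟨r, k₁, k₄⟩⟩

/-- Definability and truth of forcing for membership of ground model objects. -/
theorem IsGeneric.truth (α : Type u) [Code α] [Cd M α] [Bd M α] {c : ZFSet.{0}}
    (hc : c ∈ Ext M G) : ∃ F : Rs M → α → Prop, Tm M (fun z : Rs M × α => F z.1 z.2) ∧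
      (∀ q q' a, F q a → Le q' q → F q' a) ∧ ∀ a, enc a ∈ c ↔ ∃ q, (cl q).1 ∈ G ∧ F q a := by
  obtain ⟨τ, hτ, rfl⟩ := hc
  obtain ⟨A, hA⟩ := Bd.bd (M := M) (α := α)
  obtain ⟨T, h₁, hT⟩ := exists_trans (⟨_, upair_mem hτ A.2⟩ : M)
  obtain ⟨F, hF, mono, h⟩ := hG.truth_eq hT
  refine ⟨fun q a => ∃ (b σ : Elt T) (p : Rs M), ι M b = ι M a ∧
    E (pr (ι M σ) (cl p)) ⟨τ, hτ⟩ ∧ Le q p ∧ F (b, σ, q), by fun_prop,
    fun q q' a ⟨b, σ, p, k₁, k₂, k₃, k₄⟩ k => ⟨b, σ, p, k₁, k₂, k.trans k₃, mono _ _ _ _ k₄ k⟩,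
    fun a => mem_val.trans ⟨?_, ?_⟩⟩
  · rintro ⟨ρ, p, k₁, k₂, k₃⟩
    obtain ⟨p, rfl⟩ := hG.exists_cl k₁
    have h₄ := tr hτ k₂
    have h₅ := (mem_of_pair_mem h₄).1
    let σ : Elt T := ⟨⟨ρ, h₅⟩, hT ⟨_, single_mem h₅⟩ _ (hT ⟨_, h₄⟩ _
      (hT ⟨τ, hτ⟩ _ (hT _ _ h₁ (ZFSet.mem_insert _ _)) k₂) (ZFSet.mem_insert _ _))
      (ZFSet.mem_singleton.2 rfl)⟩
    let b : Elt T := ⟨ι M a, hT A _ (hT _ _ h₁ (ZFSet.mem_pair.2 (Or.inr rfl))) (hA a)⟩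
    obtain ⟨q, k₄, k₅⟩ := (h b σ).1 k₃
    obtain ⟨s, k₆, k₇, k₈⟩ := hG.dir' k₄ k₁
    exact ⟨s, k₆, b, σ, p, rfl, k₂, k₈, mono _ _ _ _ k₅ k₇⟩
  · rintro ⟨q, k₁, b, σ, p, k₂, k₃, k₄, k₅⟩
    exact ⟨_, _, hG.up' k₁ k₄, k₃, ((h b σ).2 ⟨q, k₁, k₅⟩).trans (congrArg Subtype.val k₂)⟩

omit hG in
/-- Families of dense open sets indexed by `α` have dense intersection. -/
def Distr (M : Set ZFSet.{0}) [IsZF M] (α : Type u) [Code α] [Cd M α] : Prop :=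
  ∀ D : α → Rs M → Prop, Tm M (fun z : α × Rs M => D z.1 z.2) →
    (∀ a q q', D a q → Le q' q → D a q') → (∀ a q, Pos q → ∃ q', Pos q' ∧ Le q' q ∧ D a q') →
      ∀ p, Pos p → ∃ q, Pos q ∧ Le q p ∧ ∀ a, D a q

omit hG in
theorem Distr.prod {α : Type u} {β : Type v} [Code α] [Cd M α] [Code β] [Cd M β]
    (h₁ : Distr M α) (h₂ : Distr M β) : Distr M (α × β) := fun D hD opn dns p hp => by
  obtain ⟨q, k₁, k₂, k₃⟩ := h₁ (fun a q => ∀ b, D (a, b) q) (by fun_prop)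
    (fun a q q' h h' b => opn _ _ _ (h b) h')
    (fun a => h₂ (fun b q => D (a, b) q) (by fun_prop) (fun _ => opn _) fun _ => dns _) p hp
  exact ⟨q, k₁, k₂, fun z => k₃ z.1 z.2⟩

theorem IsGeneric.barren {α : Type u} [Code α] [Cd M α] [Bd M α] [Small.{0} α] (hα : Distr M α)
    {S : Set α} (hS : enc S ∈ Ext M G) : enc S ∈ M := by
  obtain ⟨F, hF, mono, h⟩ := hG.truth α hS
  obtain ⟨q, h₁, h₂⟩ := hG.meets' (D := fun q => ∀ a, F q a ∨ ∀ r, Pos r → Le r q → ¬ F r a)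
    (by fun_prop) (hα _ (by fun_prop)
      (fun a q q' h h' => h.imp (fun h => mono _ _ _ h h') fun h r k₁ k₂ => h r k₁ (k₂.trans h'))
      fun a q hq => by
        by_cases h : ∃ r, Pos r ∧ Le r q ∧ F r a
        · exact h.imp fun _ h => ⟨h.1, h.2.1, Or.inl h.2.2⟩
        · exact ⟨q, hq, Le.rfl, Or.inr fun r k₁ k₂ k₃ => h ⟨r, k₁, k₂, k₃⟩⟩)
  convert enc_set_mem (M := M) (P := F q) (by fun_prop)
  ext a
  rw [← enc_mem_enc_set (M := M), h]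
  refine ⟨fun ⟨r, k₁, k₂⟩ => (h₂ a).resolve_right fun k => ?_, fun h => ⟨q, h₁, h⟩⟩
  obtain ⟨s, k₃, k₄, k₅⟩ := hG.dir' k₁ h₁
  exact k s (hG.pos k₃) k₅ (mono _ _ _ k₂ k₄)

end Pool.Agent.MP_09d684_lc.H42
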