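import Pool.Agent.MP_09d684_lc.H42.Pts

/-! The unfolded Kastanas game for `Fin ⊗ Fin`. -/

set_option linter.unusedSectionVars false

namespace Pool.Agent.MP_09d684_lc.H42

open Set Function

universe u v w

variable {M : Set ZFSet.{0}} [hM : IsZF M]

section Pigeon

variable {s : List Pick} {H D D' : Rs M} {n : ℕ}

theorem ColInf.union (h : ColInf H n) (hu : ∀ e, e ∈ H → e ∈ D ∨ e ∈ D') :
    ColInf D n ∨ ColInf D' n := by
  by_contra hc
  simp only [ColInf, not_or, not_forall, not_exists, not_and] at hc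
  obtain ⟨⟨a, ha⟩, b, hb⟩ := hc
  obtain ⟨j, hj, h⟩ := h (max a b)
  exact (hu _ h).elim (ha j (by omega)) (hb j (by omega))

theorem Pos.union (h : Pos H) (hu : ∀ e, e ∈ H → e ∈ D ∨ e ∈ D') : Pos D ∨ Pos D' := by
  by_contra hc
  simp only [Pos, not_or, not_forall, not_exists, not_and] at hc
  obtain ⟨⟨a, ha⟩, b, hb⟩ := hc
  obtain ⟨j, hj, h⟩ := h (max a b)
  exact (h.union hu).elim (ha j (by omega)) (hb j (by omega))

theorem Comp.of_even (h : Comp s H) (hD : ∀ e, e ∈ H → ¬ Nxt s e → e ∈ D) (hs : s.length % 2 = 0)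
    (hp : Pos D) : Comp s D :=
  ⟨hp, fun x hx m => (h.2 x hx m).imp fun j hj =>
    ⟨hj.1, hD _ hj.2 fun hn => (hn.2.2.1 hs x hx).1.false⟩⟩

theorem Comp.of_odd (h : Comp s H) (hD : ∀ e, e ∈ H → ¬ Nxt s e → e ∈ D) (hs : s.length % 2 = 1)
    (hp : ColInf D (s.getD (s.length / 2).unpair.1 (0, 0)).1) : Comp s D := by
  have : ∀ n, ColInf H n → ColInf D n := fun n hn => by
    by_cases h' : n = (s.getD (s.length / 2).unpair.1 (0, 0)).1
    · exact h' ▸ hp
    · exact fun m => (hn m).imp fun j hj => ⟨hj.1, hD _ hj.2 fun hn => h' (hn.2.2.2 hs)⟩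
  exact ⟨fun m => (h.1 m).imp fun n hn => ⟨hn.1, this n hn.2⟩, fun x hx => this _ (h.2 x hx)⟩

theorem Comp.pigeon (h : Comp s H) {g : Pick → Prop} (hg : Tm M g) :
    ∃ D : Rs M, D ⊆ H ∧ Comp s D ∧
      ((∀ e, e ∈ D → Nxt s e → g e) ∨ ∀ e, e ∈ D → Nxt s e → ¬ g e) := by
  let D : Rs M := mkS (fun e => e ∈ H ∧ (Nxt s e → g e)) (by fun_prop)
  let D' : Rs M := mkS (fun e => e ∈ H ∧ (Nxt s e → ¬ g e)) (by fun_prop)
  have hu : ∀ e, e ∈ H → e ∈ D ∨ e ∈ D' := fun e he => by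
    by_cases hg : g e
    exacts [Or.inl ⟨he, fun _ => hg⟩, Or.inr ⟨he, fun _ => hg⟩]
  have h₁ : ∀ e, e ∈ H → ¬ Nxt s e → e ∈ D := fun e he hn => ⟨he, fun h => absurd h hn⟩
  have h₂ : ∀ e, e ∈ H → ¬ Nxt s e → e ∈ D' := fun e he hn => ⟨he, fun h => absurd h hn⟩
  have : Comp s D ∨ Comp s D' := by
    rcases Nat.mod_two_eq_zero_or_one s.length with hs | hs
    · exact (h.1.union hu).imp (h.of_even h₁ hs) (h.of_even h₂ hs)
    · exact ((h.2 _ (getD_mem hs)).union hu).imp (h.of_odd h₁ hs) (h.of_odd h₂ hs)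
  rcases this with h | h
  · exact ⟨D, fun _ h => h.1, h, Or.inl fun _ h => h.2⟩
  · exact ⟨D', fun _ h => h.1, h, Or.inr fun _ h => h.2⟩

end Pigeon

/-- Moves of player II. -/
abbrev Mv (M : Set ZFSet.{0}) := Pick × Rs M × Bool

/-- The last reservoir played by II. -/
def lastB (A : Rs M) (b : List (Mv M)) : Rs M := (b.getD (b.length - 1) ((0, 0), A, false)).2.1

theorem lastB_concat (A : Rs M) (b : List (Mv M)) (m : Mv M) : lastB A (b ++ [m]) = m.2.1 := by
  simp [lastB]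

def LI (A : Rs M) (b : List (Mv M)) (a : Rs M) : Prop :=
  a ⊆ lastB A b ∧ Comp (b.map Prod.fst) a

def LII (b : List (Mv M)) (a : Rs M) (m : Mv M) : Prop :=
  m.1 ∈ a ∧ Nxt (b.map Prod.fst) m.1 ∧ m.2.1 ⊆ a ∧ Comp (b.map Prod.fst ++ [m.1]) m.2.1

/-- The answers of a strategy for II to a list of moves of I. -/
noncomputable def resp (τ : In M (List (Rs M) → Mv M)) (l : List (Rs M)) : List (Mv M) :=
  pre (fun k => τ (l.take (k + 1))) l.length

theorem resp_concat (τ : In M (List (Rs M) → Mv M)) (l : List (Rs M)) (a : Rs M) :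
    resp τ (l ++ [a]) = resp τ l ++ [τ (l ++ [a])] := by
  simp only [resp, List.length_append, List.length_singleton, pre_succ]
  congr 1
  · exact pre_congr fun k hk => by rw [List.take_append_of_le_length hk]
  · rw [List.take_of_length_le (by simp)]

theorem resp_pre (τ : In M (List (Rs M) → Mv M)) (a : ℕ → Rs M) (n : ℕ) :
    resp τ (pre a n) = pre (fun k => τ (pre a (k + 1))) n := by
  induction n with
  | zero => rfl
  | succ n ih => rw [pre_succ a, resp_concat, ih, ← pre_succ, pre_succ (fun k => τ (pre a (k + 1)))]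

section Tm

variable {Γ : Type*} [Code Γ] [Cd M Γ] {A a : Γ → Rs M} {b : Γ → List (Mv M)} {m : Γ → Mv M}

@[fun_prop] theorem tm_lastB (hA : Tm M A) (hb : Tm M b) : Tm M (fun x => lastB (A x) (b x)) := by
  unfold lastB; fun_prop

@[fun_prop] theorem tm_LI (hA : Tm M A) (hb : Tm M b) (ha : Tm M a) :
    Tm M (fun x => LI (A x) (b x) (a x)) := by
  unfold LI; fun_prop

@[fun_prop] theorem tm_LII (hb : Tm M b) (ha : Tm M a) (hm : Tm M m) :
    Tm M (fun x => LII (b x) (a x) (m x)) := by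
  unfold LII; fun_prop

@[fun_prop] theorem tm_resp {τ : Γ → In M (List (Rs M) → Mv M)} {l : Γ → List (Rs M)}
    (hτ : Tm M τ) (hl : Tm M l) : Tm M (fun x => resp (τ x) (l x)) := by
  unfold resp; fun_prop

end Tm

theorem pre_getD_isPrefix {α : Type u} (l : List α) (d : α) {n : ℕ} (h : n ≤ l.length) :
    pre (fun k => l.getD k d) n <+: l := by
  simpa only [pre_getD] using pre_isPrefix (fun k => l.getD k d) h

theorem all_concat {α : Type u} {P : List α → α → Prop} {l : List α} {a : α}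
    (h : ∀ l' a', l' ++ [a'] <+: l → P l' a') (ha : P l a) :
    ∀ l' a', l' ++ [a'] <+: l ++ [a] → P l' a' := fun l' a' h' => by
  rcases List.prefix_concat_iff.1 h' with h' | h'
  · obtain ⟨rfl, h''⟩ := List.append_inj' h' rfl
    obtain rfl := List.singleton_injective h''
    exact ha
  · exact h l' a' h'

variable [hA : Fact (ADR M)] {A : Rs M} {Q : In M (ℕ → Pick) → In M (ℕ → Bool) → Prop}

/-- The winning condition for II. -/
def Win (A : Rs M) (Q : In M (ℕ → Pick) → In M (ℕ → Bool) → Prop) (a : In M (ℕ → Rs M))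
    (b : In M (ℕ → Mv M)) : Prop :=
  (∀ n, (∀ k, k ≤ n → LI A (pre b k) (a k)) → LII (pre b n) (a n) (b n)) ∧
    ((∀ n, LI A (pre b n) (a n)) →
      Q (mkF (fun n => (b n).1) (by fun_prop)) (mkF (fun n => (b n).2.2) (by fun_prop)))

theorem kas_one {σ : In M (List (Mv M) → Rs M)}
    (hσ : ∀ (a : In M (ℕ → Rs M)) (b : In M (ℕ → Mv M)), (∀ n, a n = σ (pre b n)) → ¬ Win A Q a b) :
    ∃ H : Rs M, H ⊆ A ∧ Pos H ∧ Nice H ∧ ∀ (y : In M (ℕ → Pick)) z, IsPt [] H y → ¬ Q y z := by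
  let d : Mv M := ((0, 0), A, false)
  have legal : ∀ b : List (Mv M), (∀ b' m, b' ++ [m] <+: b → LII b' (σ b') m) → LI A b (σ b) := by
    intro b hb
    by_contra hc
    refine hσ (mkF (fun n => σ (pre (fun k => b.getD k d) n)) (by fun_prop))
      (mkF (fun k => b.getD k d) (by fun_prop)) (fun _ => rfl) ⟨fun n hn => ?_, fun h => ?_⟩
    · have hn' : n < b.length := by
        by_contra h
        exact hc (by simpa only [mkF_coe, pre_getD] using hn b.length (by omega))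
      refine hb _ _ ?_
      simpa only [pre_succ, mkF_coe] using pre_getD_isPrefix b d (show n + 1 ≤ _ from hn')
    · exact absurd (by simpa only [mkF_coe, pre_getD] using h b.length) hc
  obtain ⟨H, h₁, h₂, h₃, L, hL, h₄, h₅⟩ := fusion (M := M) (S := List (Mv M)) (s := []) (A := A)
    (G := fun w b => (∀ b' m, b' ++ [m] <+: b → LII b' (σ b') m) ∧
      b.map (fun m => (m.1, m.2.2)) = w)
    (N := fun b _ b' => ∃ m, b' = b ++ [m]) (res := σ) (by fun_prop) (by fun_prop) (by fun_prop)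
    ⟨[], ⟨by simp, rfl⟩, legal [] (by simp)⟩ (by
      rintro _ b ⟨e, c⟩ R ⟨h₁, rfl⟩ h₂ h₃ h₄ h₅
      simp only [List.nil_append, List.map_map, Function.comp_def] at h₃ h₅ ⊢
      have h₆ := all_concat (P := fun b' m => LII b' (σ b') m) (a := (e, R, c)) h₁ ⟨h₂, h₃, h₄, h₅⟩
      have h₇ := legal _ h₆
      rw [LI, lastB_concat, List.map_append] at h₇
      exact ⟨b ++ [(e, R, c)], ⟨h₆, by simp⟩, ⟨_, rfl⟩, h₇⟩)
  refine ⟨H, h₁, comp_nil.1 h₂, h₃, fun y z hy hQ => ?_⟩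
  have hc : ∀ n, Ch [] (· ∈ H) ((pre (fun k => (y k, z k)) n).map Prod.fst) := fun n => by
    rw [map_pre]; exact hy.ch n
  have e := chain_eq_pre (l := fun n => L (pre (fun k => (y k, z k)) n)) d
    (List.map_eq_nil_iff.1 (h₄ _ (hc 0)).1.2) fun n => by
      have := hc (n + 1)
      rw [pre_succ] at this ⊢
      exact h₅ _ _ this
  set b : ℕ → Mv M := fun k => (L (pre (fun k => (y k, z k)) (k + 1))).getD k d with hb
  have hb' : Tm M b := by rw [hb]; fun_prop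
  have e' : ∀ n, ((b n).1, (b n).2.2) = (y n, z n) := fun n => by
    have := (h₄ _ (hc (n + 1))).1.2
    rw [e, map_pre, pre_succ, pre_succ] at this
    exact List.singleton_injective (List.append_inj' this rfl).2
  refine hσ (mkF (fun n => σ (pre b n)) (by fun_prop)) (mkF b hb') (fun _ => rfl)
    ⟨fun n _ => (h₄ _ (hc (n + 1))).1.1 _ _ (by rw [e, pre_succ]; exact List.prefix_rfl),
      fun _ => ?_⟩
  convert hQ using 1
  · exact In.ext_fun fun n => (Prod.ext_iff.1 (e' n)).1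
  · exact In.ext_fun fun n => (Prod.ext_iff.1 (e' n)).2

section Two

variable {τ : In M (List (Rs M) → Mv M)}

theorem kas_legal
    (hτ : ∀ (a : In M (ℕ → Rs M)) (b : In M (ℕ → Mv M)), (∀ n, b n = τ (pre a (n + 1))) →
      Win A Q a b) {l : List (Rs M)} {a : Rs M}
    (hl : ∀ l' a', l' ++ [a'] <+: l → LI A (resp τ l') a') (ha : LI A (resp τ l) a) :
    LII (resp τ l) a (τ (l ++ [a])) := by
  have h₁ := (hτ (mkF (fun k => (l ++ [a]).getD k A) (by fun_prop))
    (mkF (fun n => τ (pre (fun k => (l ++ [a]).getD k A) (n + 1))) (by fun_prop))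
    (fun _ => rfl)).1 l.length fun k hk => by
      simp only [mkF_coe, ← resp_pre]
      refine all_concat hl ha _ _ ?_
      simpa only [pre_succ] using pre_getD_isPrefix (l ++ [a]) A
        (show k + 1 ≤ _ by simpa using hk)
  have h₂ := pre_getD (l ++ [a]) A
  rw [List.length_append, List.length_singleton] at h₂
  simp only [mkF_coe, ← resp_pre, h₂] at h₁
  rw [pre_succ] at h₂
  obtain ⟨h₃, h₄⟩ := List.append_inj' h₂ rfl
  rwa [h₃, List.singleton_injective h₄] at h₁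

/-- The pick `e` is realized by `τ` after the position `l`, keeping the future part of `D`. -/
def Good (A : Rs M) (τ : In M (List (Rs M) → Mv M)) (l : List (Rs M)) (e : Pick) (D : Rs M) :
    Prop :=
  ∃ a, LI A (resp τ l) a ∧ (τ (l ++ [a])).1 = e ∧
    ∀ x, x ∈ D → Fut ((resp τ l).map Prod.fst ++ [e]) x → x ∈ (τ (l ++ [a])).2.1

@[fun_prop] theorem tm_Good {Γ : Type*} [Code Γ] [Cd M Γ] {l : Γ → List (Rs M)} {e : Γ → Pick}
    {D : Γ → Rs M} (hl : Tm M l) (he : Tm M e) (hD : Tm M D) :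
    Tm M (fun x => Good A τ (l x) (e x) (D x)) := by
  unfold Good; fun_prop

theorem Good.mono {l : List (Rs M)} {e : Pick} {D D' : Rs M} (h : Good A τ l e D)
    (hD : ∀ x, x ∈ D' → Fut ((resp τ l).map Prod.fst ++ [e]) x → x ∈ D) : Good A τ l e D' :=
  h.imp fun _ h => ⟨h.1, h.2.1, fun x hx hf => h.2.2 x (hD x hx hf) hf⟩

theorem kas_realize
    (hτ : ∀ (a : In M (ℕ → Rs M)) (b : In M (ℕ → Mv M)), (∀ n, b n = τ (pre a (n + 1))) →
      Win A Q a b) {l : List (Rs M)} {D : Rs M}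
    (hl : ∀ l' a', l' ++ [a'] <+: l → LI A (resp τ l') a') (hD : LI A (resp τ l) D) :
    ∃ D' : Rs M, D' ⊆ D ∧ Comp ((resp τ l).map Prod.fst) D' ∧
      ∀ e, e ∈ D' → Nxt ((resp τ l).map Prod.fst) e → Good A τ l e D' := by
  set s := (resp τ l).map Prod.fst with hs
  obtain ⟨H, h₁, h₂, -, L, -, h₄, -⟩ := fusion (M := M) (S := Rs M) (s := s) (A := D)
    (G := fun w R => ∀ x, w = [x] → Good A τ l x.1 R ∨
      ∀ R', R' ⊆ R → Comp (s ++ [x.1]) R' → ¬ Good A τ l x.1 R')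
    (N := fun _ _ _ => True) (res := fun R => R) (by fun_prop) (by fun_prop) (by fun_prop)
    ⟨D, by simp, In.subset_refl _, hD.2⟩ (by
      intro w R₀ x R _ _ _ _ h₅
      by_cases h : w = [] ∧ ∃ R', R' ⊆ R ∧ Comp (s ++ [x.1]) R' ∧ Good A τ l x.1 R'
      · obtain ⟨rfl, R', k₁, k₂, k₃⟩ := h
        refine ⟨R', fun y hy => ?_, trivial, k₁, by simpa using k₂⟩
        obtain rfl := List.singleton_injective hy
        exact Or.inl k₃
      · refine ⟨R, fun y hy => Or.inr fun R' k₁ k₂ k₃ => ?_, trivial, In.subset_refl _, h₅⟩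
        obtain ⟨rfl, k₄⟩ := List.append_inj' (show w ++ [x] = [] ++ [y] from hy) rfl
        obtain rfl := List.singleton_injective k₄
        exact h ⟨rfl, R', k₁, k₂, k₃⟩)
  have dich : ∀ e, e ∈ H → Nxt s e → Good A τ l e H ∨
      ∀ R', R' ⊆ H → Comp (s ++ [e]) R' → ¬ Good A τ l e R' := fun e he hn => by
    obtain ⟨k₁, k₂⟩ := h₄ [(e, false)] (ch_concat (w := []).2 ⟨ch_nil, he, by simpa using hn⟩)
    refine (k₁ _ rfl).imp (fun h => h.mono k₂) fun h R' k₃ k₄ k₅ =>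
      h (futS (s ++ [e]) R') (fun x hx => k₂ x (k₃ hx.1) hx.2) k₄.futS
        (k₅.mono fun x hx _ => hx.1)
  obtain ⟨D', k₁, k₂, k₃ | k₃⟩ := h₂.pigeon (g := fun e => Good A τ l e H) (by fun_prop)
  · exact ⟨D', In.subset_trans k₁ h₁, k₂, fun e he hn => (k₃ e he hn).mono fun x hx _ => k₁ hx⟩
  · have k₄ : LI A (resp τ l) D' := ⟨In.subset_trans k₁ (In.subset_trans h₁ hD.1), k₂⟩
    obtain ⟨k₅, k₆, k₇, k₈⟩ := kas_legal hτ hl k₄
    exact absurd ⟨D', k₄, rfl, fun x hx _ => hx⟩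
      ((dich _ (k₁ k₅) k₆).resolve_left (k₃ _ k₅ k₆) _ (In.subset_trans k₇ k₁) k₈)

theorem kas_two (hp : Pos A)
    (hτ : ∀ (a : In M (ℕ → Rs M)) (b : In M (ℕ → Mv M)), (∀ n, b n = τ (pre a (n + 1))) →
      Win A Q a b) :
    ∃ H : Rs M, H ⊆ A ∧ Pos H ∧ Nice H ∧ ∃ f : In M (List Pick → Bool),
      ∀ y : In M (ℕ → Pick), IsPt [] H y →
        Q y (mkF (fun t => f (pre y (t + 1))) (by fun_prop)) := by
  obtain ⟨H, h₁, h₂, h₃, L, hL, h₄, h₅⟩ := fusion (M := M) (S := List (Rs M) × Rs M) (s := [])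
    (A := A)
    (G := fun w z => (∀ l' a', l' ++ [a'] <+: z.1 → LI A (resp τ l') a') ∧
      (resp τ z.1).map Prod.fst = w.map Prod.fst ∧
      ∀ e, e ∈ z.2 → Nxt ((resp τ z.1).map Prod.fst) e → Good A τ z.1 e z.2)
    (N := fun z _ z' => ∃ a, z'.1 = z.1 ++ [a]) (res := fun z => z.2) (by fun_prop) (by fun_prop)
    (by fun_prop)
    (by
      obtain ⟨D, k₁, k₂, k₃⟩ := kas_realize hτ (l := []) (D := A) (by simp)
        ⟨In.subset_refl _, comp_nil.2 hp⟩
      exact ⟨([], D), ⟨by simp, rfl, k₃⟩, k₁, k₂⟩)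
    (by
      rintro w ⟨l, D⟩ x R ⟨h₁, h₂, h₃⟩ h₄ h₅ h₆ h₇
      simp only [List.nil_append, ← h₂] at h₅ h₇ ⊢
      obtain ⟨a, k₁, k₂, k₃⟩ := h₃ _ h₄ h₅
      have k₄ : (resp τ (l ++ [a])).map Prod.fst = (resp τ l).map Prod.fst ++ [x.1] := by
        simp [resp_concat, k₂]
      obtain ⟨D', k₅, k₆, k₇⟩ := kas_realize hτ (l := l ++ [a])
        (D := futS ((resp τ l).map Prod.fst ++ [x.1]) R) (all_concat h₁ k₁)
        ⟨fun y hy => by rw [resp_concat, lastB_concat]; exact k₃ y (h₆ hy.1) hy.2,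
          k₄ ▸ h₇.futS⟩
      exact ⟨(l ++ [a], D'), ⟨all_concat h₁ k₁, by rw [k₄, List.map_append, ← h₂]; rfl, k₇⟩,
        ⟨a, rfl⟩, In.subset_trans k₅ futS_subset, k₄ ▸ k₆⟩)
  refine ⟨H, h₁, comp_nil.1 h₂, h₃,
    mkF (fun t => (τ (L (t.map fun e => (e, false))).1).2.2) (by fun_prop), fun y hy => ?_⟩
  have hc : ∀ n, Ch [] (· ∈ H) ((pre (fun k => (y k, false)) n).map Prod.fst) := fun n => by
    rw [map_pre]; exact hy.ch n
  have e := chain_eq_pre (l := fun n => (L (pre (fun k => (y k, false)) n)).1) A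
    (by simpa [resp, pre] using (h₄ _ (hc 0)).1.2.1) fun n => by
      have := hc (n + 1)
      rw [pre_succ] at this ⊢
      exact h₅ _ _ this
  set a : ℕ → Rs M := fun k => (L (pre (fun k => (y k, false)) (k + 1))).1.getD k A with ha
  have ha' : Tm M a := by rw [ha]; fun_prop
  convert (hτ (mkF a ha') (mkF (fun n => τ (pre a (n + 1))) (by fun_prop)) fun _ => rfl).2
    fun n => ?_ using 1
  · refine In.ext_fun fun n => ?_
    have := (h₄ _ (hc (n + 1))).1.2.1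
    rw [e, resp_pre, map_pre, map_pre, pre_succ, pre_succ (fun k => y k)] at this
    exact (List.singleton_injective (List.append_inj' this rfl).2).symm
  · refine In.ext_fun fun n => ?_
    simp only [mkF_ap, map_pre, e]
  · simp only [mkF_coe, ← resp_pre]
    exact (h₄ _ (hc (n + 1))).1.1 _ _ (by rw [e, pre_succ])

end Two

/-- Ramsey property with continuous uniformization. -/
theorem kastanas (hp : Pos A)
    (hQ : Tm M (fun z : In M (ℕ → Pick) × In M (ℕ → Bool) => Q z.1 z.2)) :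
    ∃ H : Rs M, H ⊆ A ∧ Pos H ∧ Nice H ∧
      ((∀ (y : In M (ℕ → Pick)) z, IsPt [] H y → ¬ Q y z) ∨ ∃ f : In M (List Pick → Bool),
        ∀ y : In M (ℕ → Pick), IsPt [] H y →
          Q y (mkF (fun t => f (pre y (t + 1))) (by fun_prop))) := by
  obtain ⟨σ, hσ⟩ | ⟨τ, hτ⟩ := det (M := M) (W := Win A Q) (by unfold Win; fun_prop)
  · obtain ⟨H, h₁, h₂, h₃, h₄⟩ := kas_one hσ
    exact ⟨H, h₁, h₂, h₃, Or.inl h₄⟩
  · obtain ⟨H, h₁, h₂, h₃, h₄⟩ := kas_two hp hτ
    exact ⟨H, h₁, h₂, h₃, Or.inr h₄⟩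

/-- Ramsey property. -/
theorem ramsey (hp : Pos A) {X : In M (ℕ → Pick) → Prop} (hX : Tm M X) :
    ∃ H : Rs M, H ⊆ A ∧ Pos H ∧ ((∀ y : In M (ℕ → Pick), IsPt [] H y → ¬ X y) ∨
      ∀ y : In M (ℕ → Pick), IsPt [] H y → X y) := by
  obtain ⟨H, h₁, h₂, -, h₃⟩ := kastanas (Q := fun y _ => X y) hp (by fun_prop)
  exact ⟨H, h₁, h₂, h₃.imp (fun h y => h y (Classical.arbitrary _)) fun ⟨_, h⟩ => h⟩

end Pool.Agent.MP_09d684_lc.H42
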