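import Pool.Agent.MP_09d684_lc.H42.Coding

/-! Preservation of strong partition cardinals below `Θ` over models of `AD_ℝ`. -/

set_option linter.unusedSectionVars false

namespace Pool.Agent.MP_09d684_lc.H42

open Set Function

variable {M : Set ZFSet.{0}} [hM : IsZF M] [hA : Fact (ADR M)]

theorem distr_Iio {κ : Ordinal.{0}} [Fact (enc κ ∈ M)] : Distr M (Iio κ) := by
  intro D hD opn dns p hp
  rcases isEmpty_or_nonempty (Iio κ) with h | h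
  · exact ⟨p, hp, Le.rfl, fun a => isEmptyElim a⟩
  · exact decide_all hD opn dns hp

theorem preserve {κ : Ordinal.{0}} (hκ : StrongPartition M κ) (hΘ : BelowTheta M κ)
    {G : Set ZFSet.{0}} (hG : IsGeneric M G) : StrongPartition (Ext M G) κ := by
  obtain ⟨h₀, hω, hc, hp⟩ := hκ
  have : Fact (enc κ ∈ M) := ⟨h₀⟩
  have : Nonempty (Iio κ) := ⟨⟨0, Ordinal.omega0_pos.trans hω⟩⟩
  refine ⟨hG.subset_ext h₀, hω, fun α hα f hf => ?_, fun μ h₂ hμ c => ?_⟩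
  · have := fact_lt (M := M) hα
    have e : enc {z : Iio κ × Iio α | z.2 = f.val z.1} = enc f.val := ZFSet.ext fun x => by
      simp [mem_enc_set, mem_enc_fun]
    exact hc α hα ⟨f.val, e ▸ hG.barren (distr_Iio.prod distr_Iio) (e ▸ f.mem)⟩ hf
  have hK : Reg M (Iio κ) := reg_of_arrow hω hc one_lt_two
    (hp 2 le_rfl ((Ordinal.natCast_lt_omega0 2).trans hω))
  have : RC M (Iio κ) := by
    obtain ⟨f, hf⟩ := hΘ
    exact ⟨⟨f, by fun_prop, hf⟩⟩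
  have : RC M (In M (Set (Iio κ))) := RC.power
  obtain ⟨F, hF, mono, h⟩ := hG.truth (In M (Set (Iio κ)) × Iio κ) c.mem
  have h₁ : ∀ (X : In M (Set (Iio κ))) (Y : Big (Ext M G) κ) (i : Iio κ), Y.1.val = X.val →
      ((c.val Y).1 = i.1 ↔ ∃ q, (cl q).1 ∈ G ∧ F q (X, i)) := fun X Y i e => by
    rw [← h, mem_enc_fun]
    constructor
    · intro h
      exact ⟨Y, congrArg₂ ZFSet.pair (congrArg enc e) (congrArg Ordinal.toZFSet h)⟩
    · rintro ⟨Z, h⟩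
      obtain ⟨k₁, k₂⟩ := ZFSet.pair_inj.1 h
      have : Z = Y := Subtype.ext (In.ext (Set.ext fun a => by
        rw [e, ← enc_mem_enc_set (M := M), ← enc_mem_enc_set (M := M),
          show enc Z.1.val = enc X.val from k₁]))
      exact this ▸ Ordinal.toZFSet_injective k₂
  let up : ∀ X : In M (Set (Iio κ)), Unb X → Big (Ext M G) κ := fun X hX =>
    ⟨⟨X.val, hG.subset_ext X.mem⟩, hK.full_of_unb hX⟩
  obtain ⟨q, hq, ⟨H, i, k₁, k₂, k₃⟩ | ⟨X, k₁, k₂⟩⟩ := hG.meets'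
    (D := fun q => (∃ H i, Unb H ∧ i < (⟨μ, hμ⟩ : Iio κ) ∧
        ∀ X, X ⊆ H → Unb X → Dn (fun r => F r (X, i)) q) ∨
      ∃ X, Unb X ∧ ∀ i, i < (⟨μ, hμ⟩ : Iio κ) → ∀ r, Pos r → Le r q → ¬ F r (X, i))
    (by fun_prop) fun p hp' => hK.main (F := fun q X i => F q (X, i))
      (fun c hc' hμ' => by
        obtain ⟨H, k₁, i, k₂⟩ := (hp (μ + 1) (h₂.trans le_self_add) (succ_lt hω hc hμ)).part
          (μ := ⟨μ, hμ⟩) (lt_add_one μ) hc' hμ'
        exact ⟨H, unb_of_full hω hc k₁, i, fun X k₃ k₄ => k₂ X k₃ (hK.full_of_unb k₄)⟩)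
      (by fun_prop) (fun _ _ _ _ => mono _ _ _) hp'
  · refine ⟨up H k₁, ⟨i.1, k₂⟩, fun Y hY => Subtype.ext ?_⟩
    let X : In M (Set (Iio κ)) := ⟨Y.1.val, hG.barren distr_Iio Y.1.mem⟩
    exact (h₁ X Y i rfl).2 (hG.meets_below (by fun_prop) hq
      (k₃ X hY (unb_of_full hω hc Y.2)))
  · obtain ⟨r, k₃, k₄⟩ := (h₁ X (up X k₁) ⟨_, (c.val (up X k₁)).2.trans hμ⟩ rfl).1 rfl
    obtain ⟨s, k₅, k₆, k₇⟩ := hG.dir' k₃ hq
    exact absurd (mono _ _ _ k₄ k₆) (k₂ _ (c.val (up X k₁)).2 s (hG.pos k₅) k₇)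

end Pool.Agent.MP_09d684_lc.H42
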