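import Pool.Agent.MP_09d684_lc.H42.Part

/-! Ordinals of the model: a strong partition cardinal is regular. -/

set_option linter.unusedSectionVars false

namespace Pool.Agent.MP_09d684_lc.H42

open Set Function

universe u v w

section En

variable {J : Type v} {K : Type u} [LinearOrder K] [WellFoundedLT K] [Nonempty K]
  {r : J → J → Prop}

/-- The least `r`-increasing map into `X`. -/
noncomputable def en (wf : WellFounded r) (X : K → Prop) : J → K :=
  wf.fix fun a ih => mn fun y => X y ∧ ∀ b (h : r b a), ih b h < y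

theorem en_eq (wf : WellFounded r) (X : K → Prop) (a : J) :
    en wf X a = mn fun y => X y ∧ ∀ b, r b a → en wf X b < y := wf.fix_eq _ _

theorem en_spec {wf : WellFounded r} {X : K → Prop} {a : J}
    (h : ∃ y, X y ∧ ∀ b, r b a → en wf X b < y) :
    X (en wf X a) ∧ ∀ b, r b a → en wf X b < en wf X a := by
  rw [en_eq wf X a]
  exact mn_spec h

theorem en_le {wf : WellFounded r} {X : K → Prop} {f : J → K} (h₁ : ∀ a, X (f a))
    (h₂ : ∀ a b, r a b → f a < f b) (a : J) : en wf X a ≤ f a := by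
  induction a using wf.induction with | _ a ih
  rw [en_eq]
  exact mn_le ⟨h₁ a, fun b hb => (ih b hb).trans_lt (h₂ b a hb)⟩

theorem en_cand {wf : WellFounded r} {X : K → Prop} {f : J → K} (h₁ : ∀ a, X (f a))
    (h₂ : ∀ a b, r a b → f a < f b) (a : J) : ∃ y, X y ∧ ∀ b, r b a → en wf X b < y :=
  ⟨f a, h₁ a, fun b hb => (en_le h₁ h₂ b).trans_lt (h₂ b a hb)⟩

theorem en_range {X : Set K} (h : ∀ a : K, ∃ y, y ∈ X ∧ ∀ b, b < a →
    en wellFounded_lt (· ∈ X) b < y) :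
    StrictMono (en (wellFounded_lt (α := K)) (· ∈ X)) ∧
      range (en (wellFounded_lt (α := K)) (· ∈ X)) = X := by
  have h₁ : StrictMono (en (wellFounded_lt (α := K)) (· ∈ X)) :=
    fun a b hab => (en_spec (h b)).2 a hab
  refine ⟨h₁, Subset.antisymm ?_ fun y hy => ?_⟩
  · rintro _ ⟨a, rfl⟩
    exact (en_spec (h a)).1
  · by_contra hc
    have : ∀ a : K, en wellFounded_lt (· ∈ X) a < y := fun a => by
      induction a using (wellFounded_lt (α := K)).induction with | _ a ih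
      refine lt_of_le_of_ne ?_ fun e => hc ⟨a, e⟩
      rw [en_eq]
      exact mn_le ⟨hy, ih⟩
    exact (this y).not_ge h₁.le_apply

theorem full_of_cand {X : Set K} (h : ∀ a : K, ∃ y, y ∈ X ∧ ∀ b, b < a →
    en wellFounded_lt (· ∈ X) b < y) : Nonempty (K ≃o X) :=
  ⟨((en_range h).1.orderIso _).trans (OrderIso.setCongr _ _ (en_range h).2)⟩

theorem full_of_strictMono {X : Set K} {f : K → K} (h₁ : ∀ a, f a ∈ X) (h₂ : StrictMono f) :
    Nonempty (K ≃o X) := full_of_cand (en_cand h₁ fun _ _ h => h₂ h)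

variable {M : Set ZFSet.{0}} [IsZF M] [Code J] [Cd M J] [Bd M J] [Code K] [Cd M K] [TmLT M K]

theorem tm_en (wf : WellFounded r)
    (hr : Tm M (fun z : J × J => r z.1 z.2)) {X : K → Prop} (hX : Tm M X) : Tm M (en wf X) :=
  tm_wf wf hr (Φ := fun _ R s => s = mn fun y => X y ∧ ∀ b t, R b t → t < y) (by fun_prop)
    fun a s => by
      rw [en_eq]
      simp

theorem exists_collapse (hr : Tm M (fun z : J × J => r z.1 z.2)) {f : J → K} (hf : ∀ a b, r a b → f a < f b) :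
    ∃ g : J → K, Tm M g ∧ (∀ a, g a ≤ f a) ∧ ∀ a b, r a b → g a < g b := by
  have wf : WellFounded r := Subrelation.wf (fun {a b} h => hf a b h) (InvImage.wf f wellFounded_lt)
  exact ⟨en wf fun _ => True, tm_en wf hr (by fun_prop), en_le (fun _ => trivial) hf,
    fun a b h => (en_spec (en_cand (fun _ => trivial) hf b)).2 a h⟩

end En

variable {M : Set ZFSet.{0}} [hM : IsZF M] {κ : Ordinal.{0}}

theorem enc_Iio (a : Iio κ) : enc a = a.1.toZFSet := rfl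

instance [h : Fact (enc κ ∈ M)] : Cd M (Iio κ) where
  inj := fun _ _ h => Subtype.ext (Ordinal.toZFSet_injective h)
  mem := fun a => tr h.out (Ordinal.toZFSet_mem_toZFSet_iff.2 a.2)
  rng := PD.congr (D1.memc ⟨_, h.out⟩) fun _ => Ordinal.mem_toZFSet_iff.trans
    ⟨fun ⟨a, h₁, h₂⟩ => ⟨⟨a, h₁⟩, h₂⟩, fun ⟨a, h⟩ => ⟨a.1, a.2, h⟩⟩

instance [h : Fact (enc κ ∈ M)] : Bd M (Iio κ) :=
  ⟨⟨⟨_, h.out⟩, fun a => Ordinal.toZFSet_mem_toZFSet_iff.2 a.2⟩⟩

instance [h : Fact (enc κ ∈ M)] : TmLT M (Iio κ) :=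
  ⟨(tm_E (tm_ι (tm_fst tm_id)) (tm_ι (tm_snd tm_id))).congr' fun _ =>
    Ordinal.toZFSet_mem_toZFSet_iff⟩

theorem fact_lt [h : Fact (enc κ ∈ M)] {μ : Ordinal.{0}} (hμ : μ < κ) : Fact (enc μ ∈ M) :=
  ⟨Cd.mem (⟨μ, hμ⟩ : Iio κ)⟩

variable [hκ : Fact (enc κ ∈ M)] [Nonempty (Iio κ)]

theorem full_iff {X : In M (Set (Iio κ))} : Nonempty (Iio κ ≃o X.val) ↔
    ∃ f : In M (Iio κ → Iio κ), (∀ a b, a < b → f a < f b) ∧ ∀ a, f a ∈ X := by
  refine ⟨fun ⟨e⟩ => ?_, fun ⟨f, h₁, h₂⟩ => full_of_strictMono h₂ h₁⟩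
  have h := en_cand (wf := wellFounded_lt) (X := (· ∈ X.val)) (f := fun a => (e a).1)
    (fun a => (e a).2) fun a b h => e.strictMono h
  exact ⟨mkF _ (tm_en wellFounded_lt (by fun_prop)
    (X := (· ∈ X)) (by fun_prop)), (en_range h).1, fun a => (en_spec (h a)).1⟩

theorem tm_full : Tm M (fun X : In M (Set (Iio κ)) => Nonempty (Iio κ ≃o X.val)) := by
  simp only [full_iff]
  fun_prop

instance : Cd M (Big M κ) where
  inj := fun _ _ h => Subtype.ext (Cd.inj M h)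
  mem := fun X => X.1.mem
  rng := rng_of_tm (S := fun x => ∃ X : In M (Set (Iio κ)), Nonempty (Iio κ ≃o X.val) ∧ ι M X = x)
    (tm_ex (tm_and (tm_full.comp (by fun_prop)) (by fun_prop))) fun _ =>
    ⟨fun ⟨X, h₁, h₂⟩ => ⟨⟨X, h₁⟩, congrArg Subtype.val h₂⟩,
      fun ⟨X, h⟩ => ⟨X.1, X.2, Subtype.ext h⟩⟩

instance : Bd M (Big M κ) := ⟨(Bd.bd (M := M) (α := In M (Set (Iio κ)))).imp fun _ h X => h X.1⟩

theorem Arrow.part {μ : Iio κ} {ν : Ordinal.{0}} (hν : μ.1 < ν) (h : Arrow M κ ν)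
    {c : In M (Set (Iio κ)) → Iio κ} (hc : Tm M c) (hμ : ∀ X, c X ≤ μ) :
    ∃ H : In M (Set (Iio κ)), Nonempty (Iio κ ≃o H.val) ∧
      ∃ i, ∀ X, X ⊆ H → Nonempty (Iio κ ≃o X.val) → c X = i := by
  have h₁ : Tm M (fun X : Big M κ => c X.1) := hc.comp (Tm.of_enc fun _ => rfl)
  obtain ⟨H, i, hH⟩ := h ⟨fun X => ⟨(c X.1).1, lt_of_le_of_lt (α := Ordinal) (hμ X.1) hν⟩,
    (enc_fun_mem h₁ :)⟩
  refine ⟨H.1, H.2, c H.1, fun X h₂ h₃ => Subtype.ext ?_⟩
  exact (congrArg Subtype.val (hH ⟨X, h₃⟩ h₂)).trans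
    (congrArg Subtype.val (hH H fun _ h => h)).symm

section Card

variable (hω : Ordinal.omega0 < κ)
  (hc : ∀ α < κ, ∀ f : In M (Iio κ → Iio α), ¬ Injective f.val)

include hc in
theorem not_inj {g : Iio κ → Iio κ} (hg : Tm M g) (h : Injective g) {α : Iio κ}
    (hα : ∀ a, g a < α) : False :=
  hc α.1 α.2 ⟨fun a => ⟨(g a).1, hα a⟩, (enc_fun_mem hg :)⟩ fun _ _ e =>
    h (Subtype.ext (Subtype.mk.inj e))

include hω hc in
theorem succ_lt {γ : Ordinal.{0}} (h : γ < κ) : γ + 1 < κ := by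
  classical
  refine lt_of_le_of_ne (Order.add_one_le_of_lt h) fun e => ?_
  have h₁ : Ordinal.omega0 ≤ γ := Order.le_of_lt_add_one (e ▸ hω)
  have h₂ : ∀ y : Iio κ, y ≠ ⟨γ, h⟩ → 1 + y.1 < γ := fun y hy => by
    have : y.1 < γ := lt_of_le_of_ne (Order.le_of_lt_add_one (e ▸ y.2)) fun e => hy (Subtype.ext e)
    simpa only [Ordinal.one_add_of_omega0_le h₁] using add_lt_add_right this 1
  have h₃ : 0 < γ := Ordinal.omega0_pos.trans_le h₁
  obtain ⟨g, k₁, k₂, k₃⟩ := exists_collapse (M := M) (J := Iio κ) (K := Iio κ)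
    (r := fun y y' => y' ≠ ⟨γ, h⟩ ∧ (y = ⟨γ, h⟩ ∨ y < y'))
    (by fun_prop)
    (f := fun y => if hy : y = ⟨γ, h⟩ then ⟨0, h₃.trans h⟩ else ⟨1 + y.1, (h₂ y hy).trans h⟩)
    (by
      rintro a b ⟨k₁, k₂⟩
      rw [dif_neg k₁]
      split_ifs with ha
      · exact lt_of_lt_of_le (α := Ordinal) zero_lt_one le_self_add
      · exact add_lt_add_right (α := Ordinal) (k₂.resolve_left ha) 1)
  refine not_inj hc k₁ (fun a b e => ?_) (α := ⟨γ, h⟩) fun a => (k₂ a).trans_lt ?_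
  · by_contra hab
    by_cases hb : b = ⟨γ, h⟩
    · exact (k₃ b a ⟨hb ▸ hab, Or.inl hb⟩).ne' e
    by_cases ha : a = ⟨γ, h⟩
    · exact (k₃ a b ⟨hb, Or.inl ha⟩).ne e
    rcases lt_or_gt_of_ne hab with h | h
    exacts [(k₃ a b ⟨hb, Or.inr h⟩).ne e, (k₃ b a ⟨ha, Or.inr h⟩).ne' e]
  · split_ifs with ha
    exacts [h₃, h₂ a ha]

include hω hc in
theorem add_lt {b x : Ordinal.{0}} (hb : b < κ) (hx : x < κ) : b + x < κ := by
  classical
  by_contra hn
  have hl : Order.IsSuccPrelimit κ :=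
    Order.isSuccPrelimit_of_succ_lt fun a ha => succ_lt hω hc ha
  have h₂ : ∀ y < κ, 2 * y < κ := fun y hy => by
    conv_rhs => rw [← Ordinal.mul_omega0_dvd (a := 2) two_pos (Ordinal.natCast_lt_omega0 2)
      (Ordinal.isSuccPrelimit_iff_omega0_dvd.1 hl)]
    exact mul_lt_mul_of_pos_left hy two_pos
  have h₃ : ∀ y y' : Ordinal.{0}, y < y' → 2 * y + 1 < 2 * y' := fun y y' h =>
    calc 2 * y + 1 < 2 * y + 2 := add_lt_add_right one_lt_two _
      _ = 2 * (y + 1) := (mul_add_one _ _).symm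
      _ ≤ 2 * y' := mul_le_mul_right (Order.add_one_le_of_lt h) _
  obtain ⟨T, k₁, k₂, k₃⟩ := exists_collapse (M := M) (J := Iio κ) (K := Iio κ)
    (r := fun y y' => ⟨b, hb⟩ ≤ y ∧ y < y')
    (by fun_prop) (f := fun y => ⟨y.1 - b, (Ordinal.sub_le_self _ _).trans_lt y.2⟩)
    (by
      rintro a c ⟨k₁, k₂⟩
      exact Ordinal.lt_sub.2 (by rwa [Ordinal.add_sub_cancel_of_le k₁]))
  obtain ⟨D, k₄, -, k₅⟩ := exists_collapse (M := M) (J := Iio κ × Bool) (K := Iio κ)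
    (r := fun y y' => y.1 < y'.1 ∨ (y.1 = y'.1 ∧ y.2 = false ∧ y'.2 = true))
    (by fun_prop)
    (f := fun y => if y.2 = true then ⟨2 * y.1.1 + 1, succ_lt hω hc (h₂ _ y.1.2)⟩
      else ⟨2 * y.1.1, h₂ _ y.1.2⟩)
    (by
      rintro ⟨a, i⟩ ⟨c, j⟩ (k₁ | ⟨k₁, k₂, k₃⟩)
      · have := h₃ a c k₁
        refine lt_of_le_of_lt (b := ⟨2 * a.1 + 1, succ_lt hω hc (h₂ _ a.2)⟩) ?_
          (lt_of_lt_of_le (b := ⟨2 * c.1, h₂ _ c.2⟩) this ?_)
        · split_ifs
          exacts [le_rfl, le_self_add (α := Ordinal)]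
        · split_ifs
          exacts [le_self_add (α := Ordinal), le_rfl]
      · dsimp only at k₁ k₂ k₃
        subst k₁ k₂ k₃
        exact lt_add_one (2 * a.1))
  have k₆ : Injective D := fun a c e => by
    rcases lt_trichotomy a.1 c.1 with h | h | h
    · exact absurd e (k₅ a c (Or.inl h)).ne
    · refine Prod.ext h ?_
      cases ha : a.2 <;> cases hc : c.2
      exacts [rfl, absurd e (k₅ a c (Or.inr ⟨h, ha, hc⟩)).ne,
        absurd e (k₅ c a (Or.inr ⟨h.symm, hc, ha⟩)).ne', rfl]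
    · exact absurd e (k₅ c a (Or.inl h)).ne'
  have hx0 : 0 < x := pos_of_ne_zero fun e => hn (by simpa [e] using hb)
  refine not_inj hc (g := fun y => if y < ⟨b, hb⟩ then D (y, false) else D (T y, true))
    (by fun_prop) (fun y y' e => ?_) (α := D (max ⟨b, hb⟩ ⟨x, hx⟩, false)) fun y => ?_
  · dsimp only at e
    split_ifs at e with h h' h'
    · exact (Prod.ext_iff.1 (k₆ e)).1
    · simpa using k₆ e
    · simpa using k₆ e
    · have e' : T y = T y' := (Prod.ext_iff.1 (k₆ e)).1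
      by_contra hne
      rcases lt_or_gt_of_ne hne with k | k
      exacts [(k₃ y y' ⟨not_lt.1 h, k⟩).ne e', (k₃ y' y ⟨not_lt.1 h', k⟩).ne' e']
  · split_ifs with h
    · exact k₅ _ _ (Or.inl (lt_max_of_lt_left h))
    · exact k₅ _ _ (Or.inl (lt_max_of_lt_right ((k₂ y).trans_lt
        (Ordinal.sub_lt_of_lt_add (lt_of_lt_of_le y.2 (not_lt.1 hn)) hx0))))

include hω hc in
theorem full_tail {H X : Set (Iio κ)} (hH : Nonempty (Iio κ ≃o H)) (b : Iio κ)
    (h : ∀ y ∈ H, b ≤ y → y ∈ X) : Nonempty (Iio κ ≃o X) := by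
  obtain ⟨e⟩ := hH
  have he : StrictMono fun a => (e a).1 := fun a b h => e.strictMono h
  exact full_of_strictMono (f := fun x => (e ⟨b.1 + x.1, add_lt hω hc b.2 x.2⟩).1)
    (fun x => h _ (e _).2 (le_trans (le_self_add (α := Ordinal)) he.le_apply))
    fun x y h => he (add_lt_add_right (α := Ordinal) h b.1)

include hω hc in
theorem unb_of_full {X : In M (Set (Iio κ))} (h : Nonempty (Iio κ ≃o X.val)) : Unb X := fun β => by
  obtain ⟨e⟩ := h
  have he : StrictMono fun a => (e a).1 := fun a b h => e.strictMono h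
  exact ⟨(e ⟨β.1 + 1, succ_lt hω hc β.2⟩).1, lt_of_lt_of_le (lt_add_one β.1) he.le_apply, (e _).2⟩

include hω hc in
theorem reg_of_arrow {ν : Ordinal.{0}} (hν : 1 < ν) (h : Arrow M κ ν) : Reg M (Iio κ) := by
  classical
  have reg : ∀ (h : Iio κ → Iio κ) (α : Iio κ), Tm M h → ∃ β, ∀ x, x < α → h x ≤ β := by
    intro g α hg
    by_contra hn
    have hn : ∀ β, ∃ x, x < α ∧ β < g x := by simpa using hn
    let i : Iio κ → Iio κ := fun y => mn fun x => x < α ∧ y < g x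
    have hi : ∀ {y y'}, y ≤ y' → i y ≤ i y' := fun {y y'} h =>
      mn_le ⟨(mn_spec (hn y')).1, h.trans_lt (mn_spec (hn y')).2⟩
    have h₁ : (1 : Ordinal) < κ := Ordinal.one_lt_omega0.trans hω
    obtain ⟨H, ⟨e⟩, j, hH⟩ := h.part (μ := ⟨1, h₁⟩) hν
      (c := fun X => if ∃ y, y ∈ X ∧ (mn fun a => a ∈ X) < y ∧ i y = i (mn fun a => a ∈ X)
        then ⟨0, zero_lt_one.trans h₁⟩ else ⟨1, h₁⟩) (by simp only [i]; fun_prop)
      fun X => by split_ifs; exacts [zero_le_one (α := Ordinal), le_rfl]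
    have he : StrictMono fun a => (e a).1 := fun a b h => e.strictMono h
    obtain ⟨b, hb, -⟩ := unb_of_full hω hc ⟨e⟩ (g (i (e α).1))
    have k₁ := hH (mkS (fun y => y = (e α).1 ∨ (y ∈ H ∧ b ≤ y)) (by fun_prop))
      (fun y hy => hy.elim (fun h => h ▸ (e α).2) And.left)
      (full_tail hω hc ⟨e⟩ b fun y h₁ h₂ => Or.inr ⟨h₁, h₂⟩)
    have k₂ : (mn fun y => y = (e α).1 ∨ (y ∈ H ∧ b ≤ y)) = (e α).1 := mn_eq (Or.inl rfl)
      fun y hy => hy.elim ge_of_eq fun h => ((mn_spec (hn _)).2.trans hb).le.trans h.2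
    simp only [mem_mkS, k₂] at k₁
    rw [if_neg] at k₁
    · have k₃ : StrictMono fun a => i (e a).1 := fun x x' hx => by
        refine lt_of_le_of_ne (hi (he hx).le) fun e' => ?_
        have k₃ := hH (mkS (fun y => y ∈ H ∧ (e x).1 ≤ y) (by fun_prop)) (fun y hy => hy.1)
          (full_tail hω hc ⟨e⟩ (e x).1 fun y h₁ h₂ => ⟨h₁, h₂⟩)
        have k₄ : (mn fun y => y ∈ H ∧ (e x).1 ≤ y) = (e x).1 :=
          mn_eq ⟨(e x).2, le_rfl⟩ fun y hy => hy.2
        simp only [mem_mkS, k₄] at k₃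
        rw [if_pos ⟨_, ⟨(e x').2, (he hx).le⟩, he hx, e'.symm⟩, ← k₁] at k₃
        exact zero_ne_one (congrArg Subtype.val k₃)
      exact (mn_spec (hn (e α).1)).1.not_ge k₃.le_apply
    · rintro ⟨y, rfl | hy, k₃, k₄⟩
      · exact k₃.false
      · have := (mn_spec (hn y)).2
        change y < g (i y) at this
        rw [k₄] at this
        exact (this.trans hb).not_ge hy.2
  refine ⟨fun a => ⟨⟨a.1 + 1, succ_lt hω hc a.2⟩, lt_add_one a.1⟩, fun g hg => ?_, reg⟩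
  let c : ℕ → Iio κ := fun n => ⟨n, (Ordinal.natCast_lt_omega0 n).trans hω⟩
  have hc' : Tm M c := Tm.of_enc fun _ => rfl
  obtain ⟨β, hβ⟩ := reg (fun x => g (mn fun n => c n = x)) ⟨Ordinal.omega0, hω⟩ (by fun_prop)
  refine ⟨β, fun n => ?_⟩
  have := hβ (c n) (Ordinal.natCast_lt_omega0 n)
  rwa [mn_eq (P := fun m => c m = c n) (a := n) rfl
    fun m hm => (Nat.cast_injective (R := Ordinal) (congrArg Subtype.val hm)).ge] at this

end Card

theorem Reg.full_of_unb (hK : Reg M (Iio κ)) {X : In M (Set (Iio κ))} (h : Unb X) :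
    Nonempty (Iio κ ≃o X.val) := full_of_cand fun a => by
  obtain ⟨β, hβ⟩ := hK.reg _ a (tm_en wellFounded_lt (by fun_prop)
    (X := (· ∈ X)) (by fun_prop))
  obtain ⟨y, h₁, h₂⟩ := h β
  exact ⟨y, h₂, fun b hb => (hβ b hb).trans_lt h₁⟩

end Pool.Agent.MP_09d684_lc.H42
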