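import Pool.Agent.MP_09d684_lc.H42.Dist

/-! The combinatorial core: homogeneous sets for forced colourings are dense. -/

set_option linter.unusedSectionVars false

namespace Pool.Agent.MP_09d684_lc.H42

open Set Function

universe u v w

variable {M : Set ZFSet.{0}} [hM : IsZF M]
variable {K : Type u} [LinearOrder K] [Code K] [Small.{0} K]

/-- Unbounded subsets. -/
def Unb (X : In M (Set K)) : Prop := ∀ β, ∃ x, β < x ∧ x ∈ X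

/-- Limit points. -/
def Lim (X : In M (Set K)) (z : K) : Prop := (∃ γ, γ < z) ∧ ∀ γ, γ < z → ∃ x, x ∈ X ∧ γ < x ∧ x < z

theorem Lim.mono {X Y : In M (Set K)} {z : K} (h : Lim X z) (hXY : X ⊆ Y) : Lim Y z :=
  ⟨h.1, fun γ hγ => (h.2 γ hγ).imp fun _ h => ⟨hXY h.1, h.2⟩⟩

variable [WellFoundedLT K] [Nonempty K] [Cd M K] [Bd M K] [TmLT M K]

section Tm

variable {Γ : Type*} [Code Γ] [Cd M Γ] {X : Γ → In M (Set K)} {z : Γ → K}

@[fun_prop] theorem tm_Unb (hX : Tm M X) : Tm M (fun x => Unb (X x)) := by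
  unfold Unb; fun_prop

@[fun_prop] theorem tm_Lim (hX : Tm M X) (hz : Tm M z) : Tm M (fun x => Lim (X x) (z x)) := by
  unfold Lim; fun_prop

end Tm

/-- The limit points of `X` that are not limits of limit points. -/
noncomputable def blk (X : In M (Set K)) : In M (Set K) :=
  mkS (fun z => Lim X z ∧ ∃ γ, γ < z ∧ ∀ w, γ < w → w < z → ¬ Lim X w) (by fun_prop)

theorem mem_blk {X : In M (Set K)} {z : K} :
    z ∈ blk X ↔ Lim X z ∧ ∃ γ, γ < z ∧ ∀ w, γ < w → w < z → ¬ Lim X w := Iff.rfl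

@[fun_prop] theorem tm_blk {Γ : Type*} [Code Γ] [Cd M Γ] {X : Γ → In M (Set K)} (hX : Tm M X) :
    Tm M (fun x => blk (X x)) := by
  unfold blk; fun_prop

theorem blk_congr {X Y : In M (Set K)} (h : ∀ z, Lim X z ↔ Lim Y z) : blk X = blk Y :=
  In.ext_set fun z => by simp only [mem_blk, h]

theorem exists_blk_eq {H X : In M (Set K)} (hX : X ⊆ blk H) (hu : Unb X) :
    ∃ Y, Y ⊆ H ∧ Unb Y ∧ blk Y = X := by
  let Y : In M (Set K) :=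
    mkS (fun y => y ∈ H ∧ ∃ x, x ∈ X ∧ y < x ∧ ∀ w, y < w → w < x → ¬ Lim H w) (by fun_prop)
  have hY : Y ⊆ H := fun _ h => h.1
  have h₁ : ∀ x, x ∈ X → Lim Y x := fun x hx => by
    obtain ⟨h₁, γ, h₂, h₃⟩ := hX hx
    refine ⟨h₁.1, fun δ hδ => ?_⟩
    obtain ⟨y, k₁, k₂, k₃⟩ := h₁.2 (max γ δ) (max_lt h₂ hδ)
    exact ⟨y, ⟨k₁, x, hx, k₃, fun w hw => h₃ w ((le_max_left _ _).trans_lt (k₂.trans hw))⟩,
      (le_max_right _ _).trans_lt k₂, k₃⟩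
  refine ⟨Y, hY, fun β => ?_, In.ext_set fun z => ⟨?_, fun hz => ⟨h₁ z hz, ?_⟩⟩⟩
  · obtain ⟨x, k₁, k₂⟩ := hu β
    obtain ⟨y, k₃, k₄, -⟩ := (h₁ x k₂).2 β k₁
    exact ⟨y, k₄, k₃⟩
  · rintro ⟨k₁, γ, k₂, k₃⟩
    obtain ⟨y, ⟨-, x, hx, k₄, k₅⟩, k₆, k₇⟩ := k₁.2 γ k₂
    rcases lt_trichotomy x z with h | rfl | h
    · exact absurd (h₁ x hx) (k₃ x (k₆.trans k₄) h)
    · exact hx
    · exact absurd (k₁.mono hY) (k₅ z k₇ h)
  · obtain ⟨-, γ, h₂, h₃⟩ := hX hz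
    exact ⟨γ, h₂, fun w k₁ k₂ k₃ => h₃ w k₁ k₂ (k₃.mono hY)⟩

/-- The next element of `H` above `a`. -/
noncomputable def nx (H : In M (Set K)) (a : K) : K := mn fun y => a < y ∧ y ∈ H

@[fun_prop] theorem tm_nx {Γ : Type*} [Code Γ] [Cd M Γ] {X : Γ → In M (Set K)} {a : Γ → K}
    (hX : Tm M X) (ha : Tm M a) : Tm M (fun x => nx (X x) (a x)) := by
  unfold nx; fun_prop

theorem Unb.nx {H : In M (Set K)} (h : Unb H) (a : K) : a < nx H a ∧ nx H a ∈ H :=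
  mn_spec (h a)

theorem Unb.nx_mono {H : In M (Set K)} (h : Unb H) {a b : K} (hab : a ≤ b) :
    H42.nx H a ≤ H42.nx H b :=
  mn_le ⟨hab.trans_lt (h.nx b).1, (h.nx b).2⟩

theorem exists_blk_eq' {H W : In M (Set K)} (hH : Unb H) (hW : Unb W)
    (h : ∀ w w', w' ∈ W → w < w' → nx H w < w') : ∃ Y, Y ⊆ H ∧ Unb Y ∧ blk Y = blk W := by
  let Y : In M (Set K) := mkS (fun y => ∃ w, w ∈ W ∧ nx H w = y) (by fun_prop)
  refine ⟨Y, ?_, fun β => ?_, blk_congr fun z => and_congr_right fun _ =>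
    ⟨fun hz γ hγ => ?_, fun hz γ hγ => ?_⟩⟩
  · rintro _ ⟨w, -, rfl⟩
    exact (hH.nx w).2
  · obtain ⟨w, k₁, k₂⟩ := hW β
    exact ⟨_, k₁.trans (hH.nx w).1, w, k₂, rfl⟩
  · obtain ⟨_, ⟨w, k₁, rfl⟩, k₂, k₃⟩ := hz γ hγ
    obtain ⟨_, ⟨w', k₄, rfl⟩, k₅, k₆⟩ := hz _ k₃
    refine ⟨w', k₄, k₂.trans (h w w' k₄ (lt_of_not_ge fun h' => ?_)), (hH.nx w').1.trans k₆⟩
    exact (hH.nx_mono h').not_gt k₅
  · obtain ⟨w, k₁, k₂, k₃⟩ := hz γ hγ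
    obtain ⟨w', k₄, k₅, k₆⟩ := hz w k₃
    exact ⟨_, ⟨w, k₁, rfl⟩, k₂.trans (hH.nx w).1, (h w w' k₄ k₅).trans k₆⟩

/-- `K` is a regular uncountable cardinal of the model. -/
structure Reg (M : Set ZFSet.{0}) [IsZF M] (K : Type u) [LinearOrder K] [Code K] [Cd M K] :
    Prop where
  nomax : ∀ a : K, ∃ b, a < b
  cof : ∀ h : ℕ → K, Tm M h → ∃ β, ∀ n, h n ≤ β
  reg : ∀ (h : K → K) (α : K), Tm M h → ∃ β, ∀ x, x < α → h x ≤ β

theorem Reg.closure (hK : Reg M K) {h : K → K} (hh : Tm M h) (β : K) :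
    ∃ δ, β < δ ∧ ∀ γ, γ < δ → h γ < δ := by
  let s : K → K := fun a => mn fun b => a < b ∧ ∀ γ, γ ≤ a → h γ < b
  have hs : ∀ a, a < s a ∧ ∀ γ, γ ≤ a → h γ < s a := fun a => mn_spec (P := fun b =>
      a < b ∧ ∀ γ, γ ≤ a → h γ < b) (by
    obtain ⟨a', ha⟩ := hK.nomax a
    obtain ⟨b, hb⟩ := hK.reg h a' hh
    obtain ⟨c, hc⟩ := hK.nomax (max a b)
    exact ⟨c, (le_max_left _ _).trans_lt hc, fun γ hγ =>
      ((hb γ (hγ.trans_lt ha)).trans (le_max_right _ _)).trans_lt hc⟩)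
  have hδ := mn_spec (hK.cof (fun n => s^[n] β) (by simp only [s]; fun_prop))
  set δ := mn fun b => ∀ n, s^[n] β ≤ b with hd
  have h₁ : ∀ n, s (s^[n] β) ≤ δ := fun n => iterate_succ_apply' s n β ▸ hδ (n + 1)
  refine ⟨δ, (hs β).1.trans_le (h₁ 0), fun γ hγ => ?_⟩
  obtain ⟨n, hn⟩ := not_forall.1 (not_of_lt_mn hγ)
  exact ((hs _).2 γ (not_le.1 hn).le).trans_le (h₁ n)

theorem Reg.unb_blk (hK : Reg M K) {Y : In M (Set K)} (hY : Unb Y) : Unb (blk Y) := fun β => by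
  have : ∃ z, β < z ∧ Lim Y z := by
    obtain ⟨δ, h₁, h₂⟩ := hK.closure (h := nx Y) (by fun_prop) β
    exact ⟨δ, h₁, ⟨β, h₁⟩, fun γ hγ => ⟨_, (hY.nx γ).2, (hY.nx γ).1, h₂ γ hγ⟩⟩
  exact ⟨_, (mn_spec this).1, (mn_spec this).2, β, (mn_spec this).1,
    fun w h₁ h₂ h₃ => not_of_lt_mn h₂ ⟨h₁, h₃⟩⟩

/-- The order of the forcing on representatives. -/
def Le (q' q : Rs M) : Prop := ∃ m, ∀ n, m ≤ n → ∃ k, ∀ j, k ≤ j → (n, j) ∈ q' → (n, j) ∈ q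

@[fun_prop] theorem tm_Le {Γ : Type*} [Code Γ] [Cd M Γ] {q q' : Γ → Rs M} (hq : Tm M q)
    (hq' : Tm M q') : Tm M (fun x => Le (q x) (q' x)) := by
  unfold Le; fun_prop

theorem Le.of_tail {q q' : Rs M} {m : ℕ} (h : ∀ e, e ∈ q' → m ≤ e.1 → e ∈ q) : Le q' q :=
  ⟨m, fun _ hn => ⟨0, fun _ _ hj => h _ hj hn⟩⟩

theorem Le.of_subset {q q' : Rs M} (h : q' ⊆ q) : Le q' q := Le.of_tail (m := 0) fun _ he _ => h he

theorem Le.rfl {q : Rs M} : Le q q := Le.of_subset (In.subset_refl _)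

theorem Le.trans {p q r : Rs M} (h₁ : Le r q) (h₂ : Le q p) : Le r p := by
  obtain ⟨m, h₁⟩ := h₁
  obtain ⟨m', h₂⟩ := h₂
  refine ⟨max m m', fun n hn => ?_⟩
  obtain ⟨k, h₁⟩ := h₁ n (by omega)
  obtain ⟨k', h₂⟩ := h₂ n (by omega)
  exact ⟨max k k', fun j hj h => h₂ j (by omega) (h₁ j (by omega) h)⟩

theorem Le.exists_inter {q r : Rs M} (h : Le r q) (hr : Pos r) :
    ∃ s : Rs M, Pos s ∧ s ⊆ r ∧ s ⊆ q := by
  refine ⟨mkS (fun e => e ∈ r ∧ e ∈ q) (by fun_prop), fun a => ?_, fun _ h => h.1, fun _ h => h.2⟩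
  obtain ⟨m, h⟩ := h
  obtain ⟨n, h₁, h₂⟩ := hr (max a m)
  obtain ⟨k, h⟩ := h n (by omega)
  refine ⟨n, by omega, fun b => ?_⟩
  obtain ⟨j, h₃, h₄⟩ := h₂ (max b k)
  exact ⟨j, by omega, h₄, h j (by omega) h₄⟩

/-- The predicate `F` holds densely below `q`. -/
def Dn (F : Rs M → Prop) (q : Rs M) : Prop := ∀ r, Pos r → Le r q → ∃ r', Pos r' ∧ Le r' r ∧ F r'

@[fun_prop] theorem tm_Dn {Γ : Type*} [Code Γ] [Cd M Γ] {F : Γ → Rs M → Prop} {q : Γ → Rs M}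
    (hF : Tm M (fun z : Γ × Rs M => F z.1 z.2)) (hq : Tm M q) :
    Tm M (fun x => Dn (F x) (q x)) := by
  unfold Dn; fun_prop

variable [hA : Fact (ADR M)]

theorem Reg.main (hK : Reg M K) [RC M (In M (Set K))] {μ : K}
    (part : ∀ c : In M (Set K) → K, Tm M c → (∀ X, c X ≤ μ) →
      ∃ H, Unb H ∧ ∃ i, ∀ X, X ⊆ H → Unb X → c X = i)
    {F : Rs M → In M (Set K) → K → Prop}
    (hF : Tm M (fun z : Rs M × In M (Set K) × K => F z.1 z.2.1 z.2.2))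
    (mono : ∀ q q' X i, F q X i → Le q' q → F q' X i) {p : Rs M} (hp : Pos p) :
    ∃ q, Pos q ∧ Le q p ∧
      ((∃ H i, Unb H ∧ i < μ ∧ ∀ X, X ⊆ H → Unb X → Dn (fun r => F r X i) q) ∨
        ∃ X, Unb X ∧ ∀ i, i < μ → ∀ r, Pos r → Le r q → ¬ F r X i) := by
  by_contra hc
  have hF' : ∀ {Γ : Type u} [Code Γ] [Cd M Γ] {a : Γ → Rs M} {b : Γ → In M (Set K)} {c : Γ → K},
      Tm M a → Tm M b → Tm M c → Tm M (fun x => F (a x) (b x) (c x)) :=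
    fun ha hb hc => hF.comp (ha.pair (hb.pair hc))
  have h₁ : ∀ q, Pos q → Le q p → ∃ H : In M (Set K), Unb H ∧ ∀ Y, Y ⊆ H → Unb Y → ∀ i, i < μ →
      ¬ Dn (fun r => F r (blk Y) i) q := fun q hq hqp => by
    obtain ⟨H, k₁, i, k₂⟩ := part (fun Y => mn fun i => i = μ ∨ Dn (fun r => F r (blk Y) i) q)
      (tm_mn (tm_or (by fun_prop) (tm_Dn (hF' (by fun_prop) (by fun_prop) (by fun_prop))
        (by fun_prop)))) fun _ => mn_le (Or.inl rfl)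
    refine ⟨H, k₁, fun Y k₃ k₄ j hj k₅ => ?_⟩
    have hi : i < μ := ((k₂ Y k₃ k₄).symm.trans_le (mn_le
      (P := fun i => i = μ ∨ Dn (fun r => F r (blk Y) i) q) (Or.inr k₅))).trans_lt hj
    refine hc ⟨q, hq, hqp, Or.inl ⟨blk H, i, hK.unb_blk k₁, hi, fun X k₆ k₇ => ?_⟩⟩
    obtain ⟨Z, k₈, k₉, rfl⟩ := exists_blk_eq k₆ k₇
    have := mn_spec (P := fun i => i = μ ∨ Dn (fun r => F r (blk Z) i) q) ⟨μ, Or.inl rfl⟩
    rw [k₂ Z k₈ k₉] at this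
    exact this.resolve_left hi.ne
  obtain ⟨U, hU, h₂⟩ := unif (M := M) (X := In M (ℕ → Pick)) (Y := In M (Set K))
    (Q := fun y H => IsPt [] p y → Unb H ∧ ∀ Y, Y ⊆ H → Unb Y → ∀ i, i < μ →
      ¬ Dn (fun r => F r (blk Y) i) (pts y))
    (tm_imp (by fun_prop) (tm_and (by fun_prop) (tm_all (tm_imp (by fun_prop) (tm_imp (by fun_prop)
      (tm_all (tm_imp (by fun_prop) (tm_not (tm_Dn (hF' (by fun_prop) (by fun_prop) (by fun_prop))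
        (by fun_prop))))))))))
    fun y => by
      by_cases hy : IsPt [] p y
      · exact (h₁ _ hy.pos_pts (Le.of_subset hy.pts_subset)).imp fun _ h _ => h
      · exact ⟨Classical.arbitrary _, fun h => absurd h hy⟩
  obtain ⟨q, k₁, k₂, k₃⟩ := distrib (M := M)
    (D := fun α q => ∃ m β, ∀ y : In M (ℕ → Pick), IsPt [] (tl q m) y → nx (U y) α ≤ β)
    (by fun_prop) hp
    (fun α q q' m ⟨k, β, h⟩ _ h' => ⟨max k m, β, fun y hy => h y (hy.mono (tl_subset h' k))⟩)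
    (fun α q _ h₂ => by
      obtain ⟨H, k₁, k₂, β, k₃⟩ := bdd_cone hK.cof (g := fun y => nx (U y) α) (by fun_prop) h₂
      exact ⟨H, k₁, k₂, 0, β, fun y hy => k₃ y (hy.mono fun _ h => h.1)⟩)
  have hpt : ∀ {m} {y : In M (ℕ → Pick)}, IsPt [] (tl q m) y → IsPt [] p y :=
    fun hy => hy.mono fun _ h => k₁ h.1
  obtain ⟨m, hm⟩ : ∃ m, ∀ α, ∃ β, ∀ y : In M (ℕ → Pick), IsPt [] (tl q m) y → nx (U y) α ≤ β := by
    by_contra hn
    obtain ⟨a, ha⟩ := hK.cof (fun m => mn fun α => ¬ ∃ β, ∀ y : In M (ℕ → Pick),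
      IsPt [] (tl q m) y → nx (U y) α ≤ β) (by fun_prop)
    obtain ⟨m, β, hm⟩ := k₃ a
    exact mn_spec (not_forall.1 fun h => hn ⟨m, h⟩)
      ⟨β, fun y hy => ((h₂ y (hpt hy)).1.nx_mono (ha m)).trans (hm y hy)⟩
  let h : K → K := fun α => mn fun β => ∀ y : In M (ℕ → Pick), IsPt [] (tl q m) y → nx (U y) α ≤ β
  have hh : Tm M h := by simp only [h]; fun_prop
  let W : In M (Set K) := mkS (fun δ => ∀ γ, γ < δ → h γ < δ) (by fun_prop)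
  have hW : Unb W := hK.closure hh
  refine hc ⟨q, k₂, Le.of_subset k₁, Or.inr ⟨blk W, hK.unb_blk hW, fun i hi r hr hrq hF => ?_⟩⟩
  obtain ⟨s, k₄, k₅, k₆⟩ := hrq.exists_inter hr
  obtain ⟨y, hy⟩ := (k₄.tl m).exists_pt
  have hy' : IsPt [] (tl q m) y := hy.mono fun _ h => ⟨k₆ h.1, h.2⟩
  obtain ⟨k₇, k₈⟩ := h₂ y (hpt hy')
  obtain ⟨Y, l₁, l₂, l₃⟩ := exists_blk_eq' k₇ hW fun w w' hw' hw =>
    (mn_spec (hm w) y hy').trans_lt (hw' w hw)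
  refine k₈ Y l₁ l₂ i hi fun r' l₄ l₅ => ⟨r', l₄, Le.rfl, l₃ ▸ mono _ _ _ _ hF
    (l₅.trans (Le.of_subset fun e he => k₅ (hy.pts_subset he).1))⟩

/-- Conditions deciding all instances of a well-ordered family of statements are dense. -/
theorem decide_all {D : K → Rs M → Prop} (hD : Tm M (fun z : K × Rs M => D z.1 z.2))
    (opn : ∀ α q q', D α q → Le q' q → D α q')
    (dns : ∀ α q, Pos q → ∃ q', Pos q' ∧ Le q' q ∧ D α q') {p : Rs M} (hp : Pos p) :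
    ∃ q, Pos q ∧ Le q p ∧ ∀ α, D α q := by
  obtain ⟨q, h₁, h₂, h₃⟩ := distrib hD hp (fun α q q' _ h _ h' => opn α q q' h (Le.of_tail h'))
    fun α q _ hq => by
      obtain ⟨q', k₁, k₂, k₃⟩ := dns α q hq
      obtain ⟨s, k₄, k₅, k₆⟩ := k₂.exists_inter k₁
      exact ⟨s, k₆, k₄, opn α _ _ k₃ (Le.of_subset k₅)⟩
  exact ⟨q, h₂, Le.of_subset h₁, h₃⟩

end Pool.Agent.MP_09d684_lc.H42
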