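import Pool.Agent.MP_09d684_lc.H42.Det

/-! Points, stems and reservoirs for `Fin ⊗ Fin`, and the fusion lemma. -/

set_option linter.unusedSectionVars false

namespace Pool.Agent.MP_09d684_lc.H42

open Set Function

universe u v w

variable {M : Set ZFSet.{0}} [hM : IsZF M]

abbrev Pick := ℕ × ℕ

/-- Subsets of `ω × ω` in the model. -/
abbrev Rs (M : Set ZFSet.{0}) := In M (Set Pick)

def ColInf (D : Rs M) (n : ℕ) : Prop := ∀ m, ∃ j, m ≤ j ∧ (n, j) ∈ D

def Pos (D : Rs M) : Prop := ∀ m, ∃ n, m ≤ n ∧ ColInf D n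

def Nice (D : Rs M) : Prop := ∀ e, e ∈ D → ColInf D e.1

def Above (s : List Pick) (j : ℕ) : Prop := ∀ x ∈ s, x.1 < j ∧ x.2 < j

def InCol (s : List Pick) (n : ℕ) : Prop := ∃ x ∈ s, x.1 = n

/-- The region in which picks after the stem `s` can be made. -/
def Fut (s : List Pick) (e : Pick) : Prop := Above s e.2 ∧ (InCol s e.1 ∨ Above s e.1)

/-- `e` is a legal next pick after the stem `s`. -/
def Nxt (s : List Pick) (e : Pick) : Prop :=
  e.1 < e.2 ∧ Above s e.2 ∧ (s.length % 2 = 0 → Above s e.1) ∧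
    (s.length % 2 = 1 → e.1 = (s.getD (s.length / 2).unpair.1 (0, 0)).1)

/-- The reservoir `D` is compatible with the stem `s`. -/
def Comp (s : List Pick) (D : Rs M) : Prop := Pos D ∧ ∀ x ∈ s, ColInf D x.1

/-- `w` is a legal continuation of `s` inside `D`. -/
def Ch (s : List Pick) (D : Pick → Prop) (w : List Pick) : Prop :=
  ∀ w' e, w' ++ [e] <+: w → D e ∧ Nxt (s ++ w') e

/-- `x` is an infinite legal continuation of `s` inside `D`. -/
def IsPt (s : List Pick) (D : Rs M) (x : ℕ → Pick) : Prop :=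
  ∀ k, x k ∈ D ∧ Nxt (s ++ pre x k) (x k)

section Tm

variable {Γ : Type*} [Code Γ] [Cd M Γ] {D : Γ → Rs M} {s w : Γ → List Pick} {n : Γ → ℕ}
  {e : Γ → Pick}

@[fun_prop] theorem tm_ColInf (hD : Tm M D) (hn : Tm M n) : Tm M (fun x => ColInf (D x) (n x)) := by
  unfold ColInf; fun_prop

@[fun_prop] theorem tm_Pos (hD : Tm M D) : Tm M (fun x => Pos (D x)) := by
  unfold Pos; fun_prop

@[fun_prop] theorem tm_Nice (hD : Tm M D) : Tm M (fun x => Nice (D x)) := by
  unfold Nice; fun_prop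

@[fun_prop] theorem tm_Above (hs : Tm M s) (hn : Tm M n) : Tm M (fun x => Above (s x) (n x)) := by
  unfold Above; fun_prop

@[fun_prop] theorem tm_InCol (hs : Tm M s) (hn : Tm M n) : Tm M (fun x => InCol (s x) (n x)) := by
  unfold InCol; fun_prop

@[fun_prop] theorem tm_Fut (hs : Tm M s) (he : Tm M e) : Tm M (fun x => Fut (s x) (e x)) := by
  unfold Fut; fun_prop

@[fun_prop] theorem tm_Nxt (hs : Tm M s) (he : Tm M e) : Tm M (fun x => Nxt (s x) (e x)) := by
  unfold Nxt; fun_prop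

@[fun_prop] theorem tm_Comp (hs : Tm M s) (hD : Tm M D) : Tm M (fun x => Comp (s x) (D x)) := by
  unfold Comp; fun_prop

@[fun_prop] theorem tm_Ch {P : Γ → Pick → Prop} (hs : Tm M s)
    (hP : Tm M (fun z : Γ × Pick => P z.1 z.2)) (hw : Tm M w) :
    Tm M (fun x => Ch (s x) (P x) (w x)) := by
  unfold Ch; fun_prop

@[fun_prop] theorem tm_IsPt {y : Γ → ℕ → Pick} (hs : Tm M s) (hD : Tm M D)
    (hy : Tm M (fun z : Γ × ℕ => y z.1 z.2)) : Tm M (fun x => IsPt (s x) (D x) (y x)) := by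
  unfold IsPt; fun_prop

end Tm

section Basic

variable {s u w : List Pick} {e x : Pick} {D D' : Rs M} {j k n : ℕ}

theorem ColInf.mono (h : ColInf D n) (hD : D ⊆ D') : ColInf D' n :=
  fun m => (h m).imp fun _ h => ⟨h.1, hD h.2⟩

theorem Pos.mono (h : Pos D) (hD : D ⊆ D') : Pos D' :=
  fun m => (h m).imp fun _ h => ⟨h.1, h.2.mono hD⟩

theorem Comp.mono (h : Comp s D) (hD : D ⊆ D') : Comp s D' :=
  ⟨h.1.mono hD, fun x hx => (h.2 x hx).mono hD⟩

theorem Comp.of_subset (h : Comp s D) (hs : ∀ x ∈ u, x ∈ s) : Comp u D :=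
  ⟨h.1, fun x hx => h.2 x (hs x hx)⟩

theorem comp_nil : Comp [] D ↔ Pos D := by simp [Comp]

theorem comp_concat : Comp (s ++ [e]) D ↔ Comp s D ∧ ColInf D e.1 := by
  simp [Comp, or_imp, forall_and, and_assoc]

theorem Above.mono (h : Above s j) (hj : j ≤ k) : Above s k :=
  fun x hx => ⟨(h x hx).1.trans_le hj, (h x hx).2.trans_le hj⟩

theorem Above.of_subset (h : Above s j) (hs : ∀ x ∈ u, x ∈ s) : Above u j :=
  fun x hx => h x (hs x hx)

theorem above_concat : Above (s ++ [e]) j ↔ Above s j ∧ e.1 < j ∧ e.2 < j := by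
  simp [Above, or_imp, forall_and, and_assoc, -Prod.forall]
  tauto

theorem exists_above (s : List Pick) : ∃ j, Above s j := by
  induction s using List.reverseRecOn with
  | nil => exact ⟨0, by simp [Above]⟩
  | append_singleton s e ih =>
    obtain ⟨j, hj⟩ := ih
    exact ⟨max j (max e.1 e.2 + 1), above_concat.2 ⟨hj.mono (le_max_left _ _), by omega, by omega⟩⟩

theorem getD_mem (h : s.length % 2 = 1) : s.getD (s.length / 2).unpair.1 (0, 0) ∈ s := by
  have : (s.length / 2).unpair.1 < s.length := (Nat.unpair_left_le _).trans_lt (by omega)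
  simp [this]

theorem Nxt.fut (h : Nxt s e) : Fut s e := by
  refine ⟨h.2.1, ?_⟩
  rcases Nat.mod_two_eq_zero_or_one s.length with h' | h'
  · exact Or.inr (h.2.2.1 h')
  · exact Or.inl ⟨_, getD_mem h', (h.2.2.2 h').symm⟩

theorem Fut.of_concat (h : Fut (s ++ [e]) x) (he : Fut s e) : Fut s x := by
  refine ⟨(above_concat.1 h.1).1, ?_⟩
  rcases h.2 with ⟨y, hy, h'⟩ | h'
  · rcases List.mem_append.1 hy with hy | hy
    · exact Or.inl ⟨y, hy, h'⟩
    · obtain rfl := List.mem_singleton.1 hy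
      exact h' ▸ he.2
  · exact Or.inr (above_concat.1 h').1

theorem Comp.exists_nxt (h : Comp s D) : ∃ e, e ∈ D ∧ Nxt s e ∧ ColInf D e.1 := by
  obtain ⟨b, hb⟩ := exists_above s
  rcases Nat.mod_two_eq_zero_or_one s.length with h' | h'
  · obtain ⟨n, hn, hc⟩ := h.1 b
    obtain ⟨j, hj, hm⟩ := hc (n + 1)
    exact ⟨(n, j), hm, ⟨hj, hb.mono (by omega), fun _ => hb.mono hn, by omega⟩, hc⟩
  · have hc := h.2 _ (getD_mem h')
    obtain ⟨j, hj, hm⟩ := hc b
    exact ⟨(_, j), hm, ⟨(hb _ (getD_mem h')).1.trans_le hj, hb.mono hj, by omega, fun _ => rfl⟩, hc⟩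

/-- The part of `D` in the future of `s`. -/
noncomputable def futS (s : List Pick) (D : Rs M) : Rs M := mkS (fun e => e ∈ D ∧ Fut s e) (by fun_prop)

@[simp] theorem mem_futS : e ∈ futS s D ↔ e ∈ D ∧ Fut s e := Iff.rfl

theorem futS_subset : futS s D ⊆ D := fun _ h => h.1

theorem Comp.futS (h : Comp s D) : Comp s (futS s D) := by
  obtain ⟨b, hb⟩ := exists_above s
  refine ⟨fun m => ?_, fun x hx m => ?_⟩
  · obtain ⟨n, hn, hc⟩ := h.1 (max m b)
    refine ⟨n, by omega, fun k => ?_⟩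
    obtain ⟨j, hj, hm⟩ := hc (max k b)
    exact ⟨j, by omega, hm, hb.mono (by omega), Or.inr (hb.mono (by omega))⟩
  · obtain ⟨j, hj, hm⟩ := h.2 x hx (max m b)
    exact ⟨j, by omega, hm, hb.mono (by omega), Or.inl ⟨x, hx, rfl⟩⟩

variable {P P' : Pick → Prop}

@[simp] theorem ch_nil : Ch s P [] := fun w e h => by simp at h

theorem ch_concat : Ch s P (w ++ [e]) ↔ Ch s P w ∧ P e ∧ Nxt (s ++ w) e := by
  refine ⟨fun h => ⟨fun w' e' h' => h w' e' (h'.trans (List.prefix_append _ _)),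
    h w e List.prefix_rfl⟩, fun h w' e' h' => ?_⟩
  rcases List.prefix_concat_iff.1 h' with h' | h'
  · obtain ⟨rfl, h''⟩ := List.append_inj' h' rfl
    obtain rfl := List.singleton_injective h''
    exact h.2
  · exact h.1 w' e' h'

theorem Ch.mono (h : Ch s P w) (hP : ∀ e, P e → P' e) : Ch s P' w :=
  fun w' e h' => ⟨hP _ (h w' e h').1, (h w' e h').2⟩

theorem Ch.of_isPrefix (h : Ch s P w) (hu : u <+: w) : Ch s P u :=
  fun w' e h' => h w' e (h'.trans hu)

theorem Ch.of_mem (h : Ch s P w) (he : e ∈ w) : P e := by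
  obtain ⟨a, b, rfl⟩ := List.append_of_mem he
  exact (h a e ⟨b, by simp⟩).1

theorem Ch.self (h : Ch s P w) : Ch s (· ∈ w) w :=
  fun w' e h' => ⟨h'.subset (by simp), (h w' e h').2⟩

theorem Ch.concat_cases (he : Above u e.2) (h : Ch s (· ∈ u ++ [e]) w) :
    Ch s (· ∈ u) w ∨ ∃ w', w = w' ++ [e] ∧ Ch s (· ∈ u) w' ∧ Nxt (s ++ w') e := by
  induction w using List.reverseRecOn with
  | nil => exact Or.inl ch_nil
  | append_singleton w f ih =>
    obtain ⟨h₁, h₂, h₃⟩ := ch_concat.1 h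
    rcases ih h₁ with h₄ | ⟨w', rfl, -, -⟩
    · rcases List.mem_append.1 h₂ with h₂ | h₂
      · exact Or.inl (ch_concat.2 ⟨h₄, h₂, h₃⟩)
      · obtain rfl := List.mem_singleton.1 h₂
        exact Or.inr ⟨w, rfl, h₄, h₃⟩
    · have := (h₃.2.1 e (by simp)).2
      rcases List.mem_append.1 h₂ with h₂ | h₂
      · exact absurd (he f h₂).2 (by omega)
      · obtain rfl := List.mem_singleton.1 h₂
        omega

theorem IsPt.ch {x : ℕ → Pick} (h : IsPt s D x) (n : ℕ) : Ch s (· ∈ D) (pre x n) := by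
  induction n with
  | zero => exact ch_nil
  | succ n ih => rw [pre_succ]; exact ch_concat.2 ⟨ih, h n⟩

theorem isPt_of_ch {x : ℕ → Pick} (h : ∀ n, Ch s (· ∈ D) (pre x n)) : IsPt s D x := fun k => by
  have := h (k + 1)
  rw [pre_succ] at this
  exact (ch_concat.1 this).2

theorem IsPt.mono {x : ℕ → Pick} (h : IsPt s D x) (hD : D ⊆ D') : IsPt s D' x :=
  fun k => ⟨hD (h k).1, (h k).2⟩

theorem IsPt.le_snd {x : ℕ → Pick} (h : IsPt s D x) (k : ℕ) : k ≤ (x k).2 := by
  induction k with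
  | zero => omega
  | succ k ih =>
    have := ((h (k + 1)).2.2.1 (x k) (by simp [pre_succ])).2
    omega

theorem IsPt.colInf {x : ℕ → Pick} (h : IsPt s D x) {k : ℕ} (he : e ∈ s ++ pre x k) :
    ColInf D e.1 := fun m => by
  obtain ⟨a, ha, rfl⟩ := List.getElem_of_mem he
  have hb := Nat.right_le_pair a (s.length + k + m)
  obtain ⟨t, ht⟩ : ∃ t, s.length + t = 2 * Nat.pair a (s.length + k + m) + 1 :=
    Nat.exists_eq_add_of_le (by omega) |>.imp fun _ => Eq.symm
  have h₁ := (h t).2.2.2.2 (by simp only [List.length_append, length_pre]; omega)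
  have h₂ : (s ++ pre x t).length / 2 = Nat.pair a (s.length + k + m) := by
    simp only [List.length_append, length_pre]; omega
  obtain ⟨r, hr⟩ := pre_isPrefix x (show k ≤ t by omega)
  rw [h₂, Nat.unpair_pair, ← hr, ← List.append_assoc, List.getD_eq_getElem?_getD,
    List.getElem?_append_left ha, List.getElem?_eq_getElem ha, Option.getD_some] at h₁
  refine ⟨(x t).2, (h.le_snd t).trans' (by omega), ?_⟩
  rw [← h₁]
  exact (h t).1

theorem IsPt.comp {x : ℕ → Pick} (h : IsPt s D x) : Comp s D := by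
  refine ⟨fun m => ?_, fun e he => h.colInf (k := 0) (by simpa using he)⟩
  obtain ⟨t, ht, ht'⟩ : ∃ t, m ≤ t ∧ (s.length + (t + 1)) % 2 = 0 :=
    ⟨2 * m + s.length + 1, by omega, by omega⟩
  have h₁ := ((h (t + 1)).2.2.2.1 (by simpa using ht') (x t) (by simp [pre_succ])).2
  have := h.le_snd t
  exact ⟨_, by omega, h.colInf (k := t + 2) (e := x (t + 1)) (by simp [pre_succ])⟩

/-- The set of picks of a sequence. -/
noncomputable def rg (x : ℕ → Pick) (hx : Tm M x) : Rs M := mkS (fun e => ∃ k, x k = e) (by fun_prop)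

@[simp] theorem mem_rg {x : ℕ → Pick} {hx : Tm M x} : e ∈ rg x hx ↔ ∃ k, x k = e := Iff.rfl

@[fun_prop] theorem tm_rg {Γ : Type*} [Code Γ] [Cd M Γ] {x : Γ → ℕ → Pick} {h : ∀ a, Tm M (x a)}
    (hx : Tm M (fun z : Γ × ℕ => x z.1 z.2)) : Tm M (fun a => rg (x a) (h a)) := by
  unfold rg; fun_prop

theorem IsPt.rg {x : ℕ → Pick} (h : IsPt s D x) (hx : Tm M x) : IsPt s (rg x hx) x :=
  fun k => ⟨⟨k, rfl⟩, (h k).2⟩

theorem IsPt.rg_subset {x : ℕ → Pick} (h : IsPt s D x) (hx : Tm M x) :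
    H42.rg x hx ⊆ D := by
  rintro _ ⟨k, rfl⟩
  exact (h k).1

theorem IsPt.nice_rg {x : ℕ → Pick} (h : IsPt s D x) (hx : Tm M x) :
    Nice (H42.rg x hx) := by
  rintro _ ⟨k, rfl⟩
  exact (h.rg hx).colInf (k := k + 1) (by simp [pre_succ])

end Basic

/-- Decorated stems. -/
abbrev Dec := List (Pick × Bool)

theorem finite_ch {s u : List Pick} {P : Pick → Prop} (h : Ch s P u) :
    {w : Dec | Ch s (· ∈ u) (w.map Prod.fst)}.Finite := by
  induction u using List.reverseRecOn with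
  | nil =>
    refine (finite_singleton []).subset fun w hw => ?_
    cases w with
    | nil => rfl
    | cons a w => simpa using hw.of_mem (e := a.1) (by simp)
  | append_singleton u e ih =>
    obtain ⟨h₁, -, h₃⟩ := ch_concat.1 h
    refine ((ih h₁).union (((ih h₁).prod (finite_univ (α := Bool))).image
      fun z => z.1 ++ [(e, z.2)])).subset fun w hw => ?_
    rcases Ch.concat_cases (h₃.2.1.of_subset (by simp +contextual)) hw with h | ⟨w', h, h', -⟩
    · exact Or.inl h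
    · rcases List.eq_nil_or_concat' w with rfl | ⟨w, x, rfl⟩
      · simp at h
      · rw [List.map_append] at h
        obtain ⟨rfl, h''⟩ := List.append_inj' h rfl
        obtain rfl : x.1 = e := List.singleton_injective h''
        exact Or.inr ⟨(w, x.2), ⟨h', trivial⟩, rfl⟩

variable [hA : Fact (ADR M)]

theorem Comp.exists_pt {s : List Pick} {D : Rs M} (h : Comp s D) :
    ∃ x : ℕ → Pick, Tm M x ∧ IsPt s D x := by
  obtain ⟨l, hl, h₀, h₁⟩ := dc (M := M) (I := fun u => Comp (s ++ u) D)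
    (R := fun u u' => ∃ e, e ∈ D ∧ Nxt (s ++ u) e ∧ u' = u ++ [e]) (by fun_prop) (by fun_prop)
    (fun u hu => by
      obtain ⟨e, h₁, h₂, h₃⟩ := hu.exists_nxt
      exact ⟨u ++ [e], by rw [← List.append_assoc]; exact comp_concat.2 ⟨hu, h₃⟩, e, h₁, h₂, rfl⟩)
    (x₀ := []) (by simpa using h)
  have e := chain_eq_pre (0, 0) h₀ fun n => (h₁ n).2.imp fun _ h => h.2.2
  refine ⟨fun k => (l (k + 1)).getD k (0, 0), by fun_prop, fun k => ?_⟩
  obtain ⟨a, h₂, h₃, h₄⟩ := (h₁ k).2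
  have : (l (k + 1)).getD k (0, 0) = a := by
    have hl : (l k).length = k := by rw [e]; simp
    simp [h₄, List.getD_eq_getElem?_getD, hl]
  rw [← e]
  simp only [this]
  exact ⟨h₂, h₃⟩

section Fusion

variable {S : Type u} [Code S] [Cd M S] [RI M S] {s : List Pick} {A : Rs M}
  {G : Dec → S → Prop} {N : S → Pick × Bool → S → Prop} {res : S → Rs M}

theorem fusion_tasks
    (step : ∀ w l x R, G w l → x.1 ∈ res l → Nxt (s ++ w.map Prod.fst) x.1 → R ⊆ res l →
      Comp (s ++ w.map Prod.fst ++ [x.1]) R → ∃ l', G (w ++ [x]) l' ∧ N l x l' ∧ res l' ⊆ R ∧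
        Comp (s ++ w.map Prod.fst ++ [x.1]) (res l'))
    {u : List Pick} {e : Pick} {R : Rs M} {L : In M (Dec → S)} (he : e ∈ R) (hn : Nxt (s ++ u) e)
    (hc : Comp (s ++ u ++ [e]) R)
    (hL : ∀ w : Dec, Ch s (· ∈ u) (w.map Prod.fst) →
      G w (L w) ∧ ∀ x, x ∈ R → Fut (s ++ w.map Prod.fst) x → x ∈ res (L w))
    {T : Set (Dec × Bool)} (hT : T.Finite)
    (hT' : ∀ t ∈ T, Ch s (· ∈ u) (t.1.map Prod.fst) ∧ Nxt (s ++ t.1.map Prod.fst) e) :
    ∃ (R' : Rs M) (L' : In M (Dec → S)), R' ⊆ R ∧ Comp (s ++ u ++ [e]) R' ∧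
      (∀ w : Dec, e ∉ w.map Prod.fst → L' w = L w) ∧
      ∀ t ∈ T, G (t.1 ++ [(e, t.2)]) (L' (t.1 ++ [(e, t.2)])) ∧
        N (L t.1) (e, t.2) (L' (t.1 ++ [(e, t.2)])) ∧
        ∀ x, x ∈ R' → Fut (s ++ t.1.map Prod.fst ++ [e]) x → x ∈ res (L' (t.1 ++ [(e, t.2)])) := by
  classical
  induction T, hT using Set.Finite.induction_on with
  | empty => exact ⟨R, L, In.subset_refl _, hc, fun _ _ => rfl, by simp⟩
  | @insert t T ht _ ih =>
    obtain ⟨R', L', h₁, h₂, h₃, h₄⟩ := ih fun t ht => hT' t (Or.inr ht)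
    obtain ⟨w, c⟩ := t
    obtain ⟨hw, hw'⟩ := hT' (w, c) (Or.inl rfl)
    have hsub : ∀ x ∈ s ++ w.map Prod.fst ++ [e], x ∈ s ++ u ++ [e] := fun x hx => by
      simp only [List.mem_append] at hx ⊢
      rcases hx with (hx | hx) | hx
      exacts [Or.inl (Or.inl hx), Or.inl (Or.inr (hw.of_mem hx)), Or.inr hx]
    obtain ⟨l', g₁, g₂, g₃, g₄⟩ := step w (L w) (e, c) (futS (s ++ w.map Prod.fst ++ [e]) R')
      (hL w hw).1 ((hL w hw).2 e he hw'.fut) hw'
      (fun x hx => (hL w hw).2 x (h₁ hx.1) (hx.2.of_concat hw'.fut)) (h₂.of_subset hsub).futS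
    let R'' : Rs M := mkS (fun x => x ∈ res l' ∨ (x ∈ R' ∧ InCol (s ++ u ++ [e]) x.1 ∧
      ¬ InCol (s ++ w.map Prod.fst ++ [e]) x.1)) (by fun_prop)
    have hR : R'' ⊆ R' := fun x hx => hx.elim (fun h => (g₃ h).1) And.left
    refine ⟨R'', mkF (fun v => if v = w ++ [(e, c)] then l' else L' v) (by fun_prop),
      In.subset_trans hR h₁, ⟨g₄.1.mono fun _ => Or.inl, fun x hx => ?_⟩, fun v hv => ?_,
      fun t ht' => ?_⟩
    · by_cases hx' : InCol (s ++ w.map Prod.fst ++ [e]) x.1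
      · obtain ⟨y, hy, hy'⟩ := hx'
        exact hy' ▸ (g₄.2 y hy).mono fun _ => Or.inl
      · exact fun m => (h₂.2 x hx m).imp fun j hj => ⟨hj.1, Or.inr ⟨hj.2, ⟨x, hx, rfl⟩, hx'⟩⟩
    · rw [mkF_ap, if_neg (by rintro rfl; simp at hv), h₃ v hv]
    · rcases ht' with rfl | ht'
      · simp only [mkF_ap, if_true]
        refine ⟨g₁, g₂, fun x hx hf => hx.elim id ?_⟩
        rintro ⟨-, ⟨y, hy, hy'⟩, hx'⟩
        have h₅ := (above_concat.1 (hf.2.resolve_left hx')).2.2
        rcases List.mem_append.1 hy with hy | hy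
        · have := (hn.2.1 y hy).1
          omega
        · obtain rfl := List.mem_singleton.1 hy
          have := hn.1
          omega
      · have : t.1 ++ [(e, t.2)] ≠ w ++ [(e, c)] := fun h => ht (by
          obtain ⟨rfl, h'⟩ := List.append_inj' h rfl
          obtain rfl : t.2 = c := (Prod.ext_iff.1 (List.singleton_injective h')).2
          exact ht')
        simp only [mkF_ap, if_neg this]
        exact ⟨(h₄ t ht').1, (h₄ t ht').2.1, fun x hx => (h₄ t ht').2.2 x (hR hx)⟩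

/-- Fusion with labels. -/
theorem fusion (hG : Tm M (fun z : Dec × S => G z.1 z.2))
    (hN : Tm M (fun z : S × (Pick × Bool) × S => N z.1 z.2.1 z.2.2)) (hres : Tm M res)
    (init : ∃ l, G [] l ∧ res l ⊆ A ∧ Comp s (res l))
    (step : ∀ w l x R, G w l → x.1 ∈ res l → Nxt (s ++ w.map Prod.fst) x.1 → R ⊆ res l →
      Comp (s ++ w.map Prod.fst ++ [x.1]) R → ∃ l', G (w ++ [x]) l' ∧ N l x l' ∧ res l' ⊆ R ∧
        Comp (s ++ w.map Prod.fst ++ [x.1]) (res l')) :
    ∃ H : Rs M, H ⊆ A ∧ Comp s H ∧ Nice H ∧ ∃ L : Dec → S, Tm M L ∧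
      (∀ w : Dec, Ch s (· ∈ H) (w.map Prod.fst) →
        G w (L w) ∧ ∀ x, x ∈ H → Fut (s ++ w.map Prod.fst) x → x ∈ res (L w)) ∧
      ∀ (w : Dec) x, Ch s (· ∈ H) ((w ++ [x]).map Prod.fst) → N (L w) x (L (w ++ [x])) := by
  obtain ⟨l₀, g₁, g₂, g₃⟩ := init
  have := RI.fn (M := M) (X := Dec) (Y := S)
  have hN' : ∀ {Γ : Type (max u 0)} [Code Γ] [Cd M Γ] {a c : Γ → S} {b : Γ → Pick × Bool},
      Tm M a → Tm M b → Tm M c → Tm M (fun x => N (a x) (b x) (c x)) :=
    fun ha hb hc => hN.comp (ha.pair (hb.pair hc))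
  obtain ⟨st, hst, h₀, h₁⟩ := dc (M := M) (X := List Pick × Rs M × In M (Dec → S))
    (I := fun z => Ch s (· ∈ A) z.1 ∧ z.2.1 ⊆ A ∧ Comp (s ++ z.1) z.2.1 ∧
      (∀ w : Dec, Ch s (· ∈ z.1) (w.map Prod.fst) → G w (z.2.2 w) ∧
        ∀ x, (x ∈ z.1 ∨ x ∈ z.2.1) → Fut (s ++ w.map Prod.fst) x → x ∈ res (z.2.2 w)) ∧
      ∀ (w : Dec) x, Ch s (· ∈ z.1) ((w ++ [x]).map Prod.fst) → N (z.2.2 w) x (z.2.2 (w ++ [x])))
    (R := fun z z' => (∃ e, e ∈ z.2.1 ∧ z'.1 = z.1 ++ [e]) ∧ z'.2.1 ⊆ z.2.1 ∧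
      ∀ w : Dec, Ch s (· ∈ z.1) (w.map Prod.fst) → z'.2.2 w = z.2.2 w)
    (tm_and (by fun_prop) (tm_and (by fun_prop) (tm_and (by fun_prop) (tm_and (by fun_prop)
      (tm_all (tm_all (tm_imp (by fun_prop) (hN' (by fun_prop) (by fun_prop) (by fun_prop)))))))))
    (by fun_prop)
    (by
      rintro ⟨u, R, L⟩ ⟨h₁, h₂, h₃, h₄, h₅⟩
      obtain ⟨e, he, hn, hc⟩ := h₃.exists_nxt
      have hab : Above u e.2 := hn.2.1.of_subset (by simp +contextual)
      have heu : e ∉ u := fun h => (hab e h).2.false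
      obtain ⟨R', L', k₁, k₂, k₃, k₄⟩ := fusion_tasks step he hn (comp_concat.2 ⟨h₃, hc⟩)
        (fun w hw => ⟨(h₄ w hw).1, fun x hx => (h₄ w hw).2 x (Or.inr hx)⟩)
        (T := {t | Ch s (· ∈ u) (t.1.map Prod.fst) ∧ Nxt (s ++ t.1.map Prod.fst) e})
        (((finite_ch h₁).prod (finite_univ (α := Bool))).subset fun t ht => ⟨ht.1, trivial⟩)
        fun t ht => ht
      have k₅ : ∀ w : Dec, Ch s (· ∈ u) (w.map Prod.fst) → L' w = L w := fun w hw =>
        k₃ w fun h => heu (hw.of_mem h)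
      have k₆ : ∀ w : Dec, Ch s (· ∈ u ++ [e]) (w.map Prod.fst) → Ch s (· ∈ u) (w.map Prod.fst) ∨
          ∃ w' c, w = w' ++ [(e, c)] ∧ Ch s (· ∈ u) (w'.map Prod.fst) ∧
            Nxt (s ++ w'.map Prod.fst) e := fun w hw => by
        refine (Ch.concat_cases hab hw).imp id ?_
        rintro ⟨w', h, h', h''⟩
        rcases List.eq_nil_or_concat' w with rfl | ⟨w, x, rfl⟩
        · simp at h
        · rw [List.map_append] at h
          obtain ⟨rfl, h'''⟩ := List.append_inj' h rfl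
          obtain rfl : x.1 = e := List.singleton_injective h'''
          exact ⟨w, x.2, rfl, h', h''⟩
      refine ⟨(u ++ [e], R', L'), ⟨ch_concat.2 ⟨h₁, h₂ he, hn⟩, In.subset_trans k₁ h₂,
        by rw [← List.append_assoc]; exact k₂, fun w hw => ?_, fun w x hw => ?_⟩,
        ⟨e, he, rfl⟩, k₁, k₅⟩
      · rcases k₆ w hw with hw | ⟨w, c, rfl, hw, hw'⟩
        · dsimp only
          rw [k₅ w hw]
          refine ⟨(h₄ w hw).1, fun x hx => (h₄ w hw).2 x ?_⟩
          rcases hx with hx | hx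
          · rcases List.mem_append.1 hx with hx | hx
            · exact Or.inl hx
            · exact Or.inr (List.mem_singleton.1 hx ▸ he)
          · exact Or.inr (k₁ hx)
        · obtain ⟨k₇, -, k₈⟩ := k₄ (w, c) ⟨hw, hw'⟩
          refine ⟨k₇, fun x hx hf => ?_⟩
          rw [List.map_append, ← List.append_assoc] at hf
          refine k₈ x (hx.resolve_left fun hx => ?_) hf
          have := (above_concat.1 hf.1).2.2
          rcases List.mem_append.1 hx with hx | hx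
          · have := (hab x hx).2
            dsimp only at *
            omega
          · obtain rfl := List.mem_singleton.1 hx
            exact this.false
      · dsimp only
        rcases k₆ _ hw with hv | ⟨w', c, h, hv, hw'⟩
        · rw [k₅ _ hv, k₅ w (hv.of_isPrefix (by simp))]
          exact h₅ w x hv
        · obtain ⟨rfl, h'⟩ := List.append_inj' h rfl
          obtain rfl := List.singleton_injective h'
          rw [k₅ w hv]
          exact (k₄ (w, c) ⟨hv, hw'⟩).2.1)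
    (x₀ := ([], res l₀, mkF (fun _ => l₀) (by fun_prop)))
    ⟨ch_nil, g₂, by simpa using g₃, fun w hw => by
      have : w = [] := by
        cases w with
        | nil => rfl
        | cons a w => simpa using hw.of_mem (e := a.1) (by simp)
      subst this
      exact ⟨g₁, fun x hx _ => by simpa using hx⟩,
      fun w x hw => by simpa using hw.of_mem (e := x.1) (by simp)⟩
  have e := chain_eq_pre (l := fun k => (st k).1) (0, 0) (by simp [h₀])
    fun n => (h₁ n).2.1.imp fun _ h => h.2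
  set x : ℕ → Pick := fun k => ((st (k + 1)).1).getD k (0, 0) with hx
  have hx' : Tm M x := by rw [hx]; fun_prop
  have hpt : IsPt s A x := isPt_of_ch fun n => e n ▸ (h₁ n).1.1
  have hxR : ∀ k, x k ∈ (st k).2.1 := fun k => by
    obtain ⟨a, h₂, h₃⟩ := (h₁ k).2.1
    rw [e, e, pre_succ] at h₃
    exact List.singleton_injective (List.append_cancel_left h₃) ▸ h₂
  have hRR : ∀ {j k}, j ≤ k → (st k).2.1 ⊆ (st j).2.1 := fun {j k} h => by
    induction h with
    | refl => exact In.subset_refl _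
    | step _ ih => exact In.subset_trans (h₁ _).2.2.1 ih
  have hch : ∀ {j k}, j ≤ k → ∀ w, Ch s (· ∈ (st j).1) w → Ch s (· ∈ (st k).1) w :=
    fun {j k} h w hw => hw.mono fun a ha => by
      rw [e] at ha ⊢
      exact (pre_isPrefix x h).subset ha
  have hLL : ∀ {j k}, j ≤ k → ∀ w : Dec, Ch s (· ∈ (st j).1) (w.map Prod.fst) →
      (st k).2.2 w = (st j).2.2 w := fun {j k} h w hw => by
    induction h with
    | refl => rfl
    | step h ih => rw [← ih]; exact (h₁ _).2.2.2 w (hch h _ hw)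
  have hex : ∀ w, Ch s (· ∈ rg x hx') w → ∃ k, Ch s (· ∈ (st k).1) w := fun w hw => by
    obtain ⟨b, hb⟩ := exists_above w
    refine ⟨b, hw.self.mono fun a ha => ?_⟩
    obtain ⟨k, rfl⟩ := hw.of_mem ha
    rw [e]
    exact mem_pre.2 ⟨k, (hpt.le_snd k).trans_lt (hb _ ha).2, rfl⟩
  refine ⟨rg x hx', hpt.rg_subset hx', (hpt.rg hx').comp, hpt.nice_rg hx',
    fun w => (st (mn fun k => Ch s (· ∈ (st k).1) (w.map Prod.fst))).2.2 w, by fun_prop,
    fun w hw => ?_, fun w a hw => ?_⟩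
  · obtain ⟨k₁, k₂⟩ := (h₁ _).1.2.2.2.1 w (mn_spec (hex _ hw))
    refine ⟨k₁, ?_⟩
    rintro _ ⟨k, rfl⟩
    refine k₂ _ ?_
    rcases lt_or_ge k (mn fun k => Ch s (· ∈ (st k).1) (w.map Prod.fst)) with h | h
    · exact Or.inl (by rw [e]; exact mem_pre.2 ⟨k, h, rfl⟩)
    · exact Or.inr (hRR h (hxR k))
  · have k₁ := mn_spec (hex _ hw)
    have k₂ := k₁.of_isPrefix (u := w.map Prod.fst) (by simp)
    have := (h₁ _).1.2.2.2.2 w a k₁
    rwa [hLL (mn_le (P := fun k => Ch s (· ∈ (st k).1) (w.map Prod.fst)) k₂) w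
      (mn_spec (P := fun k => Ch s (· ∈ (st k).1) (w.map Prod.fst)) ⟨_, k₂⟩)] at this

end Fusion

end Pool.Agent.MP_09d684_lc.H42
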