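import Pool.Agent.MP_09d684_lc.H42.Auto

/-! Subsets, functions and finite sequences of the model; least elements; recursion. -/

set_option linter.unusedSectionVars false

namespace Pool.Agent.MP_09d684_lc.H42

open Set

universe u v w

variable {M : Set ZFSet.{0}}

section Basic

variable {α : Type u} {β : Type v} [Code α] [Code β]

@[ext] theorem In.ext {a b : In M α} (h : a.val = b.val) : a = b := by
  cases a; cases b; cases h; rfl

theorem enc_In (a : In M α) : enc a = enc a.val := rfl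

theorem enc_prod (z : α × β) : enc z = ZFSet.pair (enc z.1) (enc z.2) := rfl

variable [Small.{0} α]

theorem mem_enc_set {S : Set α} {x : ZFSet.{0}} : x ∈ enc S ↔ ∃ a ∈ S, enc a = x :=
  ZFSet.mem_range.trans ⟨fun ⟨a, h⟩ => ⟨a.1, a.2, h⟩, fun ⟨a, h₁, h₂⟩ => ⟨⟨a, h₁⟩, h₂⟩⟩

theorem mem_enc_fun {f : α → β} {x : ZFSet.{0}} : x ∈ enc f ↔ ∃ a, enc (a, f a) = x :=
  ZFSet.mem_range

instance : Membership α (In M (Set α)) := ⟨fun S a => a ∈ S.val⟩

theorem In.mem_def {S : In M (Set α)} {a : α} : a ∈ S ↔ a ∈ S.val := Iff.rfl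

instance : HasSubset (In M (Set α)) := ⟨fun S T => ∀ ⦃a⦄, a ∈ S → a ∈ T⟩

theorem In.subset_def {S T : In M (Set α)} : S ⊆ T ↔ ∀ a, a ∈ S → a ∈ T := Iff.rfl

theorem In.subset_refl (S : In M (Set α)) : S ⊆ S := fun _ h => h

theorem In.subset_trans {S T U : In M (Set α)} (h₁ : S ⊆ T) (h₂ : T ⊆ U) : S ⊆ U :=
  fun _ h => h₂ (h₁ h)

theorem In.ext_set {S T : In M (Set α)} (h : ∀ a, a ∈ S ↔ a ∈ T) : S = T := In.ext (Set.ext h)

/-- Application of a function of the model. -/
def In.ap (f : In M (α → β)) (a : α) : β := f.val a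

instance : CoeFun (In M (α → β)) (fun _ => α → β) := ⟨In.ap⟩

theorem In.val_apply (f : In M (α → β)) (a : α) : f.val a = f a := rfl

theorem In.ext_fun {f g : In M (α → β)} (h : ∀ a, f a = g a) : f = g := In.ext (funext h)

end Basic

theorem mem_enc_list {α : Type u} [Code α] {l : List α} {x : ZFSet.{0}} :
    x ∈ enc l ↔ ∃ (i : ℕ) (a : α), l[i]? = some a ∧ enc (i, a) = x := by
  refine ZFSet.mem_range.trans ⟨fun ⟨i, h⟩ => ⟨i, l.get i, by simp, h⟩, ?_⟩
  rintro ⟨i, a, h, rfl⟩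
  obtain ⟨hi, rfl⟩ := List.getElem?_eq_some_iff.1 h
  exact ⟨⟨i, hi⟩, rfl⟩

variable [hM : IsZF M]

section SetFun

variable {Γ : Type*} {α : Type*} {β : Type*} [Code Γ] [Code α] [Code β]
  [Cd M Γ] [Cd M α] [Cd M β] [Small.{0} α]

include M hM in
theorem enc_mem_enc_set {S : Set α} {a : α} : enc a ∈ enc S ↔ a ∈ S :=
  mem_enc_set.trans ⟨fun ⟨_, h, e⟩ => Cd.inj M e ▸ h, fun h => ⟨a, h, rfl⟩⟩

include M hM in
theorem enc_mem_enc_fun {f : α → β} {a : α} {b : β} : enc (a, b) ∈ enc f ↔ b = f a :=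
  mem_enc_fun.trans ⟨fun ⟨a', e⟩ => by
    obtain ⟨rfl, rfl⟩ := Prod.ext_iff.1 (Cd.inj M e)
    rfl, fun h => ⟨a, h ▸ rfl⟩⟩

instance : Cd M (In M (Set α)) where
  inj := fun S T h => In.ext_set fun a => by
    rw [In.mem_def, In.mem_def, ← enc_mem_enc_set (M := M), ← enc_mem_enc_set (M := M),
      show enc S.val = enc T.val from h]
  mem := fun S => S.mem
  rng := rng_of_tm (S := fun x => ∀ y, E y x → ∃ a : α, ι M a = y) (by fun_prop) fun x => by
    constructor
    · intro h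
      have e : enc {a : α | enc a ∈ x.1} = x.1 := ZFSet.ext fun y => by
        rw [mem_enc_set]
        constructor
        · rintro ⟨a, ha, rfl⟩
          exact ha
        · intro hy
          obtain ⟨a, ha⟩ := h ⟨y, tr x.2 hy⟩ hy
          obtain rfl : enc a = y := congrArg Subtype.val ha
          exact ⟨a, hy, rfl⟩
      exact ⟨⟨{a : α | enc a ∈ x.1}, by rw [e]; exact x.2⟩, e⟩
    · rintro ⟨S, h⟩ y hy
      obtain ⟨a, -, ha⟩ := mem_enc_set.1 (show y.1 ∈ enc S.val from (show enc S.val = x.1 from h) ▸ hy)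
      exact ⟨a, Subtype.ext ha⟩

instance [Bd M α] : Bd M (In M (Set α)) where
  bd := by
    obtain ⟨A, hA⟩ := Bd.bd (M := M) (α := α)
    obtain ⟨P, hP, h⟩ := exists_power A.2
    refine ⟨⟨P, hP⟩, fun S => h _ S.mem fun y hy => ?_⟩
    obtain ⟨a, -, rfl⟩ := mem_enc_set.1 hy
    exact hA a

@[fun_prop] theorem tm_mem_set {S : Γ → In M (Set α)} {a : Γ → α} (hS : Tm M S) (ha : Tm M a) :
    Tm M (fun x => a x ∈ S x) :=
  (tm_E (tm_ι ha) (tm_ι hS)).congr' fun _ => enc_mem_enc_set (M := M)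

@[fun_prop] theorem tm_subset {S T : Γ → In M (Set α)} (hS : Tm M S) (hT : Tm M T) :
    Tm M (fun x => S x ⊆ T x) := by
  simp only [In.subset_def]
  fun_prop

theorem enc_set_mem [Bd M α] {P : α → Prop} (h : Tm M P) : enc {a | P a} ∈ M := by
  obtain ⟨S, hS⟩ := tm_image (f := fun a : α => ι M a) h (by fun_prop)
  convert S.2
  ext x
  rw [mem_enc_set]
  constructor
  · rintro ⟨a, ha, rfl⟩
    exact (hS (ι M a)).2 ⟨a, ha, rfl⟩
  · intro hx
    obtain ⟨a, ha, e⟩ := (hS ⟨x, tr S.2 hx⟩).1 hx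
    exact ⟨a, ha, congrArg Subtype.val e⟩

/-- The subset of the model defined by a definable predicate. -/
def mkS [Bd M α] (P : α → Prop) (h : Tm M P) : In M (Set α) := ⟨{a | P a}, enc_set_mem h⟩

@[simp] theorem mem_mkS [Bd M α] {P : α → Prop} {h : Tm M P} {a : α} : a ∈ mkS P h ↔ P a :=
  Iff.rfl

@[fun_prop] theorem tm_mkS [Bd M α] {P : Γ → α → Prop} {h : ∀ x, Tm M (P x)}
    (hP : Tm M (fun z : Γ × α => P z.1 z.2)) : Tm M (fun x => mkS (P x) (h x)) :=
  tm_of_rel (Q := fun x (S : In M (Set α)) => ∀ a, a ∈ S ↔ P x a) (by fun_prop) fun _ _ =>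
    ⟨fun h => In.ext_set h, fun h => h ▸ fun _ => Iff.rfl⟩

instance [Bd M α] : Nonempty (In M (Set α)) := ⟨mkS (fun _ => False) (by fun_prop)⟩

instance : Cd M (In M (α → β)) where
  inj := fun f g h => In.ext_fun fun a => by
    rw [← In.val_apply g, ← enc_mem_enc_fun (M := M), ← show enc f.val = enc g.val from h,
      enc_mem_enc_fun (M := M)]
    rfl
  mem := fun f => f.mem
  rng := rng_of_tm (S := fun x => (∀ y, E y x → ∃ z : α × β, ι M z = y) ∧
      ∀ a : α, ∃ b : β, ∀ b' : β, E (ι M (a, b')) x ↔ b' = b) (by fun_prop) fun x => by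
    constructor
    · rintro ⟨h₁, h₂⟩
      choose f hf using h₂
      have e : enc f = x.1 := ZFSet.ext fun y => by
        rw [mem_enc_fun]
        constructor
        · rintro ⟨a, rfl⟩
          exact (hf a _).2 rfl
        · intro hy
          obtain ⟨⟨a, b⟩, ha⟩ := h₁ ⟨y, tr x.2 hy⟩ hy
          obtain rfl : enc (a, b) = y := congrArg Subtype.val ha
          obtain rfl := (hf a b).1 hy
          exact ⟨a, rfl⟩
      exact ⟨⟨_, e ▸ x.2⟩, e⟩
    · rintro ⟨f, h⟩
      have h : enc f.val = x.1 := h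
      refine ⟨fun y hy => ?_, fun a => ⟨f a, fun b => ?_⟩⟩
      · obtain ⟨a, ha⟩ := mem_enc_fun.1 (show y.1 ∈ enc f.val from h ▸ hy)
        exact ⟨_, Subtype.ext ha⟩
      · rw [E, ← h]
        exact enc_mem_enc_fun (M := M)

instance [Bd M α] [Bd M β] : Bd M (In M (α → β)) where
  bd := by
    obtain ⟨A, hA⟩ := Bd.bd (M := M) (α := α × β)
    obtain ⟨P, hP, h⟩ := exists_power A.2
    refine ⟨⟨P, hP⟩, fun S => h _ S.mem fun y hy => ?_⟩
    obtain ⟨a, rfl⟩ := mem_enc_fun.1 hy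
    exact hA _

@[fun_prop] theorem tm_ap {F : Γ → In M (α → β)} {a : Γ → α} (hF : Tm M F) (ha : Tm M a) :
    Tm M (fun x => In.ap (F x) (a x)) :=
  tm_of_rel (Q := fun x b => E (ι M (a x, b)) (ι M (F x))) (by fun_prop) fun _ _ =>
    enc_mem_enc_fun (M := M)

theorem enc_fun_mem [Bd M α] {f : α → β} (h : Tm M f) : enc f ∈ M := by
  obtain ⟨S, hS⟩ := tm_image (Q := fun _ => True) (f := fun a : α => ι M (a, f a)) (by fun_prop)
    (by fun_prop)
  convert S.2
  ext x
  rw [mem_enc_fun]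
  constructor
  · rintro ⟨a, rfl⟩
    exact (hS (ι M (a, f a))).2 ⟨a, trivial, rfl⟩
  · intro hx
    obtain ⟨a, -, e⟩ := (hS ⟨x, tr S.2 hx⟩).1 hx
    exact ⟨a, congrArg Subtype.val e⟩

/-- The function of the model given by a definable function. -/
def mkF [Bd M α] (f : α → β) (h : Tm M f) : In M (α → β) := ⟨f, enc_fun_mem h⟩

@[simp] theorem mkF_ap [Bd M α] {f : α → β} {h : Tm M f} {a : α} : mkF f h a = f a := rfl

@[simp] theorem mkF_coe [Bd M α] {f : α → β} {h : Tm M f} : In.ap (mkF f h) = f := rfl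

@[fun_prop] theorem tm_mkF [Bd M α] {f : Γ → α → β} {h : ∀ x, Tm M (f x)}
    (hf : Tm M (fun z : Γ × α => f z.1 z.2)) : Tm M (fun x => mkF (f x) (h x)) :=
  tm_of_rel (Q := fun x (g : In M (α → β)) => ∀ a, g a = f x a) (by fun_prop) fun _ _ =>
    ⟨fun h => In.ext_fun h, fun h => h ▸ fun _ => rfl⟩

instance [Bd M α] [Nonempty β] : Nonempty (In M (α → β)) :=
  ⟨mkF (fun _ => Classical.arbitrary β) (by fun_prop)⟩

end SetFun

section Lists

variable {Γ : Type*} {α : Type*} {β : Type*} [Code Γ] [Code α] [Code β]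
  [Cd M Γ] [Cd M α] [Cd M β]

include M hM in
theorem enc_mem_enc_list {l : List α} {i : ℕ} {a : α} : enc (i, a) ∈ enc l ↔ l[i]? = some a :=
  mem_enc_list.trans ⟨fun ⟨j, b, h, e⟩ => by
    obtain ⟨rfl, rfl⟩ := Prod.ext_iff.1 (Cd.inj M e)
    exact h, fun h => ⟨i, a, h, rfl⟩⟩

theorem enc_list_mem (l : List α) : enc l ∈ M := by
  obtain ⟨s, hs⟩ := exists_finset
    (Set.finite_range fun i : Fin l.length => ι M ((i : ℕ), l.get i))
  convert s.2
  ext x
  refine ZFSet.mem_range.trans ⟨?_, fun hx => ?_⟩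
  · rintro ⟨i, rfl⟩
    exact (hs (ι M ((i : ℕ), l.get i))).2 ⟨i, rfl⟩
  · obtain ⟨i, e⟩ := (hs ⟨x, tr s.2 hx⟩).1 hx
    exact ⟨i, congrArg Subtype.val e⟩

instance : Cd M (List α) where
  inj := fun l l' h => List.ext_getElem? fun i => Option.ext fun a => by
    rw [← enc_mem_enc_list (M := M), ← enc_mem_enc_list (M := M), h]
  mem := enc_list_mem
  rng := rng_of_tm (S := fun x => ∃ n : ℕ, (∀ y, E y x → ∃ z : ℕ × α, z.1 < n ∧ ι M z = y) ∧
      ∀ i < n, ∃ b : α, ∀ b' : α, E (ι M (i, b')) x ↔ b' = b) (by fun_prop) fun x => by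
    constructor
    · rintro ⟨n, h₁, h₂⟩
      choose f hf using h₂
      refine ⟨List.ofFn fun i : Fin n => f i i.2, ZFSet.ext fun y => ?_⟩
      rw [mem_enc_list]
      constructor
      · rintro ⟨i, a, h, rfl⟩
        obtain ⟨hi, rfl⟩ := List.getElem?_eq_some_iff.1 h
        exact (hf i (by simpa using hi) _).2 (by simp)
      · intro hy
        obtain ⟨⟨i, b⟩, hi, ha⟩ := h₁ ⟨y, tr x.2 hy⟩ hy
        obtain rfl : enc (i, b) = y := congrArg Subtype.val ha
        have hi : i < n := hi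
        exact ⟨i, b, by simp [hi, (hf i hi b).1 hy], rfl⟩
    · rintro ⟨l, h⟩
      refine ⟨l.length, fun y hy => ?_, fun i hi => ⟨l[i], fun b => ?_⟩⟩
      · obtain ⟨i, a, h₁, h₂⟩ := mem_enc_list.1 (show y.1 ∈ enc l from h ▸ hy)
        exact ⟨(i, a), (List.getElem?_eq_some_iff.1 h₁).1, Subtype.ext h₂⟩
      · rw [E, ← h]
        exact (enc_mem_enc_list (M := M)).trans (by simp [hi, eq_comm])

instance [Bd M α] : Bd M (List α) where
  bd := by
    obtain ⟨A, hA⟩ := Bd.bd (M := M) (α := ℕ × α)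
    obtain ⟨P, hP, h⟩ := exists_power A.2
    refine ⟨⟨P, hP⟩, fun l => h _ (Cd.mem l) fun y hy => ?_⟩
    obtain ⟨i, a, -, rfl⟩ := mem_enc_list.1 hy
    exact hA _

/-- `a` is the `i`-th entry of `l`. -/
def At (l : List α) (i : ℕ) (a : α) : Prop := l[i]? = some a

@[fun_prop] theorem tm_At {l : Γ → List α} {i : Γ → ℕ} {a : Γ → α} (hl : Tm M l) (hi : Tm M i)
    (ha : Tm M a) : Tm M (fun x => At (l x) (i x) (a x)) :=
  (tm_E (tm_ι (tm_pair hi ha)) (tm_ι hl)).congr' fun _ => enc_mem_enc_list (M := M)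

theorem tm_list {l : Γ → List α} {P : Γ → ℕ → α → Prop}
    (h : Tm M (fun z : Γ × ℕ × α => P z.1 z.2.1 z.2.2))
    (e : ∀ x i a, (l x)[i]? = some a ↔ P x i a) : Tm M l :=
  tm_of_rel (Q := fun x (l' : List α) => ∀ i a, At l' i a ↔ P x i a)
    (tm_all (tm_all (tm_iff (by fun_prop) (h.comp
      (f := fun z : ((Γ × List α) × ℕ) × α => (z.1.1.1, z.1.2, z.2)) (by fun_prop))))) fun x l' =>
    ⟨fun h => List.ext_getElem? fun i => Option.ext fun a => (h i a).trans (e x i a).symm,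
      fun h => h ▸ e x⟩

@[fun_prop] theorem tm_length {l : Γ → List α} (hl : Tm M l) : Tm M (fun x => (l x).length) :=
  tm_of_rel (Q := fun x n => ∀ i, i < n ↔ ∃ a, At (l x) i a) (by fun_prop) fun x n => by
    have e : ∀ i, (∃ a, At (l x) i a) ↔ i < (l x).length := fun i => by
      simp [At, List.getElem?_eq_some_iff]
    simp only [e]
    exact ⟨fun h => eq_of_forall_lt_iff h, fun h => h ▸ fun _ => Iff.rfl⟩

@[fun_prop] theorem tm_getD {l : Γ → List α} {i : Γ → ℕ} {d : Γ → α} (hl : Tm M l) (hi : Tm M i)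
    (hd : Tm M d) : Tm M (fun x => (l x).getD (i x) (d x)) :=
  tm_of_rel (Q := fun x a => At (l x) (i x) a ∨ ((l x).length ≤ i x ∧ a = d x)) (by fun_prop)
    fun x a => by
      by_cases h : i x < (l x).length
      · simp [At, h, eq_comm]
      · simp [At, not_lt.1 h]

@[fun_prop] theorem tm_append {l l' : Γ → List α} (hl : Tm M l) (hl' : Tm M l') :
    Tm M (fun x => l x ++ l' x) :=
  tm_list (P := fun x i a => At (l x) i a ∨ ((l x).length ≤ i ∧ At (l' x) (i - (l x).length) a))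
    (by fun_prop) fun x i a => by
      by_cases h : i < (l x).length
      · simp [At, h, List.getElem?_append_left h]
      · simp [At, not_lt.1 h, List.getElem?_append_right (not_lt.1 h)]

theorem tm_single {a : Γ → α} (ha : Tm M a) : Tm M (fun x => [a x]) :=
  tm_list (P := fun x i b => i = 0 ∧ b = a x) (by fun_prop) fun x i b => by
    cases i <;> simp [eq_comm]

@[fun_prop] theorem tm_cons {a : Γ → α} {l : Γ → List α} (ha : Tm M a) (hl : Tm M l) :
    Tm M (fun x => a x :: l x) := tm_append (tm_single ha) hl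

@[fun_prop] theorem tm_map {f : Γ → α → β} {l : Γ → List α}
    (hf : Tm M (fun z : Γ × α => f z.1 z.2)) (hl : Tm M l) :
    Tm M (fun x => List.map (f x) (l x)) :=
  tm_list (P := fun x i b => ∃ a, At (l x) i a ∧ f x a = b) (by fun_prop) fun x i b => by
    simp [At]

@[fun_prop] theorem tm_range {n : Γ → ℕ} (hn : Tm M n) : Tm M (fun x => List.range (n x)) :=
  tm_list (P := fun x i b => i < n x ∧ i = b) (by fun_prop) fun x i b => by
    by_cases h : i < n x
    · simp [h]
    · simp [not_lt.1 h]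

@[fun_prop] theorem tm_take {l : Γ → List α} {n : Γ → ℕ} (hl : Tm M l) (hn : Tm M n) :
    Tm M (fun x => List.take (n x) (l x)) :=
  tm_list (P := fun x i b => i < n x ∧ At (l x) i b) (by fun_prop) fun x i b => by
    by_cases h : i < n x <;> simp [At, h]

@[fun_prop] theorem tm_mem_list {l : Γ → List α} {a : Γ → α} (hl : Tm M l) (ha : Tm M a) :
    Tm M (fun x => a x ∈ l x) :=
  (show Tm M (fun x => ∃ i, At (l x) i (a x)) by fun_prop).congr' fun _ =>
    List.mem_iff_getElem?.symm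

@[fun_prop] theorem tm_isPrefix {l l' : Γ → List α} (hl : Tm M l) (hl' : Tm M l') :
    Tm M (fun x => l x <+: l' x) := by
  unfold List.IsPrefix
  fun_prop

@[fun_prop] theorem tm_pre {f : Γ → ℕ → α} {n : Γ → ℕ} (hf : Tm M (fun z : Γ × ℕ => f z.1 z.2))
    (hn : Tm M n) : Tm M (fun x => pre (f x) (n x)) := by
  unfold pre
  fun_prop

end Lists

section Pre

variable {α : Type u}

@[simp] theorem pre_zero (x : ℕ → α) : pre x 0 = [] := rfl

theorem pre_succ (x : ℕ → α) (n : ℕ) : pre x (n + 1) = pre x n ++ [x n] := by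
  simp [pre, List.range_succ]

@[simp] theorem length_pre (x : ℕ → α) (n : ℕ) : (pre x n).length = n := by simp [pre]

theorem mem_pre {x : ℕ → α} {n : ℕ} {a : α} : a ∈ pre x n ↔ ∃ k < n, x k = a := by simp [pre]

theorem getD_pre {x : ℕ → α} {n k : ℕ} (h : k < n) (d : α) : (pre x n).getD k d = x k := by
  simp [pre, h]

theorem pre_congr {x y : ℕ → α} {n : ℕ} (h : ∀ k < n, x k = y k) : pre x n = pre y n :=
  List.map_congr_left fun k hk => h k (List.mem_range.1 hk)

theorem pre_getD (l : List α) (d : α) : pre (fun k => l.getD k d) l.length = l :=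
  List.ext_getElem (by simp) fun k h₁ h₂ => by simp [pre, h₂]

theorem map_pre {β : Type v} (f : α → β) (x : ℕ → α) (n : ℕ) :
    (pre x n).map f = pre (fun k => f (x k)) n := by simp [pre, Function.comp_def]

theorem pre_isPrefix (x : ℕ → α) {m n : ℕ} (h : m ≤ n) : pre x m <+: pre x n := by
  induction h with
  | refl => exact List.prefix_rfl
  | step _ ih => rw [pre_succ]; exact ih.trans (List.prefix_append _ _)

theorem eq_pre_of_isPrefix {x : ℕ → α} {n : ℕ} {l : List α} (h : l <+: pre x n) :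
    l = pre x l.length :=
  List.prefix_of_prefix_length_le h (pre_isPrefix x (by simpa using h.length_le)) (by simp)
    |>.eq_of_length (by simp)

/-- An increasing chain of lists growing by one entry at each step is the chain of initial
segments of a sequence. -/
theorem chain_eq_pre {l : ℕ → List α} (d : α) (h₀ : l 0 = [])
    (h : ∀ n, ∃ a, l (n + 1) = l n ++ [a]) (n : ℕ) :
    l n = pre (fun k => (l (k + 1)).getD k d) n := by
  induction n with
  | zero => exact h₀
  | succ n ih =>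
    obtain ⟨a, ha⟩ := h n
    have hl : (l n).length = n := by rw [ih]; simp
    rw [pre_succ, ← ih, ha]
    simp [List.getD_eq_getElem?_getD, hl]

end Pre

section Least

variable {Γ : Type*} [Code Γ] [Cd M Γ]
variable {K : Type*} [LinearOrder K] [WellFoundedLT K] [Nonempty K]

open Classical in
/-- The least element satisfying `P`. -/
noncomputable def mn (P : K → Prop) : K :=
  if h : ∃ a, P a then wellFounded_lt.min {a | P a} h else Classical.arbitrary K

theorem mn_spec {P : K → Prop} (h : ∃ a, P a) : P (mn P) := by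
  rw [mn, dif_pos h]
  exact wellFounded_lt.min_mem {a | P a} h

theorem mn_le {P : K → Prop} {a : K} (h : P a) : mn P ≤ a := by
  rw [mn, dif_pos ⟨a, h⟩]
  exact not_lt.1 (wellFounded_lt.not_lt_min {a | P a} h)

theorem not_of_lt_mn {P : K → Prop} {a : K} (h : a < mn P) : ¬ P a := fun h' =>
  (mn_le h').not_gt h

theorem mn_eq {P : K → Prop} {a : K} (h₁ : P a) (h₂ : ∀ b, P b → a ≤ b) : mn P = a :=
  le_antisymm (mn_le h₁) (h₂ _ (mn_spec ⟨a, h₁⟩))

variable [Code K] [Cd M K] [TmLT M K]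

@[fun_prop] theorem tm_mn {P : Γ → K → Prop} (h : Tm M (fun z : Γ × K => P z.1 z.2)) :
    Tm M (fun x => mn (P x)) :=
  tm_of_rel (Q := fun x a => (P x a ∧ ∀ b, P x b → a ≤ b) ∨
      ((¬ ∃ b, P x b) ∧ a = Classical.arbitrary K)) (by fun_prop) fun x a => by
    by_cases h : ∃ b, P x b
    · simp only [h, not_true, false_and, or_false]
      exact ⟨fun h' => (mn_eq h'.1 h'.2).symm, fun h' => h' ▸ ⟨mn_spec h, fun _ => mn_le⟩⟩
    · have : ¬ P x a := fun h' => h ⟨a, h'⟩
      simp only [this, false_and, false_or, h, not_false_iff, true_and, mn, dif_neg]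

end Least

section Rec

variable {α : Type*} {β : Type*} [Code α] [Code β] [Cd M α] [Cd M β] [Bd M α]

/-- Functions defined by well-founded recursion with a definable step are definable. -/
theorem tm_wf {r : α → α → Prop} (wf : WellFounded r)
    (hr : Tm M (fun z : α × α => r z.1 z.2)) {F : α → β}
    {Φ : α → (α → β → Prop) → β → Prop}
    (hΦ : Tm M (fun w : (α × M) × β => Φ w.1.1 (fun a b => E (ι M (a, b)) w.1.2) w.2))
    (spec : ∀ x s, Φ x (fun a b => r a x ∧ F a = b) s ↔ s = F x) : Tm M F := by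
  let Ap : M → Prop := fun h => ∀ a (s : β), E (ι M (a, s)) h →
    (∀ b, r b a → ∃ t : β, E (ι M (b, t)) h) ∧ ∃ h' : M,
      (∀ b (t : β), E (ι M (b, t)) h' ↔ r b a ∧ E (ι M (b, t)) h) ∧
        Φ a (fun b t => E (ι M (b, t)) h') s
  have hAp : Tm M Ap :=
    tm_all (tm_all (tm_imp (by fun_prop) (tm_and (by fun_prop) (tm_ex (tm_and (by fun_prop)
      (hΦ.comp (f := fun z : ((M × α) × β) × M => ((z.1.1.2, z.2), z.1.2))
        (by fun_prop)))))))
  have key : ∀ h, Ap h → ∀ a s, E (ι M (a, s)) h → s = F a := by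
    intro h hh a
    induction a using wf.induction with | _ a ih
    intro s hs
    obtain ⟨h₁, h', h₂, h₃⟩ := hh a s hs
    have e : (fun b t => E (ι M (b, t)) h') = fun b t => r b a ∧ F b = t := by
      funext b t
      rw [h₂]
      refine propext (and_congr_right fun hb => ⟨fun h => (ih b hb t h).symm, ?_⟩)
      rintro rfl
      obtain ⟨t, ht⟩ := h₁ b hb
      exact ih b hb t ht ▸ ht
    rwa [e, spec] at h₃
  let G : α → β → Prop := fun a s => ∃ h, Ap h ∧ E (ι M (a, s)) h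
  have hG : Tm M (fun z : α × β => G z.1 z.2) := by simp only [G]; fun_prop
  have ex : ∀ x, G x (F x) := by
    intro x
    induction x using wf.induction with | _ x ih
    classical
    have hF : Tm M (fun a => if ∃ s, G a s then F a else F x) :=
      tm_of_rel (Q := fun a s => G a s ∨ ((¬ ∃ s, G a s) ∧ s = F x)) (by fun_prop)
        fun a s => by
          by_cases h : ∃ s, G a s
          · simp only [h, not_true, false_and, or_false, if_true]
            obtain ⟨t, h, h₁, h₂⟩ := h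
            exact ⟨fun ⟨h, h₁, h₂⟩ => key h h₁ a s h₂,
              fun e => ⟨h, h₁, e ▸ key h h₁ a t h₂ ▸ h₂⟩⟩
          · have : ¬ G a s := fun h' => h ⟨s, h'⟩
            simp only [h, this, false_or, not_false_iff, true_and, if_false]
    obtain ⟨h, hh⟩ := tm_image (Q := fun a => (∃ s, G a s) ∨ a = x)
      (f := fun a => ι M (a, if ∃ s, G a s then F a else F x)) (by fun_prop) (by fun_prop)
    have h₁ : ∀ a b, E (ι M (a, b)) h ↔ ((∃ s, G a s) ∨ a = x) ∧ F a = b := fun a b => by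
      have e : ∀ a, (∃ s, G a s) ∨ a = x → (if ∃ s, G a s then F a else F x) = F a := by
        rintro a (h | rfl)
        exacts [if_pos h, ite_self _]
      rw [hh]
      constructor
      · rintro ⟨a', h₁, h₂⟩
        rw [e a' h₁] at h₂
        obtain ⟨rfl, rfl⟩ := Prod.ext_iff.1 (ι_inj.1 h₂)
        exact ⟨h₁, rfl⟩
      · rintro ⟨h₁, rfl⟩
        exact ⟨a, h₁, by rw [e a h₁]⟩
    refine ⟨h, fun a s hs => ?_, (h₁ _ _).2 ⟨Or.inr rfl, rfl⟩⟩
    obtain ⟨h₂, rfl⟩ := (h₁ a s).1 hs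
    have h₃ : ∀ b, r b a → ∃ s, G b s := fun b hb => by
      rcases h₂ with ⟨s, h₀, k₁, k₂⟩ | rfl
      · exact ((k₁ a s k₂).1 b hb).imp fun t ht => ⟨h₀, k₁, ht⟩
      · exact ⟨_, ih b hb⟩
    obtain ⟨h', hh'⟩ := tm_sep (Q := fun y => ∃ z : α × β, r z.1 a ∧ ι M z = y) (by fun_prop) h
    have h₄ : ∀ b (t : β), E (ι M (b, t)) h' ↔ r b a ∧ E (ι M (b, t)) h := fun b t => by
      simp [hh', ι_inj, and_comm]
    refine ⟨fun b hb => ⟨_, (h₁ _ _).2 ⟨Or.inl (h₃ b hb), rfl⟩⟩, h', h₄, ?_⟩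
    have e : (fun b t => E (ι M (b, t)) h') = fun b t => r b a ∧ F b = t := by
      funext b t
      rw [h₄, h₁]
      exact propext (and_congr_right fun hb => and_iff_right (Or.inl (h₃ b hb)))
    rw [e, spec]
  exact tm_of_rel hG fun x s => ⟨fun ⟨h, h₁, h₂⟩ => key h h₁ x s h₂, fun h => h ▸ ex x⟩

/-- Definition by well-founded recursion inside the model. -/
theorem exists_rec {r : α → α → Prop} (wf : WellFounded r)
    (hr : Tm M (fun z : α × α => r z.1 z.2)) {Φ : α → (α → β → Prop) → β → Prop}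
    (hΦ : Tm M (fun w : (α × M) × β => Φ w.1.1 (fun a b => E (ι M (a, b)) w.1.2) w.2))
    (uniq : ∀ x R, ∃! s, Φ x R s) :
    ∃ F : α → β, Tm M F ∧ ∀ x, Φ x (fun a b => r a x ∧ F a = b) (F x) := by
  let F : α → β := wf.fix fun x ih => (uniq x fun a b => ∃ h : r a x, ih a h = b).choose
  have hF : ∀ x, Φ x (fun a b => r a x ∧ F a = b) (F x) := fun x => by
    have : F x = _ := wf.fix_eq _ x
    have h := (uniq x fun a b => ∃ _ : r a x, F a = b).choose_spec.1
    rw [← this] at h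
    simpa only [exists_prop] using h
  exact ⟨F, tm_wf wf hr hΦ fun x s =>
    ⟨fun h => (uniq x _).unique h (hF x), fun h => h ▸ hF x⟩, hF⟩

end Rec

end Pool.Agent.MP_09d684_lc.H42
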